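import Pool.Agent.Lib.MP_154526_nt.Hof.Spec
import Pool.Agent.Lib.MP_154526_nt.Top.Span
import Pool.Agent.Lib.MP_154526_nt.Top.Red
import Pool.Agent.Lib.MP_154526_nt.Top.Alg
import Pool.Agent.Lib.MP_154526_nt.Low.Ideal
import Pool.Agent.Lib.MP_154526_nt.Top.Fin
import Pool.Agent.Lib.MP_154526_nt.Top.Pass2Main

section
/-!
# Linearity of the operators
-/
set_option autoImplicit false

namespace MP154526.Hof

open Finset MP154526.Bound MP154526.Top

/-! ### additivity and homogeneity in the functional -/

theorem ins_add (a : Bool) (f g : List Bool → ℚ) (w : List Bool) :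
    ins a (fun v => f v + g v) w = ins a f w + ins a g w := by
  induction w generalizing f g with
  | nil => rfl
  | cons b w ih => simp only [ins]; rw [ih]; ring

theorem ins_mul (a : Bool) (c : ℚ) (f : List Bool → ℚ) (w : List Bool) :
    ins a (fun v => c * f v) w = c * ins a f w := by
  induction w generalizing f with
  | nil => rfl
  | cons b w ih => simp only [ins]; rw [ih]; ring

theorem dd_add (f g : List Bool → ℚ) (w : List Bool) :
    dd (fun v => f v + g v) w = dd f w + dd g w := by
  induction w generalizing f g with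
  | nil => simp [dd]
  | cons b w ih => simp only [dd]; rw [ih]; ring

theorem dd_mul (c : ℚ) (f : List Bool → ℚ) (w : List Bool) :
    dd (fun v => c * f v) w = c * dd f w := by
  induction w generalizing f with
  | nil => simp [dd]
  | cons b w ih => simp only [dd]; rw [ih]; ring

theorem db_add (f g : List Bool → ℚ) (w : List Bool) :
    db (fun v => f v + g v) w = db f w + db g w := by
  induction w generalizing f g with
  | nil => simp [db]
  | cons b w ih => simp only [db]; rw [ih]; ring

theorem db_mul (c : ℚ) (f : List Bool → ℚ) (w : List Bool) :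
    db (fun v => c * f v) w = c * db f w := by
  induction w generalizing f with
  | nil => simp [db]
  | cons b w ih => simp only [db]; rw [ih]; ring

theorem d2_add (f g : List Bool → ℚ) (w : List Bool) :
    d2 (fun v => f v + g v) w = d2 f w + d2 g w := by
  induction w generalizing f g with
  | nil => simp [d2]
  | cons b w ih => simp only [d2]; rw [ih]; ring

theorem d2_mul (c : ℚ) (f : List Bool → ℚ) (w : List Bool) :
    d2 (fun v => c * f v) w = c * d2 f w := by
  induction w generalizing f with
  | nil => simp [d2]
  | cons b w ih => simp only [d2]; rw [ih]; ring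

theorem ze_add (i : ℕ) (f g : List Bool → ℚ) (w : List Bool) :
    ze i (fun v => f v + g v) w = ze i f w + ze i g w := by
  induction w generalizing f g with
  | nil => simp [ze]
  | cons b w ih => cases b <;> (simp only [ze]; rw [ih]; try ring)

theorem ze_mul (i : ℕ) (c : ℚ) (f : List Bool → ℚ) (w : List Bool) :
    ze i (fun v => c * f v) w = c * ze i f w := by
  induction w generalizing f with
  | nil => simp [ze]
  | cons b w ih => cases b <;> (simp only [ze]; rw [ih]; try ring)

theorem jj_add (i : ℕ) (f g : List Bool → ℚ) (w : List Bool) :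
    jj i (fun v => f v + g v) w = jj i f w + jj i g w := by
  simp only [jj, ze_add]; ring

theorem jj_mul (i : ℕ) (c : ℚ) (f : List Bool → ℚ) (w : List Bool) :
    jj i (fun v => c * f v) w = c * jj i f w := by
  simp only [jj, ze_mul]; ring

theorem zin_add (f g : List Bool → ℚ) (w : List Bool) :
    zin (fun v => f v + g v) w = zin f w + zin g w := by
  simp only [zin, ins_add]; ring

theorem zin_mul (c : ℚ) (f : List Bool → ℚ) (w : List Bool) :
    zin (fun v => c * f v) w = c * zin f w := by
  simp only [zin, ins_mul]; ring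

theorem tz_add (f g : List Bool → ℚ) (w : List Bool) :
    tz (fun v => f v + g v) w = tz f w + tz g w := by
  induction w generalizing f g with
  | nil => simp [tz]
  | cons b w ih =>
    cases b
    · simp only [tz]; rw [ih]
    · simp only [tz]
      rw [← ih]
      congr 1
      funext v
      ring

theorem tz_mul (c : ℚ) (f : List Bool → ℚ) (w : List Bool) :
    tz (fun v => c * f v) w = c * tz f w := by
  induction w generalizing f with
  | nil => simp [tz]
  | cons b w ih =>
    cases b
    · simp only [tz]; rw [ih]
    · simp only [tz]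
      rw [← ih]
      congr 1
      funext v
      ring

theorem ddz_add (f g : List Bool → ℚ) (w : List Bool) :
    ddz (fun v => f v + g v) w = ddz f w + ddz g w := by
  induction w generalizing f g with
  | nil => simp [ddz]
  | cons b w ih => cases b <;> (simp only [ddz]; rw [ih]; try ring)

theorem ddz_mul (c : ℚ) (f : List Bool → ℚ) (w : List Bool) :
    ddz (fun v => c * f v) w = c * ddz f w := by
  induction w generalizing f with
  | nil => simp [ddz]
  | cons b w ih => cases b <;> (simp only [ddz]; rw [ih]; try ring)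

theorem dp_add (f g : List Bool → ℚ) (w : List Bool) :
    dp (fun v => f v + g v) w = dp f w + dp g w := by
  induction w generalizing f g with
  | nil => simp [dp]
  | cons b w ih => cases b <;> (simp only [dp]; rw [ih]; try ring)

theorem dp_mul (c : ℚ) (f : List Bool → ℚ) (w : List Bool) :
    dp (fun v => c * f v) w = c * dp f w := by
  induction w generalizing f with
  | nil => simp [dp]
  | cons b w ih => cases b <;> (simp only [dp]; rw [ih]; try ring)

theorem ins_neg (a : Bool) (f : List Bool → ℚ) (w : List Bool) :
    ins a (fun v => -f v) w = -ins a f w := by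
  have := ins_mul a (-1) f w
  simpa using this

theorem dd_neg (f : List Bool → ℚ) (w : List Bool) : dd (fun v => -f v) w = -dd f w := by
  have := dd_mul (-1) f w
  simpa using this

theorem db_neg (f : List Bool → ℚ) (w : List Bool) : db (fun v => -f v) w = -db f w := by
  have := db_mul (-1) f w
  simpa using this

theorem ins_sub (a : Bool) (f g : List Bool → ℚ) (w : List Bool) :
    ins a (fun v => f v - g v) w = ins a f w - ins a g w := by
  have := ins_add a f (fun v => -g v) w
  rw [ins_neg] at this
  simpa [sub_eq_add_neg] using this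

theorem dd_sub (f g : List Bool → ℚ) (w : List Bool) :
    dd (fun v => f v - g v) w = dd f w - dd g w := by
  have := dd_add f (fun v => -g v) w
  rw [dd_neg] at this
  simpa [sub_eq_add_neg] using this

theorem db_sub (f g : List Bool → ℚ) (w : List Bool) :
    db (fun v => f v - g v) w = db f w - db g w := by
  have := db_add f (fun v => -g v) w
  rw [db_neg] at this
  simpa [sub_eq_add_neg] using this

/-! ### vanishing: the words which occur -/

/-- all words of `a ⧢ w` satisfy `P` -/
theorem ins_zero_of {P : List Bool → Prop} (a : Bool) (f : List Bool → ℚ) (w : List Bool)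
    (hf : ∀ v, P v → f v = 0) (hP : ∀ u v, w = u ++ v → P (u ++ a :: v)) : ins a f w = 0 := by
  induction w generalizing f P with
  | nil => exact hf _ (hP [] [] rfl)
  | cons b w ih =>
    rw [ins, hf (a :: b :: w) (hP [] (b :: w) rfl), zero_add]
    refine ih (P := fun v => P (b :: v)) (fun v => f (b :: v)) (fun v hv => hf _ hv) ?_
    intro u v h
    exact hP (b :: u) v (by rw [h]; rfl)

theorem dd_zero_of {P : List Bool → Prop} (f : List Bool → ℚ) (w : List Bool)
    (hf : ∀ v, P v → f v = 0) (hP : ∀ u b v, w = u ++ b :: v → P (u ++ false :: true :: v)) :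
    dd f w = 0 := by
  induction w generalizing f P with
  | nil => rfl
  | cons b w ih =>
    rw [dd, hf (false :: true :: w) (hP [] b w rfl), mul_zero, zero_add]
    refine ih (P := fun v => P (b :: v)) (fun v => f (b :: v)) (fun v hv => hf _ hv) ?_
    intro u b' v h
    exact hP (b :: u) b' v (by rw [h]; rfl)

theorem db_zero_of {P : List Bool → Prop} (f : List Bool → ℚ) (w : List Bool)
    (hf : ∀ v, P v → f v = 0) (hP : ∀ u b v, w = u ++ b :: v → P (u ++ true :: false :: v)) :
    db f w = 0 := by
  induction w generalizing f P with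
  | nil => rfl
  | cons b w ih =>
    rw [db, hf (true :: false :: w) (hP [] b w rfl), mul_zero, zero_add]
    refine ih (P := fun v => P (b :: v)) (fun v => f (b :: v)) (fun v hv => hf _ hv) ?_
    intro u b' v h
    exact hP (b :: u) b' v (by rw [h]; rfl)

theorem d2_zero_of {P : List Bool → Prop} (f : List Bool → ℚ) (w : List Bool)
    (hf : ∀ v, P v → f v = 0)
    (hP : ∀ u b c v, w = u ++ b :: v → P (u ++ false :: c :: true :: v)) : d2 f w = 0 := by
  induction w generalizing f P with
  | nil => rfl
  | cons b w ih =>
    rw [d2, hf (false :: false :: true :: w) (hP [] b false w rfl),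
      hf (false :: true :: true :: w) (hP [] b true w rfl), add_zero, mul_zero, zero_add]
    refine ih (P := fun v => P (b :: v)) (fun v => f (b :: v)) (fun v hv => hf _ hv) ?_
    intro u b' c v h
    exact hP (b :: u) b' c v (by rw [h]; rfl)

theorem ze_zero_of {P : List Bool → Prop} (i : ℕ) (f : List Bool → ℚ) (w : List Bool)
    (hf : ∀ v, P v → f v = 0)
    (hP : ∀ u c v, w = u ++ true :: v → P (u ++ c :: xy i v)) : ze i f w = 0 := by
  induction w generalizing f P with
  | nil => rfl
  | cons b w ih =>
    have key : ze i (fun v => f (b :: v)) w = 0 := by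
      refine ih (P := fun v => P (b :: v)) (fun v => f (b :: v)) (fun v hv => hf _ hv) ?_
      intro u c v h
      exact hP (b :: u) c v (by rw [h]; rfl)
    cases b
    · rw [ze, key]
    · rw [ze, key, hf (false :: xy i w) (hP [] false w rfl), hf (true :: xy i w) (hP [] true w rfl)]
      simp

/-- if `f` vanishes on the words containing `y`, then `f(∂ w) = 0` -/
theorem dd_zero_true (f : List Bool → ℚ) (w : List Bool) (hf : ∀ v, true ∈ v → f v = 0) :
    dd f w = 0 :=
  dd_zero_of f w hf (fun u b v _ => by simp)

theorem db_zero_true (f : List Bool → ℚ) (w : List Bool) (hf : ∀ v, true ∈ v → f v = 0) :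
    db f w = 0 :=
  db_zero_of f w hf (fun u b v _ => by simp)

theorem d2_zero_true (f : List Bool → ℚ) (w : List Bool) (hf : ∀ v, true ∈ v → f v = 0) :
    d2 f w = 0 :=
  d2_zero_of f w hf (fun u b c v _ => by simp)

theorem ze_zero_true (i : ℕ) (f : List Bool → ℚ) (w : List Bool) (hf : ∀ v, true ∈ v → f v = 0) :
    ze i f w = 0 :=
  ze_zero_of i f w hf (fun u c v _ => by simp [xy])

theorem ins_zero_true (a : Bool) (f : List Bool → ℚ) (w : List Bool) (hw : true ∈ w)
    (hf : ∀ v, true ∈ v → f v = 0) : ins a f w = 0 :=
  ins_zero_of a f w hf (fun u v h => by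
    rw [h, List.mem_append] at hw
    rcases hw with hw | hw <;> simp [hw])

/-- the operators only see words of the right length -/
theorem ins_zero_len (a : Bool) (f : List Bool → ℚ) (w : List Bool)
    (hf : ∀ v, v.length = w.length + 1 → f v = 0) : ins a f w = 0 :=
  ins_zero_of a f w hf (fun u v h => by subst h; simp; omega)

theorem dd_zero_len (f : List Bool → ℚ) (w : List Bool)
    (hf : ∀ v, v.length = w.length + 1 → f v = 0) : dd f w = 0 :=
  dd_zero_of f w hf (fun u b v h => by subst h; simp; omega)

theorem db_zero_len (f : List Bool → ℚ) (w : List Bool)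
    (hf : ∀ v, v.length = w.length + 1 → f v = 0) : db f w = 0 :=
  db_zero_of f w hf (fun u b v h => by subst h; simp; omega)

theorem jj_zero_len (i : ℕ) (f : List Bool → ℚ) (w : List Bool)
    (hf : ∀ v, v.length = w.length + i + 1 → f v = 0) : jj i f w = 0 := by
  rw [jj, hf _ (by simp [xy]; omega), zero_add]
  exact ze_zero_of i f w hf (fun u c v h => by subst h; simp [xy]; omega)

end MP154526.Hof
end

section
/-!
# Module ANT: the antipode

A functional killing all products `u ⧢ v` (`u, v` nonempty) in weight `n` satisfies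
`f(w̃) = (-1)^{n+1} f(w)`.
-/
set_option autoImplicit false

namespace MP154526.Hof.ANTM

open MP154526.Top

/-- alternating sum over the letters moved from `v` to `u` -/
def Sm (f : List Bool → ℤ) : List Bool → List Bool → ℤ
  | u, [] => f u
  | u, b :: v => shs f u (b :: v) - Sm f (b :: u) v

theorem nil_left (f : List Bool → ℤ) (v : List Bool) : shs f [] v = f v := by
  simp

theorem nil_right (f : List Bool → ℤ) (v : List Bool) : shs f v [] = f v := by
  cases v <;> simp

theorem cons_cons (f : List Bool → ℤ) (a : Bool) (u : List Bool) (b : Bool) (v : List Bool) :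
    shs f (a :: u) (b :: v) =
      shs (fun l => f (a :: l)) u (b :: v) + shs (fun l => f (b :: l)) (a :: u) v := by
  rw [shs]

theorem Sm_cons (f : List Bool → ℤ) (a : Bool) (u v : List Bool) :
    Sm f (a :: u) v = shs (fun l => f (a :: l)) u v := by
  induction v generalizing a u with
  | nil => rw [nil_right]; rfl
  | cons b v ih =>
    rw [Sm, ih, cons_cons]
    ring

theorem Sm_eq (f : List Bool → ℤ) (n : ℕ)
    (hf : ∀ u v : List Bool, u ≠ [] → v ≠ [] → u.length + v.length = n → shs f u v = 0)
    (v : List Bool) : ∀ u : List Bool, u ≠ [] → u.length + v.length = n →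
      Sm f u v = (-1) ^ v.length * f (v.reverse ++ u) := by
  induction v with
  | nil => intro u _ _; simp [Sm]
  | cons b v ih =>
    intro u hu hn
    rw [Sm, hf u (b :: v) hu (by simp) hn, zero_sub, ih (b :: u) (by simp) (by
      simp only [List.length_cons] at hn ⊢
      omega)]
    simp [pow_succ]

end MP154526.Hof.ANTM

namespace MP154526.Hof

open MP154526.Hof.ANTM MP154526.Top

theorem specAnt : SpecAnt := by
  intro n f _ hf w hw
  cases w with
  | nil =>
    simp only [List.length_nil] at hw
    omega
  | cons b v =>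
    have h1 := Sm_cons f b [] v
    rw [Sm_eq f n hf v [b] (by simp) (by
      simp only [List.length_cons, List.length_nil] at hw ⊢
      omega), nil_left] at h1
    have hn : n = v.length + 1 := by
      simp only [List.length_cons] at hw
      omega
    rw [List.reverse_cons, ← h1, hn, ← mul_assoc, ← pow_add]
    have h2 : (-1 : ℤ) ^ (v.length + 1 + 1 + v.length) = 1 := by
      rw [show v.length + 1 + 1 + v.length = 2 * (v.length + 1) by ring, pow_mul]
      norm_num
    rw [h2, one_mul]

end MP154526.Hof
end

section
/-!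
# Module BR: from words in `x, z` to exponents
-/
set_option autoImplicit false

namespace MP154526.Hof.BRM

open MP154526.Hof

theorem zw_zero (b : ℕ) (K : List ℕ) :
    zw 0 b K = false :: (core K ++ List.replicate b true) := rfl

theorem zw_one (b : ℕ) (K : List ℕ) :
    zw 1 b K = true :: false :: (core K ++ List.replicate b true) := rfl

theorem core_notMem (K : List ℕ) (h : ∀ k ∈ K, k = 0) : true ∉ core K := by
  induction K with
  | nil => simp [core]
  | cons k K ih =>
    have hk : k = 0 := h k (by simp)
    subst hk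
    have := ih (fun k hk => h k (by simp [hk]))
    simp [core, this]

theorem Mp_zw (hA : SpecBrA) (F : List Bool → ℚ) (a b : ℕ) (K : List ℕ) :
    Mp F (zw a b K) = MM (fun a b K => F (zw a b K)) a b K := by
  cases a with
  | zero => rw [zw_zero]; simp only [Mp, MM]; rw [zw_zero]
  | succ a =>
    rw [← hA.cons]
    simp only [Mp, MM]
    rw [hA.cons, hA.snoc, hA.dpz]
    ring

theorem Vp_zw (hA : SpecBrA) (F : List Bool → ℚ) (a b : ℕ) (K : List ℕ) :
    Vp F (zw (a + 1) b K) = VV (fun a b K => F (zw a b K)) a b K := by
  rw [← hA.cons]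
  simp only [Vp, VV]
  rw [hA.snoc, hA.inz, hA.dpz]
  ring

end MP154526.Hof.BRM

namespace MP154526.Hof

open MP154526.Hof.BRM

theorem specBr (hA : SpecBrA) (hB : SpecBrB) : SpecBr := by
  intro σ F hσ h
  refine ⟨?_, ?_, ?_, ?_, ?_, ?_, ?_, ?_⟩
  · intro K hK
    by_contra hne
    have h1 := (h.supp _ hne).2
    rw [zw_zero] at h1
    have h2 := core_notMem K hK
    simp [h2] at h1
  · intro b K
    have h1 := h.k1 (core K ++ List.replicate b true)
    rw [← zw_zero, hA.dpz] at h1
    linarith
  · intro a b K
    have h1 := h.k3 (zw a b K)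
    rw [hA.rev, Mp_zw hA, Mp_zw hA] at h1
    rw [h1, ← mul_assoc, hσ, one_mul]
  · intro a K
    have h1 := h.k4 (zw 0 (a + 1) K.reverse)
    rw [hA.rev, List.reverse_reverse, Vp_zw hA, zw_zero] at h1
    simpa [Vp] using h1
  · intro a b K
    have h1 := h.k4 (zw (a + 1) (b + 1) K)
    rw [hA.rev, Vp_zw hA, Vp_zw hA] at h1
    rw [h1, ← mul_assoc, hσ, one_mul]
  · intro K
    have h1 := h.k2a (core K ++ List.replicate 0 true)
    rw [← zw_zero, hB.x0] at h1
    exact h1
  · intro K
    have h1 := h.k2a (core K ++ List.replicate 1 true)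
    rw [← zw_zero, hB.x1] at h1
    exact h1
  · intro K
    have h1 := h.k2b (core K ++ List.replicate 0 true)
    rw [← zw_one, hB.x2] at h1
    exact h1

end MP154526.Hof
end

section
/-!
# BRA: the operators in exponents
-/
set_option autoImplicit false

namespace MP154526.Hof.BRAM

open MP154526.Hof

theorem dp_rep (a : ℕ) (f : List Bool → ℚ) (v : List Bool) :
    dp f (List.replicate a true ++ v) = dp (fun u => f (List.replicate a true ++ u)) v := by
  induction a generalizing f with
  | zero => simp
  | succ a ih =>
    rw [List.replicate_succ, List.cons_append, dp, ih]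
    rfl

theorem dp_rep' (a : ℕ) (f : List Bool → ℚ) : dp f (List.replicate a true) = 0 := by
  have := dp_rep a f []
  rw [List.append_nil] at this
  rw [this]
  rfl

theorem dp_core (f : List Bool → ℚ) (b : ℕ) (K : List ℕ) :
    dp f (false :: (core K ++ List.replicate b true)) =
      D1 (fun L => f (false :: (core L ++ List.replicate b true))) K +
        f (false :: (core K ++ List.replicate (b + 1) true)) := by
  induction K generalizing f with
  | nil =>
    rw [core, List.nil_append, dp, dp_rep', D1, rs, add_zero, zero_add, List.nil_append,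
      List.replicate_succ]
  | cons k K ih =>
    have e : core (k :: K) ++ List.replicate b true =
        List.replicate k true ++ (false :: (core K ++ List.replicate b true)) := by
      simp [core]
    rw [e, dp, dp_rep, ih]
    have h1 : D1 (fun L => f (false :: (core L ++ List.replicate b true))) (k :: K) =
        f (false :: (core ((k + 1) :: K) ++ List.replicate b true)) +
          D1 (fun L => f (false :: (core (k :: L) ++ List.replicate b true))) K := by
      simp [D1, rs]
    rw [h1]
    have h2 : (false :: true :: (List.replicate k true ++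
        (false :: (core K ++ List.replicate b true)))) =
        false :: (core ((k + 1) :: K) ++ List.replicate b true) := by
      simp [core, List.replicate_succ]
    rw [h2]
    have h3 : (fun L => f (false :: (core (k :: L) ++ List.replicate b true))) =
        fun L => f (false :: (List.replicate k true ++
          (false :: (core L ++ List.replicate b true)))) := by
      funext L
      simp [core]
    rw [h3]
    have h4 : core (k :: K) ++ List.replicate (b + 1) true =
        List.replicate k true ++ (false :: (core K ++ List.replicate (b + 1) true)) := by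
      simp [core]
    rw [h4]
    ring

theorem ins_rep (a : ℕ) (f : List Bool → ℚ) (v : List Bool) :
    ins true f (List.replicate a true ++ v) = (a : ℚ) * f (List.replicate (a + 1) true ++ v) +
      ins true (fun u => f (List.replicate a true ++ u)) v := by
  induction a generalizing f with
  | zero => simp
  | succ a ih =>
    rw [List.replicate_succ, List.cons_append, ins, ih]
    simp only [List.replicate_succ, List.cons_append]
    push_cast
    ring

theorem ins_core (f : List Bool → ℚ) (b : ℕ) (K : List ℕ) :
    ins true f (core K ++ List.replicate b true) =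
      E1 (fun L => f (core L ++ List.replicate b true)) K +
        ((b : ℚ) + 1) * f (core K ++ List.replicate (b + 1) true) := by
  induction K generalizing f with
  | nil =>
    have := ins_rep b f []
    rw [List.append_nil] at this
    rw [core, List.nil_append, this, E1, rs, ins]
    simp only [List.append_nil, List.nil_append, List.replicate_succ']
    ring
  | cons k K ih =>
    have e : ∀ (c : ℕ) (L : List ℕ), core (k :: L) ++ List.replicate c true =
        List.replicate k true ++ (false :: (core L ++ List.replicate c true)) := by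
      intro c L
      simp [core]
    rw [e, ins_rep, ins, ih]
    have h1 : E1 (fun L => f (core L ++ List.replicate b true)) (k :: K) =
        ((k : ℚ) + 1) * f (core ((k + 1) :: K) ++ List.replicate b true) +
          E1 (fun L => f (core (k :: L) ++ List.replicate b true)) K := by
      simp [E1, rs]
    rw [h1]
    have h2 : List.replicate (k + 1) true ++ (false :: (core K ++ List.replicate b true)) =
        core ((k + 1) :: K) ++ List.replicate b true := by
      simp [core]
    have h2' : List.replicate k true ++ (true :: false :: (core K ++ List.replicate b true)) =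
        core ((k + 1) :: K) ++ List.replicate b true := by
      simp [core, List.replicate_succ']
    rw [h2, h2']
    simp only [e]
    ring

theorem core_append (K L : List ℕ) : core (K ++ L) = core K ++ core L := by
  induction K with
  | nil => rfl
  | cons k K ih => simp [core, ih]

theorem core_reverse (K : List ℕ) : (core K).reverse ++ [false] = false :: core K.reverse := by
  induction K with
  | nil => rfl
  | cons k K ih =>
    have h1 : (core (k :: K)).reverse ++ [false] =
        ((core K).reverse ++ [false]) ++ (List.replicate k true ++ [false]) := by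
      simp [core]
    rw [h1, ih, List.reverse_cons, core_append]
    simp [core]

theorem zw_rev (a b : ℕ) (K : List ℕ) : (zw a b K).reverse = zw b a K.reverse := by
  have h1 : (zw a b K).reverse =
      List.replicate b true ++ (((core K).reverse ++ [false]) ++ List.replicate a true) := by
    simp [zw]
  rw [h1, core_reverse]
  simp [zw]

theorem zw_snoc (a b : ℕ) (K : List ℕ) : zw a b K ++ [true] = zw a (b + 1) K := by
  simp [zw, List.replicate_succ']

theorem zw_cons (a b : ℕ) (K : List ℕ) : true :: zw a b K = zw (a + 1) b K := by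
  simp [zw, List.replicate_succ]

theorem zw_ex (w : List Bool) (hw : false ∈ w) : ∃ a b K, w = zw a b K := by
  induction w with
  | nil => simp at hw
  | cons c w ih =>
    cases c with
    | false =>
      by_cases h : false ∈ w
      · obtain ⟨a, b, K, rfl⟩ := ih h
        exact ⟨0, b, a :: K, by simp [zw, core]⟩
      · refine ⟨0, w.length, [], ?_⟩
        have : w = List.replicate w.length true := by
          rw [List.eq_replicate_iff]
          refine ⟨rfl, fun b hb => ?_⟩
          cases b with
          | false => exact absurd hb h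
          | true => rfl
        simp only [zw, core, List.replicate_zero, List.nil_append]
        rw [← this]
    | true =>
      have h : false ∈ w := by simpa using hw
      obtain ⟨a, b, K, rfl⟩ := ih h
      exact ⟨a + 1, b, K, zw_cons a b K⟩

end MP154526.Hof.BRAM

namespace MP154526.Hof

open BRAM in
theorem specBrA : SpecBrA where
  dpz := by
    intro f a b K
    rw [zw, dp_rep, dp_core]
    rfl
  inz := by
    intro f a b K
    rw [zw, ins_rep, ins, ins_core]
    have h : List.replicate a true ++ (true :: false :: (core K ++ List.replicate b true)) =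
        List.replicate (a + 1) true ++ (false :: (core K ++ List.replicate b true)) := by
      simp [List.replicate_succ']
    rw [h]
    simp only [zw]
    ring
  rev := zw_rev
  snoc := zw_snoc
  cons := zw_cons
  ex := zw_ex

end MP154526.Hof
end

section
/-!
# BRB: `x ⧢` in exponents
-/
set_option autoImplicit false

namespace MP154526.Hof.BRBM

open Finset MP154526.Bound MP154526.Top

theorem ins_rep (k : ℕ) : ∀ (f : List Bool → ℚ) (w : List Bool),
    ins false f (List.replicate k true ++ w) =
      ∑ i ∈ range k, f (List.replicate i true ++ false :: (List.replicate (k - i) true ++ w)) +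
        ins false (fun v => f (List.replicate k true ++ v)) w := by
  induction k with
  | zero => intro f w; simp
  | succ k ih =>
    intro f w
    have h := ih (fun v => f (true :: v)) w
    rw [List.replicate_succ, List.cons_append, ins, h, Finset.sum_range_succ']
    have h2 : ∀ i ∈ range k,
        f (List.replicate (i + 1) true ++
          false :: (List.replicate (k + 1 - (i + 1)) true ++ w)) =
        f (true :: (List.replicate i true ++ false :: (List.replicate (k - i) true ++ w))) := by
      intro i _
      rw [List.replicate_succ, Nat.add_sub_add_right, List.cons_append]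
    rw [Finset.sum_congr rfl h2]
    have h3 : f (List.replicate 0 true ++
        false :: (List.replicate (k + 1 - 0) true ++ w)) =
        f (false :: true :: (List.replicate k true ++ w)) := by
      simp [List.replicate_succ]
    rw [h3]
    simp only [List.cons_append]
    ring

theorem core_append (K : List ℕ) (k : ℕ) :
    core (K ++ [k]) = core K ++ (List.replicate k true ++ [false]) := by
  induction K with
  | nil => simp [core]
  | cons a K ih => simp only [List.cons_append, core, ih, List.append_assoc]

theorem ins_core (K : List ℕ) : ∀ (f : List Bool → ℚ) (T : List Bool),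
    ins false f (core K ++ T) =
      sp (fun L => f (core L ++ T)) K + ins false (fun v => f (core K ++ v)) T := by
  induction K with
  | nil => intro f T; simp [core, sp]
  | cons k K ih =>
    intro f T
    rw [core, List.append_assoc, ins_rep, List.cons_append, ins,
      ih (fun v => f (List.replicate k true ++ false :: v)) T, sp, Finset.sum_range_succ]
    simp only [core, List.append_assoc, List.cons_append, Nat.sub_self, List.replicate_zero,
      List.nil_append]
    ring

end MP154526.Hof.BRBM

namespace MP154526.Hof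

open Finset MP154526.Bound MP154526.Top BRBM

theorem specBrB : SpecBrB where
  x0 f K := by
    have h := ins_core K (fun v => f (false :: v)) []
    simp only [ins, List.append_nil] at h
    simp only [zw, List.replicate_zero, List.nil_append, List.append_nil, ins, xs]
    rw [h]
    simp only [core_append, core, List.replicate_zero, List.nil_append]
    ring
  x1 f K := by
    have h := ins_core K (fun v => f (false :: v)) [true]
    simp only [ins] at h
    simp only [zw, List.replicate_zero, List.nil_append, List.append_nil, ins, xs,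
      List.replicate_one]
    rw [h]
    simp only [core_append, core, List.replicate_zero, List.nil_append, List.replicate_one,
      List.append_assoc, List.cons_append]
    ring
  x2 f K := by
    have h := ins_core K (fun v => f (true :: false :: v)) []
    simp only [ins, List.append_nil] at h
    simp only [zw, List.replicate_zero, List.nil_append, List.append_nil, ins, xs,
      List.replicate_one, List.cons_append]
    rw [h]
    simp only [core_append, core, List.replicate_zero, List.nil_append, List.replicate_one,
      List.cons_append]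
    ring

end MP154526.Hof
end

section
/-!
# CEX: the extension to all words kills products
-/
set_option autoImplicit false

namespace MP154526.Hof.CEXM

open MP154526.Bound MP154526.Top MP154526.Top.Pass1 MP154526.Hof

/-- the extension kills shuffles of words of `ℌ¹` (only `prod` is used) -/
theorem ext_sh (n : ℕ) (φ : List Bool → ℤ) (hK : KD n φ) (u v : List Bool) (hu : u ≠ [])
    (hv : v ≠ []) (hEu : EndY u) (hEv : EndY v) (hn : u.length + v.length = n) :
    shs (ext φ) u v = 0 := by
  refine reduce φ v u.length ?_ u hu rfl hEu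
  intro u' hu' hE'
  rw [shs_comm]
  refine reduce φ (false :: u') v.length ?_ v hv rfl hEv
  intro v' hv' hE''
  rw [shs_comm]
  have h1 := hK.prod (u'.length + 1) (v'.length + 1) (by omega) (by omega) (by omega)
    (wd (false :: u')) (wd_mem u' hE') (wd (false :: v')) (wd_mem v' hE'')
  rw [shuffle_wd, lin_sh] at h1
  have h2 : shs φ (false :: u') (false :: v') = 0 := by exact_mod_cast h1
  rw [shs_cons_cons] at h2 ⊢
  have h3 : (fun l => ext φ (false :: l)) = fun l => φ (false :: l) := by
    funext l
    exact ext_false φ l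
  rw [h3]
  exact h2

/-- reduction to words starting with `x`, all words -/
theorem reduce' (φ : List Bool → ℤ) (v : List Bool) (L : ℕ)
    (h : ∀ u : List Bool, u.length + 1 = L → shs (ext φ) (false :: u) v = 0)
    (u : List Bool) (hu : u ≠ []) (hL : u.length = L) : shs (ext φ) u v = 0 := by
  rcases word_cases u with ⟨m, rfl⟩ | ⟨m, w', rfl⟩
  · cases m with
    | zero => exact absurd rfl hu
    | succ m =>
      have h1 : shs (fun s => shs (ext φ) s v) [true] (List.replicate m true) = 0 := by
        rw [shs_assoc]
        simp only [ext_true_sh]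
        exact shs_zero _ _
      rw [shs_true_rep] at h1
      exact nsmul_int_eq_zero h1
  · induction m generalizing w' with
    | zero =>
      rw [List.replicate_zero, List.nil_append] at hL ⊢
      exact h w' (by simpa using hL)
    | succ m ih =>
      have h1 : shs (fun s => shs (ext φ) s v) [true] (List.replicate m true ++ false :: w') =
          0 := by
        rw [shs_assoc]
        simp only [ext_true_sh]
        exact shs_zero _ _
      rw [shs_true_rep_false] at h1
      have h2 : shs (fun l => shs (ext φ) (List.replicate m true ++ false :: l) v) [true] w' =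
          0 := by
        rw [← shs_zero (M := ℤ) [true] w']
        refine shs_congr_len _ _ ?_
        intro l hl
        refine ih l (by simp) ?_
        simp only [List.length_append, List.length_replicate, List.length_cons,
          List.length_nil] at hL hl ⊢
        omega
      rw [h2, add_zero] at h1
      exact nsmul_int_eq_zero h1

theorem th_th (w : List Bool) : th (th w) = w := by
  unfold th
  rw [← List.map_reverse, List.reverse_reverse, List.map_map]
  have : ((fun b => !b) ∘ fun b => !b) = (id : Bool → Bool) := by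
    funext b
    simp
  rw [this, List.map_id]

theorem th_length (w : List Bool) : (th w).length = w.length := by
  simp [th]

theorem th_ne {w : List Bool} (h : w ≠ []) : th w ≠ [] := by
  simpa [th] using h

theorem shs_th (F : List Bool → ℤ) (u v : List Bool) :
    shs (fun w => F (th w)) u v = shs F (th u) (th v) := by
  unfold th
  rw [shs_letters, ← Red.shs_reverse]

theorem endY_th (u : List Bool) : EndY (th (false :: u)) := by
  right
  refine ⟨th u, ?_⟩
  simp [th]

/-- `Φ` kills the shuffles of words starting with `x` -/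
theorem phi_sh (n : ℕ) (φ : List Bool → ℤ) (hK : KD n φ) (u v : List Bool)
    (hn : u.length + 1 + (v.length + 1) = n) :
    shs (fun w => ext φ (th w)) (false :: u) (false :: v) = 0 := by
  rw [shs_th]
  refine ext_sh n φ hK _ _ (th_ne (by simp)) (th_ne (by simp)) (endY_th u) (endY_th v) ?_
  rw [th_length, th_length]
  simpa using hn

/-- `ext Φ` kills all shuffles -/
theorem ext_phi_sh (n : ℕ) (φ : List Bool → ℤ) (hK : KD n φ) (u v : List Bool) (hu : u ≠ [])
    (hv : v ≠ []) (hn : u.length + v.length = n) :
    shs (ext (fun w => ext φ (th w))) u v = 0 := by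
  refine reduce' _ v u.length ?_ u hu rfl
  intro u' hu'
  rw [shs_comm]
  refine reduce' _ (false :: u') v.length ?_ v hv rfl
  intro v' hv'
  rw [shs_comm]
  have h2 := phi_sh n φ hK u' v' (by omega)
  rw [shs_cons_cons] at h2 ⊢
  have h3 : (fun l => ext (fun w => ext φ (th w)) (false :: l)) =
      fun l => ext φ (th (false :: l)) := by
    funext l
    exact ext_false _ l
  rw [h3]
  exact h2

end MP154526.Hof.CEXM

namespace MP154526.Hof

open MP154526.Bound MP154526.Top CEXM

/-- CEX. -/
theorem specCex : SpecCex := by
  intro n φ _ hK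
  refine ⟨?_, ?_⟩
  · intro u v hu hv hn
    have h1 : shs (cex φ) u v = shs (ext (fun w => ext φ (th w))) (th u) (th v) :=
      shs_th (ext (fun w => ext φ (th w))) u v
    rw [h1]
    refine ext_phi_sh n φ hK _ _ (th_ne hu) (th_ne hv) ?_
    rw [th_length, th_length]
    exact hn
  · rintro w (rfl | ⟨u, rfl⟩)
    · simp [cex, th, ext, extAux]
    · have h1 : th (u ++ [true]) = false :: th u := by simp [th]
      unfold cex
      rw [h1, Pass1.ext_false, ← h1, th_th]

end MP154526.Hof
end

section
/-!
# DSH: the relations lie in `ℌ⁰`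
-/
set_option autoImplicit false

namespace MP154526.Hof.DSHM

open Finset MP154526.Bound MP154526.Top MP154526.Top.Alg

theorem word_endY : ∀ l : List ℕ, EndY (word l) := by
  intro l
  induction l with
  | nil => exact Or.inl rfl
  | cons k l ih =>
    right
    rcases ih with h | ⟨u, h⟩
    · exact ⟨List.replicate (k - 1) false, by simp [word, h]⟩
    · exact ⟨List.replicate (k - 1) false ++ true :: u, by simp [word, h]⟩

theorem word_len : ∀ l : List ℕ, Idx1 l → (word l).length = l.sum := by
  intro l
  induction l with
  | nil => intro _; rfl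
  | cons k l ih =>
    intro h
    have h1 : 1 ≤ k := h k (by simp)
    have h2 := ih fun j hj => h j (by simp [hj])
    simp only [word, List.length_append, List.length_replicate, List.length_cons, List.sum_cons, h2]
    omega

theorem word_adm (l : List ℕ) (h : Idx0 l) : Adm (word l) := by
  cases l with
  | nil => exact Or.inl rfl
  | cons k l =>
    have hk : 2 ≤ k := h.2 k (by simp)
    obtain ⟨m, rfl⟩ : ∃ m, k = m + 2 := ⟨k - 2, by omega⟩
    right
    rcases word_endY ((m + 1) :: l) with h1 | ⟨u, h1⟩
    · simp [word] at h1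
    · refine ⟨u, ?_⟩
      have : word ((m + 2) :: l) = false :: word ((m + 1) :: l) := by
        simp [word, List.replicate_succ]
      rw [this, h1, List.cons_append]

theorem wd_word_mem (l : List ℕ) (h : Idx0 l) : wd (word l) ∈ H0 l.sum :=
  Submodule.subset_span ⟨word l, word_adm l h, word_len l h.1, rfl⟩

theorem map_mem (n : ℕ) (p : List ℕ →₀ ℚ) (h : ∀ l ∈ p.support, Idx0 l ∧ l.sum = n) :
    p.mapDomain word ∈ H0 n := by
  rw [Finsupp.mapDomain, Finsupp.sum]
  refine Submodule.sum_mem _ fun l hl => ?_
  obtain ⟨h1, h2⟩ := h l hl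
  have h3 := Submodule.smul_mem _ (p l) (wd_word_mem l h1)
  rw [h2, wd, Finsupp.smul_single, smul_eq_mul, mul_one] at h3
  exact h3

theorem st_one_cons (k l : ℕ) (v : List ℕ) : st [k] (l :: v) =
    Finsupp.single (k :: l :: v) 1 + (st [k] v).mapDomain (List.cons l) +
      Finsupp.single ((k + l) :: v) 1 := by
  rw [st]
  have h1 : ∀ v : List ℕ, st [] v = Finsupp.single v 1 := by
    intro v; unfold st; rfl
  rw [h1, h1, Finsupp.mapDomain_single, Finsupp.mapDomain_single]

theorem st_supp (k : ℕ) (hk : 1 ≤ k) : ∀ w : List ℕ, Idx1 w →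
    ∀ l ∈ (st [k] w).support, Idx1 l ∧ l.sum = k + w.sum := by
  classical
  intro w
  induction w with
  | nil =>
    intro _ l hl
    have h1 : st [k] [] = Finsupp.single [k] 1 := by unfold st; rfl
    rw [h1] at hl
    have h2 := Finset.mem_singleton.1 (Finsupp.support_single_subset hl)
    subst h2
    refine ⟨?_, by simp⟩
    intro j hj
    rw [List.mem_singleton] at hj
    omega
  | cons a v ih =>
    intro hw l hl
    have ha : 1 ≤ a := hw a (by simp)
    have hv : Idx1 v := fun j hj => hw j (by simp [hj])
    rw [st_one_cons] at hl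
    rcases Finset.mem_union.1 (Finsupp.support_add hl) with hl | hl
    · rcases Finset.mem_union.1 (Finsupp.support_add hl) with hl | hl
      · have h2 := Finset.mem_singleton.1 (Finsupp.support_single_subset hl)
        subst h2
        refine ⟨?_, by simp⟩
        intro j hj
        rcases List.mem_cons.1 hj with h | h
        · omega
        · exact hw j h
      · obtain ⟨l', hl', rfl⟩ := Finset.mem_image.1 (Finsupp.mapDomain_support hl)
        obtain ⟨h1, h2⟩ := ih hv l' hl'
        refine ⟨?_, by simp only [List.sum_cons, h2]; omega⟩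
        intro j hj
        rcases List.mem_cons.1 hj with h | h
        · omega
        · exact h1 j h
    · have h2 := Finset.mem_singleton.1 (Finsupp.support_single_subset hl)
      subst h2
      refine ⟨?_, by simp only [List.sum_cons]; omega⟩
      intro j hj
      rcases List.mem_cons.1 hj with h | h
      · omega
      · exact hv j h

/-- the words of the stuffle which start with the first letter of `a v` or with the sum -/
theorem rest_mem (k a : ℕ) (v : List ℕ) (hk : 1 ≤ k) (h : Idx0 (a :: v)) :
    ((st [k] v).mapDomain (List.cons a) + Finsupp.single ((k + a) :: v) 1).mapDomain word ∈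
      H0 (k + (a :: v).sum) := by
  classical
  have ha : 2 ≤ a := h.2 a (by simp)
  have hv : Idx1 v := fun j hj => h.1 j (by simp [hj])
  refine map_mem _ _ fun l hl => ?_
  rcases Finset.mem_union.1 (Finsupp.support_add hl) with hl | hl
  · obtain ⟨l', hl', rfl⟩ := Finset.mem_image.1 (Finsupp.mapDomain_support hl)
    obtain ⟨h1, h2⟩ := st_supp k hk v hv l' hl'
    refine ⟨⟨?_, ?_⟩, by simp only [List.sum_cons, h2]; omega⟩
    · intro j hj
      rcases List.mem_cons.1 hj with h | h
      · omega
      · exact h1 j h
    · intro j hj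
      simp only [List.head?_cons, Option.mem_def, Option.some.injEq] at hj
      omega
  · have h2 := Finset.mem_singleton.1 (Finsupp.support_single_subset hl)
    subst h2
    refine ⟨⟨?_, ?_⟩, by simp only [List.sum_cons]; omega⟩
    · intro j hj
      rcases List.mem_cons.1 hj with h | h
      · omega
      · exact hv j h
    · intro j hj
      simp only [List.head?_cons, Option.mem_def, Option.some.injEq] at hj
      omega

end MP154526.Hof.DSHM

namespace MP154526.Hof

open Finset MP154526.Bound MP154526.Top MP154526.Top.Alg MP154526.Hof.DSHM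

/-- DSH -/
theorem specDsh : SpecDsh := by
  rintro p _ ⟨k, w₀, hk, h0, hp, rfl⟩
  rw [shuffle_wd]
  cases w₀ with
  | nil =>
    have h1 : stuffle [k] [] = wd (word [k]) := by
      have : st [k] [] = Finsupp.single [k] 1 := by unfold st; rfl
      rw [stuffle, this, Finsupp.mapDomain_single, wd]
    have h2 : word [] = [] := rfl
    rw [h1, h2, sh_nil_right, sub_self]
    exact Submodule.zero_mem _
  | cons a v =>
    have hr := rest_mem k a v hk h0
    rw [hp] at hr
    have hst : stuffle [k] (a :: v) = wd (word (k :: a :: v)) +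
        ((st [k] v).mapDomain (List.cons a) + Finsupp.single ((k + a) :: v) 1).mapDomain word := by
      rw [stuffle, st_one_cons, add_assoc, Finsupp.mapDomain_add, Finsupp.mapDomain_single, wd]
    rw [hst, ← sub_sub]
    refine Submodule.sub_mem _ ?_ hr
    rcases Nat.lt_or_ge 1 k with h2 | h2
    · -- `k ≥ 2`
      refine Submodule.sub_mem _ ?_ ?_
      · rw [← shuffle_wd, ← hp]
        refine shuffle_mem_H0 _ _ _ ?_ _ (wd_word_mem _ h0)
        have := wd_word_mem [k] ⟨by intro j hj; rw [List.mem_singleton] at hj; omega, by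
          intro j hj
          simp only [List.head?_cons, Option.mem_def, Option.some.injEq] at hj
          omega⟩
        simpa using this
      · have h3 : (k :: a :: v).sum = p := by simp only [List.sum_cons] at hp ⊢; omega
        rw [← h3]
        refine wd_word_mem _ ⟨?_, ?_⟩
        · intro j hj
          rcases List.mem_cons.1 hj with h | h
          · omega
          · exact h0.1 j h
        · intro j hj
          simp only [List.head?_cons, Option.mem_def, Option.some.injEq] at hj
          omega
    · -- `k = 1`
      obtain rfl : k = 1 := by omega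
      rcases word_adm _ h0 with h3 | ⟨u, h3⟩
      · exact absurd h3 (by simp [word])
      · have h4 : word [1] = [true] := rfl
        have h5 : word (1 :: a :: v) = true :: word (a :: v) := rfl
        have h6 : (word (a :: v)).length = (a :: v).sum := word_len _ h0.1
        rw [h4, h5, h3, List.cons_append, sh_cons, sh_nil_left, L_wd, add_sub_cancel_left]
        have h7 := sh_mem_E [true] (u ++ [true]) (Or.inr ⟨[], rfl⟩) (Or.inr ⟨u, rfl⟩)
        have h8 : ([true] : List Bool).length + (u ++ [true]).length = p - 1 := by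
          rw [h3] at h6
          simp only [List.cons_append, List.length_cons, List.length_append, List.length_nil]
            at h6 ⊢
          omega
        rw [h8] at h7
        have h9 : 1 ≤ p - 1 := by
          rw [← h8]
          simp only [List.length_cons, List.length_append, List.length_nil]
          omega
        have h10 := L_mem_H0 h9 h7
        rw [show p - 1 + 1 = p by omega] at h10
        exact h10

end MP154526.Hof
end

section
/-!
# END: the ideal generated by the relations is the span of all regularised double shuffle elements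
-/
set_option autoImplicit false

namespace MP154526.Hof

open Finset MP154526.Bound MP154526.Top

namespace ENDM

theorem rds_of_ds1 (hD : SpecDsh) (p : ℕ) (r : H) (hr : r ∈ DS1 p) : r ∈ RDS p := by
  have h0 := hD p r hr
  obtain ⟨k, w₀, hk, hw, hs, rfl⟩ := hr
  refine ⟨h0, [k], w₀, ?_, hw, by simpa using hs, ?_⟩
  · intro j hj
    rw [List.mem_singleton] at hj
    omega
  · refine ⟨0, fun _ => shuffle (wd (word [k])) (wd (word w₀)) - stuffle [k] w₀, fun _ => ?_, ?_, rfl⟩
    · refine Submodule.span_mono ?_ h0
      rintro h ⟨w, hw, _, rfl⟩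
      exact ⟨w, hw, rfl⟩
    · rw [zero_add, Finset.sum_range_one]
      have hA := specAlg
      have e : ∀ a : H, a = shuffle a (wd []) := fun a => by rw [hA.comm, hA.one]
      exact e _

theorem I_le (hD : SpecDsh) (p : ℕ) : I p ≤ Submodule.span ℚ (RDS p) := by
  rw [← Low.ideal_eq_span, I, J]
  refine Submodule.span_mono ?_
  rintro z ⟨q, r, h, hq, hr, hh, rfl⟩
  exact ⟨q, r, h, hq, rds_of_ds1 hD q r hr, hh, rfl⟩

end ENDM

open ENDM in
/-- END -/
theorem specEnd (hD : SpecDsh) (hF : SpecFni) : SpecEnd := by
  intro p
  have hfin := Low.Ex.finite_H0 p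
  have hle := I_le hD p
  have hR : Submodule.span ℚ (RDS p) ≤ H0 p := Submodule.span_le.2 fun r hr => hr.1
  refine le_antisymm hle ?_
  have h1 := hF p
  have h2 : Module.finrank ℚ (H0 p ⧸ (Submodule.span ℚ (RDS p)).comap (H0 p).subtype) = D p := by
    have := (Low.asmStatement p).codim
    rw [← Module.finrank_eq_rank] at this
    exact_mod_cast this
  have e1 := Submodule.finrank_quotient_add_finrank ((I p).comap (H0 p).subtype)
  have e2 := Submodule.finrank_quotient_add_finrank
    ((Submodule.span ℚ (RDS p)).comap (H0 p).subtype)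
  have h3 : (I p).comap (H0 p).subtype = (Submodule.span ℚ (RDS p)).comap (H0 p).subtype := by
    refine Submodule.eq_of_le_of_finrank_le (Submodule.comap_mono hle) ?_
    omega
  intro x hx
  have : (⟨x, hR hx⟩ : H0 p) ∈ (Submodule.span ℚ (RDS p)).comap (H0 p).subtype := hx
  rw [← h3] at this
  exact this

end MP154526.Hof
end

section
/-!
# Module FNI: the dimension bound for the ideal `I`
-/
set_option autoImplicit false

namespace MP154526.Hof

open MP154526.Bound MP154526.Top

namespace FNIM

open MP154526.Top.FinN

theorem I_mul {i j : ℕ} {b : H} (hb : b ∈ H0 j) :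
    ∀ a ∈ I i, shuffle a b ∈ I (i + j) := by
  refine span_left specAlg ?_
  rintro a ⟨q, r, h, hq, hr, hh, rfl⟩
  apply Submodule.subset_span
  refine ⟨q, r, shuffle h b, by omega, hr, ?_, ?_⟩
  · have h1 := specAlg.h0 _ _ _ hh _ hb
    have h2 : i - q + j = i + j - q := by omega
    rwa [h2] at h1
  · rw [specAlg.assoc]

theorem DS1_le (n : ℕ) : Submodule.span ℚ (DS1 n) ≤ I n := by
  refine Submodule.span_le.mpr ?_
  intro r hr
  apply Submodule.subset_span
  refine ⟨n, r, wd [], le_refl _, hr, ?_, ?_⟩
  · rw [Nat.sub_self]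
    exact wd_nil_mem
  · rw [one_right specAlg]

theorem main (hS : SpecSpn) : ∀ n, H0 n ≤ I n ⊔ M n := by
  intro n
  induction n using Nat.strong_induction_on with
  | _ n ih =>
    rcases Nat.eq_zero_or_pos n with rfl | hn
    · refine (H0_zero.trans ?_).trans le_sup_right
      rw [Submodule.span_le]
      intro z hz
      rw [Set.mem_singleton_iff] at hz
      rw [hz]
      exact mem_M specAlg (L := []) (by simp) rfl
    · refine (hS n hn).trans ?_
      refine sup_le (sup_le ?_ ((DS1_le n).trans le_sup_left)) ?_
      · rw [Submodule.span_le]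
        rintro z ⟨i, j, a, b, hi, hj, hij, ha, hb, rfl⟩
        obtain ⟨a1, ha1, a2, ha2, haa⟩ := Submodule.mem_sup.mp (ih i (by omega) ha)
        obtain ⟨b1, hb1, b2, hb2, hbb⟩ := Submodule.mem_sup.mp (ih j (by omega) hb)
        have k1 : shuffle a1 b ∈ I n := by
          rw [← hij]
          exact I_mul hb a1 ha1
        have k2 : shuffle a2 b1 ∈ I n := by
          rw [specAlg.comm, ← hij, Nat.add_comm]
          exact I_mul (M_le specAlg i ha2) b1 hb1
        have k3 : shuffle a2 b2 ∈ M n := by
          rw [← hij]
          exact M_mul specAlg a2 ha2 b2 hb2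
        have k4 : shuffle a b = (shuffle a1 b + shuffle a2 b1) + shuffle a2 b2 := by
          rw [← haa, specAlg.add, ← hbb, add_right specAlg a2, add_assoc]
        rw [SetLike.mem_coe, k4]
        exact Submodule.add_mem_sup (Submodule.add_mem _ k1 k2) k3
      · rw [Submodule.span_le]
        rintro z ⟨w, hw, hn, rfl⟩
        refine Submodule.mem_sup_right ?_
        have h1 := mem_M specAlg (L := [w]) (n := n) (by simpa using hw)
          (by simpa [FinN.wt] using hn)
        rwa [prodL, prodL, one_right specAlg] at h1

end FNIM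

open FNIM MP154526.Top.FinN

/-- FNI -/
theorem specFni (hS : SpecSpn) : SpecFni := by
  intro p
  obtain ⟨W, hW, hWc⟩ := exists_words p
  rw [← hWc]
  let f : W → (H0 p ⧸ (I p).comap (H0 p).subtype) :=
    fun w => Submodule.Quotient.mk ⟨gen p w, gen_mem specAlg p w⟩
  have hM : M p ≤ Submodule.span ℚ {z | ∃ w ∈ W, z = gen p w} := by
    rw [M, Submodule.span_le]
    rintro z ⟨L, hL, rfl⟩
    apply Submodule.subset_span
    refine ⟨L.flatten, (hW _).mpr ?_, (gen_flatten specFact hL).symm⟩
    rw [wt_flatten, hL.2.2]
  have key : ∀ m ∈ Submodule.span ℚ {z | ∃ w ∈ W, z = gen p w}, ∃ hm : m ∈ H0 p,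
      (Submodule.Quotient.mk ⟨m, hm⟩ : H0 p ⧸ (I p).comap (H0 p).subtype) ∈
        Submodule.span ℚ (Set.range f) := by
    intro m hm
    induction hm using Submodule.span_induction with
    | mem z hz =>
      obtain ⟨w, hw, rfl⟩ := hz
      exact ⟨gen_mem specAlg p w, Submodule.subset_span ⟨⟨w, hw⟩, rfl⟩⟩
    | zero => exact ⟨Submodule.zero_mem _, by
        have : (⟨0, Submodule.zero_mem _⟩ : H0 p) = 0 := rfl
        rw [this, Submodule.Quotient.mk_zero]
        exact Submodule.zero_mem _⟩
    | add x y _ _ hx hy =>
      obtain ⟨hx1, hx2⟩ := hx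
      obtain ⟨hy1, hy2⟩ := hy
      exact ⟨Submodule.add_mem _ hx1 hy1, Submodule.add_mem _ hx2 hy2⟩
    | smul r x _ hx =>
      obtain ⟨hx1, hx2⟩ := hx
      exact ⟨Submodule.smul_mem _ r hx1, Submodule.smul_mem _ r hx2⟩
  have htop : Submodule.span ℚ (Set.range f) = ⊤ := by
    rw [eq_top_iff]
    rintro x -
    obtain ⟨y, rfl⟩ := Submodule.Quotient.mk_surjective _ x
    obtain ⟨j, hj, m, hm, hjm⟩ := Submodule.mem_sup.mp (main hS p y.2)
    obtain ⟨hm1, hm2⟩ := key m (hM hm)
    have : (Submodule.Quotient.mk y : H0 p ⧸ (I p).comap (H0 p).subtype) =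
        Submodule.Quotient.mk ⟨m, hm1⟩ := by
      rw [Submodule.Quotient.eq, Submodule.mem_comap]
      have h1 : ((H0 p).subtype (y - ⟨m, hm1⟩) : H) = j := by
        rw [map_sub]
        change (y : H) - m = j
        rw [← hjm]
        abel
      rw [h1]
      exact hj
    rw [this]
    exact hm2
  have h1 := finrank_range_le_card (R := ℚ) f
  rw [Set.finrank, htop, finrank_top, Fintype.card_coe] at h1
  exact h1

end MP154526.Hof
end

section
/-!
# Hoffman's conjecture, module H1: the relation (h1)
-/
set_option autoImplicit false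

namespace MP154526.Hof

open Finset MP154526.Bound MP154526.Top

theorem specH1 (hA : SpecOpA) : SpecH1 := by
  intro n σ c h b
  -- `c` kills `z ⧢`
  have hz : zin c = fun _ => 0 := by
    funext w
    rw [zin, h.hx, h.hy, add_zero]
  have hg0 : ∀ v, true ∈ v → dd c (false :: v) = 0 := h.dx
  have h0 : ∀ v, zin (dd c) v = -d2 c v := by
    intro v
    rw [hA.oz, hz, dd_zero_true _ _ (fun _ _ => rfl), zero_sub]
  have h1 : dd (zin (dd c)) (false :: b) = 0 := by
    have e1 : zin (dd c) = fun v => -d2 c v := funext h0
    rw [e1, dd_neg, ← hA.o2, d2, hg0 _ (by simp), hg0 _ (by simp),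
      d2_zero_true _ _ hg0]
    simp
  have h2 : dd (fun v => zin (dd c) v - GG c v) (false :: b) = 0 := by
    refine dd_zero_of (P := fun v => ∃ v', v = false :: v' ∧ true ∈ v') _ _ ?_ ?_
    · rintro v ⟨v', rfl, hv⟩
      rw [zin, ins, ins, GG, hg0 (false :: v') (by simp [hv]),
        ins_zero_true false _ v' hv hg0, ins_zero_true true _ v' hv hg0]
      simp
    · intro u b' v he
      cases u with
      | nil => exact ⟨true :: v, rfl, by simp⟩
      | cons a u' =>
        rw [List.cons_append, List.cons.injEq] at he
        rw [← he.1]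
        exact ⟨u' ++ false :: true :: v, rfl, by simp⟩
  rw [dd_sub, h1, zero_sub, neg_eq_zero] at h2
  exact h2

end MP154526.Hof
end

section
/-!
# (h2): `G(x ⧢ b) = 0` for `b` starting with `x` or with `y x`
-/
set_option autoImplicit false

namespace MP154526.Hof

open Finset MP154526.Bound MP154526.Top

namespace H2M

theorem dd_zero_fun (f : List Bool → ℚ) (w : List Bool) (hf : ∀ v, f v = 0) : dd f w = 0 :=
  dd_zero_of (P := fun _ => True) f w (fun v _ => hf v) (fun _ _ _ _ => trivial)

theorem ins_zero_fun (a : Bool) (f : List Bool → ℚ) (w : List Bool) (hf : ∀ v, f v = 0) :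
    ins a f w = 0 :=
  ins_zero_of (P := fun _ => True) a f w (fun v _ => hf v) (fun _ _ _ => trivial)

theorem ze_zero_fun (i : ℕ) (f : List Bool → ℚ) (w : List Bool) (hf : ∀ v, f v = 0) :
    ze i f w = 0 :=
  ze_zero_of (P := fun _ => True) i f w (fun v _ => hf v) (fun _ _ _ _ => trivial)

theorem jj_neg (i : ℕ) (f : List Bool → ℚ) (w : List Bool) :
    jj i (fun v => -f v) w = -jj i f w := by
  have := jj_mul i (-1) f w
  simpa using this

end H2M

open H2M

theorem specH2 (_hA : SpecOpA) (hB : SpecOpB) (h1 : SpecH1) : SpecH2 := by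
  intro n σ c hc
  -- `K = c ∘ J_2`, `g = c ∘ ∂`
  have hG1 : ∀ b, dd (GG c) (false :: b) = 0 := h1 n σ c hc
  have hgx : ∀ v, true ∈ v → dd c (false :: v) = 0 := hc.dx
  have hK : ∀ w, jj 1 c w = ins false (dd c) w := by
    intro w
    have h := hB.ox c w
    rw [dd_zero_fun (ins false c) w hc.hx, zero_add] at h
    exact h.symm
  have hK0 : ∀ v, true ∈ v → jj 1 c (false :: v) = 0 := by
    intro v hv
    rw [hK, ins, hgx (false :: v) (by simp [hv]), zero_add]
    exact ins_zero_true false _ v hv (fun u hu => hgx u hu)
  have hJ : jj 0 c = fun v => -dd c v := by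
    funext v
    have h := hB.oy c v
    rw [hc.hy v] at h
    linarith
  have hKJ : ∀ b, jj 0 (jj 1 c) b = -jj 1 (dd c) b := by
    intro b
    rw [← hB.oj, hJ]
    exact H2M.jj_neg 1 (dd c) b
  have hKy : ∀ b, jj 1 c (true :: b) = dd c (false :: true :: b) + ins false (GG c) b := by
    intro b
    rw [hK, ins]
    rfl
  -- part (a)
  have ha : ∀ b, jj 1 c (true :: false :: b) = 0 ∧ ins false (GG c) (false :: b) = 0 := by
    intro b
    have e1 : jj 1 (dd c) (false :: b) = 0 := by
      have e : jj 1 (dd c) (false :: b) = dd c (false :: true :: false :: b) +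
          ze 1 (fun v => dd c (false :: v)) b := rfl
      rw [e, hgx _ (by simp), zero_add]
      exact ze_zero_true 1 _ b (fun v hv => hgx v hv)
    have e2 : jj 0 (jj 1 c) (false :: b) = jj 1 c (true :: false :: b) +
        ze 0 (fun v => jj 1 c (false :: v)) b := rfl
    have e3 : ze 0 (fun v => jj 1 c (false :: v)) b = 0 :=
      ze_zero_true 0 _ b (fun v hv => hK0 v hv)
    have e4 := hKJ (false :: b)
    rw [e1, e2, e3] at e4
    have e5 : jj 1 c (true :: false :: b) = 0 := by linarith
    refine ⟨e5, ?_⟩
    rw [hKy, hgx _ (by simp), zero_add] at e5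
    exact e5
  refine ⟨fun b => (ha b).2, ?_⟩
  -- part (b)
  intro b
  have hGJ : jj 1 (GG c) (false :: b) = 0 := by
    have h := hB.ox (GG c) (false :: b)
    have e1 : ins false (dd (GG c)) (false :: b) = 0 := by
      rw [ins, hG1, zero_add]
      exact ins_zero_fun false _ b (fun v => hG1 v)
    have e2 : dd (ins false (GG c)) (false :: b) = 0 := by
      rw [dd, (ha _).2, mul_zero, zero_add]
      exact dd_zero_fun _ b (fun v => (ha v).2)
    rw [e1, e2, zero_add] at h
    exact h.symm
  have hgJ : jj 1 (dd c) (true :: false :: b) = 0 := by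
    have e : jj 1 (dd c) (true :: false :: b) = dd c (false :: true :: true :: false :: b) +
        (dd c (false :: false :: true :: false :: b) + GG c (false :: true :: false :: b) +
          ze 1 (GG c) (false :: b)) := rfl
    have e' : jj 1 (GG c) (false :: b) = GG c (false :: true :: false :: b) +
        ze 1 (GG c) (false :: b) := rfl
    rw [e, hgx _ (by simp), hgx _ (by simp)]
    rw [e'] at hGJ
    linarith
  have e1 := hKJ (true :: false :: b)
  rw [hgJ] at e1
  have e2 : jj 0 (jj 1 c) (true :: false :: b) = jj 1 c (true :: true :: false :: b) +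
      (jj 1 c (false :: true :: false :: b) + jj 1 c (true :: true :: false :: b) +
        ze 0 (fun v => jj 1 c (true :: false :: v)) b) := rfl
  have e3 : ze 0 (fun v => jj 1 c (true :: false :: v)) b = 0 :=
    ze_zero_fun 0 _ b (fun v => (ha v).1)
  rw [e2, e3, hK0 _ (by simp)] at e1
  have e4 : jj 1 c (true :: true :: false :: b) = 0 := by linarith
  rw [hKy, hgx _ (by simp), zero_add] at e4
  exact e4

end MP154526.Hof
end

section
/-!
# Hoffman's conjecture, module H3: the relation (h3)
-/
set_option autoImplicit false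

namespace MP154526.Hof

open Finset MP154526.Bound MP154526.Top

namespace H3M

theorem dd_rev (hA : SpecOpA) {n : ℕ} {σ : ℚ} {c : List Bool → ℚ} (h : Hyp n σ c)
    (w : List Bool) : dd c w.reverse = σ * db c w := by
  have e1 : (fun v => c v.reverse) = fun v => σ * c v := funext h.rev
  rw [hA.orv, e1, dd_mul, ← mul_assoc, h.sq, one_mul]

theorem sym (hA : SpecOpA) {n : ℕ} {σ : ℚ} {c : List Bool → ℚ} (h : Hyp n σ c)
    (w : List Bool) : db (dd c) w.reverse = σ * db (dd c) w := by
  have e1 : (fun v => dd c v.reverse) = fun v => σ * db c v := funext (dd_rev hA h)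
  rw [hA.orv (dd c) w, e1, dd_mul, hA.oc, ← mul_assoc, h.sq, one_mul]

theorem Mw_eq (hA : SpecOpA) {n : ℕ} {σ : ℚ} {c : List Bool → ℚ} (h : Hyp n σ c)
    (w : List Bool) : Mw (GG c) w = db (dd c) w := by
  cases w with
  | nil => rfl
  | cons b u =>
    cases b
    · rw [Mw, db, db_zero_true _ _ h.dx, GG, sg]
      simp
    · have e1 : (fun v => dd c (true :: v)) = GG c := rfl
      have e2 : dd c (true :: false :: u) = GG c (false :: u) := rfl
      have h2 := hA.ob (GG c) u
      rw [Mw, db, e1, e2, sg]
      simp only [if_true]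
      linarith

end H3M

open H3M in
theorem specH3 (hA : SpecOpA) : SpecH3 := by
  intro n σ c h w
  rw [Mw_eq hA h, Mw_eq hA h, sym hA h]

end MP154526.Hof
end

section
/-!
# HA: the first consequences of the relations in exponents
-/
set_option autoImplicit false

namespace MP154526.Hof.HAM

open Finset MP154526.Hof

theorem rs_smul (c : ℚ) (p : ℕ → ℚ) (r : ℕ) (f : List ℕ → ℚ) (K : List ℕ) :
    rs (fun k => c * p k) r f K = c * rs p r f K := by
  induction K generalizing f with
  | nil => simp [rs]
  | cons k K ih => simp only [rs]; rw [ih]; ring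

theorem rs_zero (r : ℕ) (f : List ℕ → ℚ) (K : List ℕ) : rs (fun _ => 0) r f K = 0 := by
  induction K generalizing f with
  | nil => simp [rs]
  | cons k K ih => simp only [rs]; rw [ih]; ring

theorem lin2 (hR : SpecRs) (p : ℕ → ℚ) (r : ℕ) (a b : ℚ) (f g : List ℕ → ℚ) :
    rs p r (fun K => a * f K + b * g K) = fun K => a * rs p r f K + b * rs p r g K := by
  funext K
  rw [hR.add p r (fun K => a * f K) (fun K => b * g K) K, hR.mul, hR.mul]

theorem lin1 (hR : SpecRs) (p : ℕ → ℚ) (r : ℕ) (a : ℚ) (f : List ℕ → ℚ) :
    rs p r (fun K => a * f K) = fun K => a * rs p r f K := by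
  funext K
  rw [hR.mul]

/-- `D1 (E1 f) - E1 (D1 f) = Q2 f` -/
theorem ED (hR : SpecRs) (f : List ℕ → ℚ) (K : List ℕ) : E1 (D1 f) K = D1 (E1 f) K - Q2 f K := by
  have h := hR.comm (fun _ => 1) 1 (fun k => (k : ℚ) + 1) 1 f K
  have e : (fun k : ℕ => (1 : ℚ) * (((k + 1 : ℕ) : ℚ) + 1) - ((k : ℚ) + 1) * 1) = fun _ => 1 := by
    funext k
    push_cast
    ring
  have e' : (1 : ℕ) + 1 = 2 := rfl
  rw [e, e'] at h
  simp only [E1, D1, Q2]
  linarith

/-- `Q2 (E1 f) - E1 (Q2 f) = 2 Q3 f` -/
theorem EQ (hR : SpecRs) (f : List ℕ → ℚ) (K : List ℕ) :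
    E1 (Q2 f) K = Q2 (E1 f) K - 2 * Q3 f K := by
  have h := hR.comm (fun _ => 1) 2 (fun k => (k : ℚ) + 1) 1 f K
  have e : (fun k : ℕ => (1 : ℚ) * (((k + 2 : ℕ) : ℚ) + 1) - ((k : ℚ) + 1) * 1) =
      fun _ => 2 * 1 := by
    funext k
    push_cast
    ring
  have e' : (2 : ℕ) + 1 = 3 := rfl
  rw [e, e', rs_smul 2 (fun _ => (1 : ℚ)) 3 f K] at h
  simp only [E1, Q2, Q3]
  linarith

/-- `D1` and `Q2` commute -/
theorem DQ (hR : SpecRs) (f : List ℕ → ℚ) (K : List ℕ) : D1 (Q2 f) K = Q2 (D1 f) K := by
  have h := hR.comm (fun _ => 1) 1 (fun _ => 1) 2 f K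
  have e : (fun _ : ℕ => (1 : ℚ) * 1 - 1 * 1) = fun _ => 0 := by
    funext k
    ring
  rw [e, rs_zero] at h
  simp only [D1, Q2]
  linarith

theorem symD (hR : SpecRs) (σ : ℚ) (p : ℕ → ℚ) (r : ℕ) (f : List ℕ → ℚ)
    (hf : ∀ K, f K.reverse = σ * f K) (K : List ℕ) : rs p r f K.reverse = σ * rs p r f K := by
  rw [hR.rev]
  have e : (fun L : List ℕ => f L.reverse) = fun L => σ * f L := by
    funext L
    exact hf L
  rw [e, hR.mul]

end MP154526.Hof.HAM

namespace MP154526.Hof

open HAM

theorem specHA (hR : SpecRs) : SpecHA := by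
  intro σ G hσ hG
  set Γ : List ℕ → ℚ := G 0 0 with hΓ
  -- symmetry of the leading functional
  have s0 : ∀ K, Γ K.reverse = σ * Γ K := by
    intro K
    have h := hG.g3 0 0 K
    simp only [MM] at h
    rw [← hΓ] at h
    rw [h, ← mul_assoc, hσ, one_mul]
  have s1 : ∀ K, D1 Γ K.reverse = σ * D1 Γ K := symD hR σ _ _ Γ s0
  have s2 : ∀ K, D1 (D1 Γ) K.reverse = σ * D1 (D1 Γ) K := symD hR σ _ _ _ s1
  have s3 : ∀ K, D1 (D1 (D1 Γ)) K.reverse = σ * D1 (D1 (D1 Γ)) K := symD hR σ _ _ _ s2
  have t1 : ∀ K, Q2 (D1 Γ) K.reverse = σ * Q2 (D1 Γ) K := symD hR σ _ _ _ s1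
  have hσ' : ∀ x : ℚ, σ * (σ * x) = x := by
    intro x
    rw [← mul_assoc, hσ, one_mul]
  -- `G 0 b`
  have g01 : G 0 1 = fun K => -1 * D1 Γ K := by
    funext K
    rw [hG.g1 0 K]
    ring
  have g02 : G 0 2 = fun K => D1 (D1 Γ) K := by
    funext K
    rw [hG.g1 1 K, g01]
    have e := congrFun (lin1 hR (fun _ => 1) 1 (-1) (D1 Γ)) K
    simp only [D1] at e ⊢
    rw [e]
    ring
  have g03 : G 0 3 = fun K => -1 * D1 (D1 (D1 Γ)) K := by
    funext K
    rw [hG.g1 2 K, g02]
    ring
  -- `G b 0`
  have g10 : G 1 0 = fun K => -2 * D1 Γ K := by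
    funext K
    have h := hG.g3 1 0 K
    simp only [MM] at h
    rw [g01, ← hΓ] at h
    simp only [s1] at h
    have := hσ' (D1 Γ K)
    linarith
  have g20 : G 2 0 = fun K => 3 * D1 (D1 Γ) K := by
    funext K
    have h := hG.g3 2 0 K
    simp only [MM] at h
    rw [g02, g10] at h
    have e := congrFun (lin1 hR (fun _ => 1) 1 (-2) (D1 Γ)) K
    change D1 (fun K => -2 * D1 Γ K) K = -2 * D1 (D1 Γ) K at e
    rw [e] at h
    simp only [s2] at h
    have := hσ' (D1 (D1 Γ) K)
    linarith
  have g30 : G 3 0 = fun K => -4 * D1 (D1 (D1 Γ)) K := by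
    funext K
    have h := hG.g3 3 0 K
    simp only [MM] at h
    rw [g03, g20] at h
    have e := congrFun (lin1 hR (fun _ => 1) 1 3 (D1 (D1 Γ))) K
    change D1 (fun K => 3 * D1 (D1 Γ) K) K = 3 * D1 (D1 (D1 Γ)) K at e
    rw [e] at h
    simp only [s3] at h
    have := hσ' (D1 (D1 (D1 Γ)) K)
    linarith
  -- `E1 Γ = 6 D1 Γ`
  have e1 : E1 Γ = fun K => 6 * D1 Γ K := by
    funext K
    have h := hG.g4a 0 K
    simp only [VV] at h
    rw [← hΓ, g01, g10] at h
    push_cast at h
    linarith
  -- `E1 D1 Γ`, `E1 D1 D1 Γ`, `E1 Q2 Γ`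
  have e2 : E1 (D1 Γ) = fun K => 6 * D1 (D1 Γ) K + -1 * Q2 Γ K := by
    funext K
    rw [ED hR Γ K, e1]
    have e := congrFun (lin1 hR (fun _ => 1) 1 6 (D1 Γ)) K
    change D1 (fun K => 6 * D1 Γ K) K = 6 * D1 (D1 Γ) K at e
    rw [e]
    ring
  have e3 : E1 (D1 (D1 Γ)) = fun K => 6 * D1 (D1 (D1 Γ)) K + -2 * Q2 (D1 Γ) K := by
    funext K
    rw [ED hR (D1 Γ) K, e2]
    have e := congrFun (lin2 hR (fun _ => 1) 1 6 (-1) (D1 (D1 Γ)) (Q2 Γ)) K
    change D1 (fun K => 6 * D1 (D1 Γ) K + -1 * Q2 Γ K) K =
      6 * D1 (D1 (D1 Γ)) K + -1 * D1 (Q2 Γ) K at e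
    rw [e, DQ hR Γ K]
    ring
  have e4 : E1 (Q2 Γ) = fun K => 6 * Q2 (D1 Γ) K + -2 * Q3 Γ K := by
    funext K
    rw [EQ hR Γ K, e1]
    have e := congrFun (lin1 hR (fun _ => 1) 2 6 (D1 Γ)) K
    change Q2 (fun K => 6 * D1 Γ K) K = 6 * Q2 (D1 Γ) K at e
    rw [e]
    ring
  -- `G 1 1`
  have g11 : G 1 1 = fun K => 1 * D1 (D1 Γ) K + -1 * Q2 Γ K := by
    funext K
    have h := hG.g4a 1 K
    simp only [VV] at h
    rw [g20, g10] at h
    have ea := congrFun (lin1 hR (fun k => (k : ℚ) + 1) 1 (-2) (D1 Γ)) K
    change E1 (fun K => -2 * D1 Γ K) K = -2 * E1 (D1 Γ) K at ea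
    have eb := congrFun (lin1 hR (fun _ => 1) 1 (-2) (D1 Γ)) K
    change D1 (fun K => -2 * D1 Γ K) K = -2 * D1 (D1 Γ) K at eb
    rw [ea, eb, e2] at h
    push_cast at h
    linarith
  -- `G 2 1`
  have g21 : G 2 1 = fun K => 3 * Q2 (D1 Γ) K := by
    funext K
    have h := hG.g4a 2 K
    simp only [VV] at h
    rw [g30, g20] at h
    have ea := congrFun (lin1 hR (fun k => (k : ℚ) + 1) 1 3 (D1 (D1 Γ))) K
    change E1 (fun K => 3 * D1 (D1 Γ) K) K = 3 * E1 (D1 (D1 Γ)) K at ea
    have eb := congrFun (lin1 hR (fun _ => 1) 1 3 (D1 (D1 Γ))) K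
    change D1 (fun K => 3 * D1 (D1 Γ) K) K = 3 * D1 (D1 (D1 Γ)) K at eb
    rw [ea, eb, e3] at h
    push_cast at h
    linarith
  have d11 : ∀ K, D1 (G 1 1) K = D1 (D1 (D1 Γ)) K - Q2 (D1 Γ) K := by
    intro K
    rw [g11]
    have e := congrFun (lin2 hR (fun _ => 1) 1 1 (-1) (D1 (D1 Γ)) (Q2 Γ)) K
    change D1 (fun K => 1 * D1 (D1 Γ) K + -1 * Q2 Γ K) K =
      1 * D1 (D1 (D1 Γ)) K + -1 * D1 (Q2 Γ) K at e
    rw [e, DQ hR Γ K]
    ring
  -- `G 1 2`
  have g12 : G 1 2 = fun K => 2 * Q2 (D1 Γ) K := by
    funext K
    have h := hG.g3 1 2 K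
    simp only [MM] at h
    rw [d11, g21, g02] at h
    simp only [s3, t1] at h
    have i1 := hσ' (D1 (D1 (D1 Γ)) K)
    have i2 := hσ' (Q2 (D1 Γ) K)
    have e5 : σ * (3 * (σ * Q2 (D1 Γ) K) + (σ * D1 (D1 (D1 Γ)) K - σ * Q2 (D1 Γ) K)) =
        2 * (σ * (σ * Q2 (D1 Γ) K)) + σ * (σ * D1 (D1 (D1 Γ)) K) := by ring
    rw [e5, i1, i2] at h
    linarith
  refine ⟨s0, fun K => congrFun e1 K, ?_⟩
  -- `VV 0 2 = 0`
  have v02 : ∀ K, VV G 0 2 K = 0 := by
    intro K
    simp only [VV]
    rw [g12, g03, g02]
    change _ + _ + E1 (D1 (D1 Γ)) K - 2 * D1 (D1 (D1 Γ)) K = 0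
    rw [e3]
    push_cast
    ring
  have hσ0 : σ ≠ 0 := by
    intro h
    rw [h] at hσ
    norm_num at hσ
  have v11 : ∀ K, VV G 1 1 K = 0 := by
    intro K
    have h := hG.g4b 0 1 K.reverse
    have h2 := v02 K.reverse
    rw [List.reverse_reverse] at h
    change VV G 0 2 K.reverse = σ * VV G 1 1 K at h
    rw [h2] at h
    rcases mul_eq_zero.mp h.symm with h3 | h3
    · exact absurd h3 hσ0
    · exact h3
  intro K
  have h := v11 K
  simp only [VV] at h
  rw [d11, g21, g12, g11] at h
  have e := congrFun (lin2 hR (fun k => (k : ℚ) + 1) 1 1 (-1) (D1 (D1 Γ)) (Q2 Γ)) K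
  change E1 (fun K => 1 * D1 (D1 Γ) K + -1 * Q2 Γ K) K =
    1 * E1 (D1 (D1 Γ)) K + -1 * E1 (Q2 Γ) K at e
  rw [e, e3, e4] at h
  push_cast at h
  linarith

end MP154526.Hof
end

section
set_option autoImplicit false

namespace MP154526.Hof

open Finset

namespace HBM

theorem rs_mul (p : ℕ → ℚ) (r : ℕ) (c : ℚ) (f : List ℕ → ℚ) (K : List ℕ) :
    rs p r (fun L => c * f L) K = c * rs p r f K := by
  induction K generalizing f with
  | nil => simp [rs]
  | cons k K ih => simp only [rs, ih (fun L => f (k :: L))]; ring

theorem rs_app (p : ℕ → ℚ) (r : ℕ) (f : List ℕ → ℚ) (K : List ℕ) (k : ℕ) :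
    rs p r f (K ++ [k]) = rs p r (fun L => f (L ++ [k])) K + p k * f (K ++ [k + r]) := by
  induction K generalizing f with
  | nil => simp [rs]
  | cons j K ih =>
    simp only [List.cons_append, rs, ih (fun L => f (j :: L))]
    ring

theorem rs_rev (p : ℕ → ℚ) (r : ℕ) (f : List ℕ → ℚ) (K : List ℕ) :
    rs p r f K.reverse = rs p r (fun L => f L.reverse) K := by
  induction K generalizing f with
  | nil => simp [rs]
  | cons k K ih =>
    rw [List.reverse_cons, rs_app, ih]
    simp only [rs, List.reverse_cons]
    ring

theorem sp_mul (c : ℚ) (f : List ℕ → ℚ) (K : List ℕ) :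
    sp (fun L => c * f L) K = c * sp f K := by
  induction K generalizing f with
  | nil => simp [sp]
  | cons k K ih =>
    simp only [sp, ih (fun L => f (k :: L)), mul_add, Finset.mul_sum]

theorem xs_mul (c : ℚ) (f : List ℕ → ℚ) (K : List ℕ) :
    xs (fun L => c * f L) K = c * xs f K := by
  simp only [xs, sp_mul]
  ring

end HBM

open HBM

/-- HB (from HA). -/
theorem specHB (hHA : SpecHA) : SpecHB := by
  intro σ G hσ hG K
  obtain ⟨hrev, -, -⟩ := hHA σ G hσ hG
  have e01 : ∀ K, G 0 1 K = -1 * D1 (G 0 0) K := by
    intro K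
    rw [hG.g1 0 K]
    ring
  have drev : ∀ K : List ℕ, D1 (G 0 0) K.reverse = σ * D1 (G 0 0) K := by
    intro K
    unfold D1
    rw [rs_rev]
    have : (fun L : List ℕ => G 0 0 L.reverse) = fun L => σ * G 0 0 L := funext hrev
    rw [this, rs_mul]
  have e10 : ∀ K, G 1 0 K = -2 * D1 (G 0 0) K := by
    intro K
    have h := hG.g3 1 0 K
    simp only [MM] at h
    rw [e01, drev] at h
    have h2 : σ * (-1 * (σ * D1 (G 0 0) K)) = -1 * D1 (G 0 0) K := by
      calc σ * (-1 * (σ * D1 (G 0 0) K)) = -1 * (σ * σ) * D1 (G 0 0) K := by ring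
        _ = -1 * D1 (G 0 0) K := by rw [hσ]; ring
    rw [h2] at h
    linarith
  have key : ∀ K, G 0 0 (1 :: K) = 2 * G 0 0 (K ++ [1]) := by
    intro K
    have hB := hG.gB K
    have hC := hG.gC K
    have f1 : G 0 1 = fun L => -1 * D1 (G 0 0) L := funext e01
    have f2 : G 1 0 = fun L => -2 * D1 (G 0 0) L := funext e10
    rw [f1, xs_mul] at hB
    rw [f2, xs_mul] at hC
    linarith
  have h1 : G 0 0 (K ++ [1]) = σ * G 0 0 (1 :: K.reverse) := by
    rw [← hrev, List.reverse_cons, List.reverse_reverse]
  have h2 : G 0 0 (K.reverse ++ [1]) = σ * G 0 0 (1 :: K) := by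
    rw [← hrev, List.reverse_cons]
  have h3 := key K
  have h4 := key K.reverse
  rw [h4, h2, h3] at h1
  have h5 : σ * (2 * (σ * (2 * G 0 0 (K ++ [1])))) = 4 * G 0 0 (K ++ [1]) := by
    calc σ * (2 * (σ * (2 * G 0 0 (K ++ [1])))) = (σ * σ) * (4 * G 0 0 (K ++ [1])) := by ring
      _ = 4 * G 0 0 (K ++ [1]) := by rw [hσ]; ring
  rw [h5] at h1
  linarith

end MP154526.Hof
end

section
/-!
# Module HC: `Γ(K ++ [k+1]) = 0`
-/
set_option autoImplicit false

namespace MP154526.Hof.HCM

open Finset

theorem rs_zero (p : ℕ → ℚ) (r : ℕ) (K : List ℕ) : rs p r (fun _ => (0 : ℚ)) K = 0 := by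
  induction K with
  | nil => rfl
  | cons k K ih => simp only [rs]; rw [ih]; ring

/-- if `f` vanishes on all lists ending with `k`, only the last entry counts -/
theorem rs_last (hR : SpecRs) (p : ℕ → ℚ) (r : ℕ) (f : List ℕ → ℚ) (k : ℕ)
    (hf : ∀ K, f (K ++ [k]) = 0) (K : List ℕ) :
    rs p r f (K ++ [k]) = p k * f (K ++ [k + r]) := by
  rw [hR.app]
  have : (fun L => f (L ++ [k])) = fun _ => (0 : ℚ) := by
    funext L
    exact hf L
  rw [this, rs_zero, zero_add]

theorem D1_last (hR : SpecRs) (f : List ℕ → ℚ) (k : ℕ) (hf : ∀ K, f (K ++ [k]) = 0)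
    (K : List ℕ) : D1 f (K ++ [k]) = f (K ++ [k + 1]) := by
  unfold D1
  rw [rs_last hR _ _ _ _ hf, one_mul]

theorem Q2_last (hR : SpecRs) (f : List ℕ → ℚ) (k : ℕ) (hf : ∀ K, f (K ++ [k]) = 0)
    (K : List ℕ) : Q2 f (K ++ [k]) = f (K ++ [k + 2]) := by
  unfold Q2
  rw [rs_last hR _ _ _ _ hf, one_mul]

theorem Q3_last (hR : SpecRs) (f : List ℕ → ℚ) (k : ℕ) (hf : ∀ K, f (K ++ [k]) = 0)
    (K : List ℕ) : Q3 f (K ++ [k]) = f (K ++ [k + 3]) := by
  unfold Q3
  rw [rs_last hR _ _ _ _ hf, one_mul]

end MP154526.Hof.HCM

namespace MP154526.Hof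

open HCM

theorem specHC (hR : SpecRs) (hA : SpecHA) (hB : SpecHB) : SpecHC := by
  intro σ G hσ hG
  obtain ⟨-, hE, h3⟩ := hA σ G hσ hG
  have hb := hB σ G hσ hG
  generalize G 0 0 = Γ at *
  have key : ∀ k, (∀ K, Γ (K ++ [k]) = 0) → k ≠ 5 → ∀ K, Γ (K ++ [k + 1]) = 0 := by
    intro k hk h5 K
    have h := hE (K ++ [k])
    unfold E1 D1 at h
    rw [rs_last hR _ _ _ _ hk, rs_last hR _ _ _ _ hk] at h
    have h' : ((k : ℚ) - 5) * Γ (K ++ [k + 1]) = 0 := by linarith
    rcases mul_eq_zero.1 h' with h'' | h''
    · exfalso
      apply h5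
      have : (k : ℚ) = 5 := by linarith
      exact_mod_cast this
    · exact h''
  have e1 : ∀ K, Γ (K ++ [1]) = 0 := hb
  have e2 : ∀ K, Γ (K ++ [2]) = 0 := key 1 e1 (by norm_num)
  have e3 : ∀ K, Γ (K ++ [3]) = 0 := key 2 e2 (by norm_num)
  have e4 : ∀ K, Γ (K ++ [4]) = 0 := key 3 e3 (by norm_num)
  have e5 : ∀ K, Γ (K ++ [5]) = 0 := key 4 e4 (by norm_num)
  have e6 : ∀ K, Γ (K ++ [6]) = 0 := by
    intro K
    have a3 : ∀ K, D1 Γ (K ++ [3]) = 0 := fun K => by rw [D1_last hR _ _ e3, e4]
    have a4 : ∀ K, D1 Γ (K ++ [4]) = 0 := fun K => by rw [D1_last hR _ _ e4, e5]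
    have a5 : ∀ K, D1 Γ (K ++ [5]) = Γ (K ++ [6]) := fun K => by rw [D1_last hR _ _ e5]
    have b3 : ∀ K, D1 (D1 Γ) (K ++ [3]) = 0 := fun K => by rw [D1_last hR _ _ a3, a4]
    have b4 : ∀ K, D1 (D1 Γ) (K ++ [4]) = Γ (K ++ [6]) := fun K => by
      rw [D1_last hR _ _ a4, a5]
    have c3 : D1 (D1 (D1 Γ)) (K ++ [3]) = Γ (K ++ [6]) := by rw [D1_last hR _ _ b3, b4]
    have d3 : Q2 (D1 Γ) (K ++ [3]) = Γ (K ++ [6]) := by rw [Q2_last hR _ _ a3, a5]
    have f3 : Q3 Γ (K ++ [3]) = Γ (K ++ [6]) := by rw [Q3_last hR _ _ e3]
    have h := h3 (K ++ [3])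
    rw [c3, d3, f3] at h
    linarith
  intro K k
  induction k generalizing K with
  | zero => exact e1 K
  | succ k ih =>
    by_cases h : k = 4
    · subst h
      exact e6 K
    · exact key (k + 1) (fun K => ih K) (by omega) K

end MP154526.Hof
end

section
/-!
# Module HD: `Γ = 0`
-/
set_option autoImplicit false

namespace MP154526.Hof.HDM

open Finset

theorem sp_zero (K : List ℕ) : sp (fun _ => (0 : ℚ)) K = 0 := by
  induction K with
  | nil => rfl
  | cons k K ih => simp only [sp]; rw [ih]; simp

/-- `x ⧢` at a list `0^p ++ (k+1) :: K` -/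
theorem sp_lead (p : ℕ) (f : List ℕ → ℚ)
    (hf : ∀ k K, f (List.replicate p 0 ++ (k + 1) :: K) = 0) (k : ℕ) (K : List ℕ) :
    sp f (List.replicate p 0 ++ (k + 1) :: K) =
      ((p : ℚ) + 1) * f (List.replicate (p + 1) 0 ++ (k + 1) :: K) := by
  induction p generalizing f with
  | zero =>
    simp only [List.replicate_zero, List.nil_append] at hf
    simp only [List.replicate_zero, List.nil_append, sp]
    have h1 : (fun L => f ((k + 1) :: L)) = fun _ => (0 : ℚ) := by
      funext L
      exact hf k L
    rw [h1, sp_zero, add_zero, Finset.sum_range_succ']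
    rw [Finset.sum_eq_zero (fun q _ => hf q _)]
    simp
  | succ p ih =>
    have hf' : ∀ k K, (fun M => f (0 :: M)) (List.replicate p 0 ++ (k + 1) :: K) = 0 := by
      intro k K
      have := hf k K
      rw [List.replicate_succ, List.cons_append] at this
      exact this
    have h := ih (fun M => f (0 :: M)) hf'
    rw [List.replicate_succ, List.cons_append, sp, h]
    simp only [zero_add, Finset.sum_range_one, Nat.sub_zero, List.replicate_succ,
      List.cons_append]
    push_cast
    ring

theorem exists_lead (K : List ℕ) : (∀ k ∈ K, k = 0) ∨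
    ∃ p k K', K = List.replicate p 0 ++ (k + 1) :: K' := by
  induction K with
  | nil => left; simp
  | cons a K ih =>
    rcases Nat.eq_zero_or_pos a with rfl | ha
    · rcases ih with ih | ⟨p, k, K', rfl⟩
      · left
        intro k hk
        rcases List.mem_cons.1 hk with rfl | hk
        · rfl
        · exact ih k hk
      · right
        exact ⟨p + 1, k, K', by rw [List.replicate_succ, List.cons_append]⟩
    · right
      exact ⟨0, a - 1, K, by simp; omega⟩

end MP154526.Hof.HDM

namespace MP154526.Hof

open HDM

theorem specHD (hA : SpecHA) (hC : SpecHC) : SpecHD := by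
  intro σ G hσ hG
  obtain ⟨hrev, -, -⟩ := hA σ G hσ hG
  have hc := hC σ G hσ hG
  have key : ∀ p k K, G 0 0 (List.replicate p 0 ++ (k + 1) :: K) = 0 := by
    intro p
    induction p with
    | zero =>
      intro k K
      have h := hrev (K.reverse ++ [k + 1])
      rw [hc, mul_zero] at h
      simpa using h
    | succ p ih =>
      intro k K
      have h := hG.gA (List.replicate p 0 ++ (k + 1) :: K)
      rw [xs, sp_lead p _ ih] at h
      have h1 : G 0 0 (0 :: (List.replicate p 0 ++ (k + 1) :: K)) =
          G 0 0 (List.replicate (p + 1) 0 ++ (k + 1) :: K) := by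
        rw [List.replicate_succ, List.cons_append]
      have h2 : G 0 0 ((List.replicate p 0 ++ (k + 1) :: K) ++ [0]) = 0 := by
        rw [List.append_assoc, List.cons_append]
        exact ih k (K ++ [0])
      rw [h1, h2] at h
      have h3 : ((p : ℚ) + 2) * G 0 0 (List.replicate (p + 1) 0 ++ (k + 1) :: K) = 0 := by
        linarith
      rcases mul_eq_zero.1 h3 with h4 | h4
      · exfalso
        have : (0 : ℚ) ≤ p := Nat.cast_nonneg p
        linarith
      · exact h4
  intro K
  rcases exists_lead K with h | ⟨p, k, K', rfl⟩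
  · exact hG.supp K h
  · exact key p k K'

end MP154526.Hof
end

section
/-!
# HE: from `Γ = 0` to `G = 0`
-/
set_option autoImplicit false

namespace MP154526.Hof

open Finset MP154526.Bound MP154526.Top

namespace HEM

theorem rs_zero (p : ℕ → ℚ) (r : ℕ) (f : List ℕ → ℚ) (hf : ∀ K, f K = 0) (K : List ℕ) :
    rs p r f K = 0 := by
  induction K generalizing f with
  | nil => rfl
  | cons k K ih => rw [rs, hf, mul_zero, zero_add]; exact ih _ fun L => hf _

theorem D1_zero (f : List ℕ → ℚ) (hf : ∀ K, f K = 0) (K : List ℕ) : D1 f K = 0 :=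
  rs_zero _ _ f hf K

theorem E1_zero (f : List ℕ → ℚ) (hf : ∀ K, f K = 0) (K : List ℕ) : E1 f K = 0 :=
  rs_zero _ _ f hf K

end HEM

open HEM in
/-- HE -/
theorem specHE (hHD : SpecHD) : SpecHE := by
  intro σ G hσ h
  have h00 := hHD σ G hσ h
  have hσ0 : σ ≠ 0 := by
    rintro rfl
    simp at hσ
  have h0b : ∀ b K, G 0 b K = 0 := by
    intro b
    induction b with
    | zero => exact h00
    | succ b ih => intro K; rw [h.g1, D1_zero _ ih, neg_zero]
  have ha0 : ∀ a K, G a 0 K = 0 := by
    intro a
    induction a with
    | zero => exact h00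
    | succ a ih =>
      intro K
      have e := h.g3 (a + 1) 0 K
      rw [MM, MM, D1_zero _ ih, h0b, mul_zero, add_zero] at e
      exact e
  have key : ∀ q, (∀ a ≤ q, ∀ b K, G a b K = 0) ∧ ∀ b ≤ q, ∀ a K, G a b K = 0 := by
    intro q
    induction q with
    | zero =>
      constructor
      · intro a ha b K
        rw [Nat.le_zero.1 ha]
        exact h0b b K
      · intro b hb a K
        rw [Nat.le_zero.1 hb]
        exact ha0 a K
    | succ q ih =>
      obtain ⟨i1, i2⟩ := ih
      have hV : ∀ a K, VV G a q K = 0 := by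
        intro a K
        cases q with
        | zero => exact h.g4a a K
        | succ q =>
          rw [h.g4b a q K, VV, i1 (q + 1) le_rfl, i1 q (by omega), E1_zero _ (fun L => i1 q (by omega) _ L),
            D1_zero _ (fun L => i1 q (by omega) _ L)]
          ring
      have hA : ∀ a K, G a (q + 1) K = 0 := by
        intro a K
        have e := hV a K
        rw [VV, i2 q le_rfl, E1_zero _ (fun L => i2 q le_rfl _ L),
          D1_zero _ (fun L => i2 q le_rfl _ L)] at e
        have h2 : ((q : ℚ) + 2) * G a (q + 1) K = 0 := by linarith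
        rcases mul_eq_zero.1 h2 with h3 | h3
        · have : (0 : ℚ) < (q : ℚ) + 2 := by positivity
          exact absurd h3 this.ne'
        · exact h3
      have hB : ∀ b K, G (q + 1) b K = 0 := by
        intro b K
        have e := h.g3 (q + 1) b K
        have e2 : MM G b (q + 1) K.reverse = 0 := by
          cases b with
          | zero => exact hA 0 _
          | succ b => rw [MM, hA, D1_zero _ (fun L => hA b L), add_zero]
        rw [e2, mul_zero, MM, D1_zero _ (fun L => i1 q le_rfl _ L), add_zero] at e
        exact e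
      constructor
      · intro a ha b K
        rcases Nat.lt_or_ge a (q + 1) with h1 | h1
        · exact i1 a (by omega) b K
        · rw [show a = q + 1 by omega]
          exact hB b K
      · intro b hb a K
        rcases Nat.lt_or_ge b (q + 1) with h1 | h1
        · exact i2 b (by omega) a K
        · rw [show b = q + 1 by omega]
          exact hA a K
  intro a b K
  exact (key a).1 a le_rfl b K

end MP154526.Hof
end

section
set_option autoImplicit false

namespace MP154526.Hof

/-- HOM (from BR, HE, BRA). -/
theorem specHom (hBR : SpecBr) (hHE : SpecHE) (hBRA : SpecBrA) : SpecHom := by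
  intro σ F hσ hF w
  by_contra hw
  obtain ⟨a, b, K, rfl⟩ := hBRA.ex w (hF.supp w hw).1
  exact hw (hHE σ _ hσ (hBR σ F hσ hF) a b K)

end MP154526.Hof
end

section
/-!
# HYP: the extended functional satisfies the hypotheses of Theorem 1
-/
set_option autoImplicit false

namespace MP154526.Hof.HYPM

open Finset MP154526.Bound MP154526.Top

theorem ins_cast (a : Bool) (w : List Bool) : ∀ g : List Bool → ℤ,
    ins a (fun v => (g v : ℚ)) w = ((shs g [a] w : ℤ) : ℚ) := by
  induction w with
  | nil => intro g; simp [ins, shs]
  | cons b w ih =>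
    intro g
    rw [ins, shs, shs, ih (fun v => g (b :: v))]
    push_cast
    rfl

theorem ins_congr_len (a : Bool) (f g : List Bool → ℚ) (w : List Bool)
    (h : ∀ v, v.length = w.length + 1 → f v = g v) : ins a f w = ins a g w := by
  have h1 := ins_zero_len a (fun v => f v - g v) w (fun v hv => by rw [h v hv, sub_self])
  rw [ins_sub] at h1
  exact sub_eq_zero.mp h1

theorem ins_cn (n : ℕ) (φ : List Bool → ℤ) (hn : 2 ≤ n)
    (h : ∀ u v : List Bool, u ≠ [] → v ≠ [] → u.length + v.length = n → shs (cex φ) u v = 0)
    (a : Bool) (w : List Bool) : ins a (cn n φ) w = 0 := by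
  by_cases hw : w.length + 1 = n
  · rw [ins_congr_len a (cn n φ) (fun v => (cex φ v : ℚ)) w
      (fun v hv => by rw [cn, if_pos (by omega)]), ins_cast,
      h [a] w (by simp) (by rintro rfl; simp at hw; omega) (by simp; omega)]
    simp
  · exact ins_zero_len a _ w (fun v hv => by rw [cn, if_neg (by omega)])

end MP154526.Hof.HYPM

namespace MP154526.Hof

open Finset MP154526.Bound MP154526.Top HYPM

theorem specHyp (hCex : SpecCex) (hAnt : SpecAnt) (hJJ : SpecJJ) (hXK : SpecXK) : SpecHyp := by
  intro n φ hn hK
  have hc := (hCex n φ hn hK).1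
  have hx : ∀ w, ins false (cn n φ) w = 0 := fun w => ins_cn n φ hn hc false w
  have hy : ∀ w, ins true (cn n φ) w = 0 := fun w => ins_cn n φ hn hc true w
  refine ⟨?_, ?_, hx, hy, ?_, ?_⟩
  · rw [← pow_add, ← two_mul]
    exact Even.neg_one_pow ⟨n + 1, by ring⟩
  · intro w hw
    rw [cn, if_neg hw]
  · intro w
    by_cases hw : w.length = n
    · rw [cn, cn, if_pos (by simpa using hw), if_pos hw, hAnt n (cex φ) (by omega) hc w hw]
      push_cast
      rfl
    · rw [cn, cn, if_neg (by simpa using hw), if_neg hw, mul_zero]
  · exact hXK (cn n φ) hx hy (fun i b => hJJ n φ hn hK i b)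

end MP154526.Hof
end

section
/-!
# JJ: the extended functional kills `z_{i+1} * b`, `b` a nonempty word of `ℌ⁰`
-/
set_option autoImplicit false

namespace MP154526.Hof.JJM

open Finset MP154526.Bound MP154526.Top MP154526.Top.Pass2 MP154526.Hof

theorem exists_bw (w : List Bool) (h : EndY w) : ∃ l, w = bw l := by
  induction w with
  | nil => exact ⟨[], rfl⟩
  | cons a w ih =>
    have h1 := endY_tail a w h
    obtain ⟨l, hl⟩ := ih h1
    cases a with
    | true => exact ⟨0 :: l, by rw [bw, ← hl]; rfl⟩
    | false =>
      rcases l with _ | ⟨c, l⟩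
      · exfalso
        rw [hl] at h
        rcases h with h | ⟨u, h⟩
        · simp at h
        · have := congrArg List.getLast? h
          simp [bw] at this
      · exact ⟨(c + 1) :: l, by rw [hl, bw, bw, List.replicate_succ]; rfl⟩

theorem exists_bw' (b : List Bool) : ∃ a l, false :: b ++ [true] = bw ((a + 1) :: l) := by
  obtain ⟨l, hl⟩ := exists_bw (false :: b ++ [true]) (Or.inr ⟨false :: b, rfl⟩)
  rcases l with _ | ⟨_ | a, l⟩
  · simp [bw] at hl
  · simp [bw] at hl
  · exact ⟨a, l, hl⟩

theorem bw_succ (a : ℕ) (l : List ℕ) : bw ((a + 1) :: l) = false :: bw (a :: l) := by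
  rw [bw, bw, List.replicate_succ]
  rfl

theorem adm_bw (a : ℕ) (l : List ℕ) : Adm (bw ((a + 1) :: l)) := by
  rw [bw_succ]
  rcases endY_bw (a :: l) with h | ⟨u, h⟩
  · simp [bw] at h
  · exact Or.inr ⟨u, by rw [h]; rfl⟩

theorem ext_bw (φ : List Bool → ℤ) (a : ℕ) (l : List ℕ) :
    ext φ (bw ((a + 1) :: l)) = φ (bw ((a + 1) :: l)) := by
  rw [bw_succ, Pass1.ext_false]

theorem stf_congr_wt {M : Type} [AddCommGroup M] (f g : List ℕ → M) (u v : List ℕ)
    (h : ∀ l, wt l = wt u + wt v → f l = g l) : stf f u v = stf g u v := by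
  have h1 : stf (fun l => g l + (f l - g l)) u v = stf g u v + stf (fun l => f l - g l) u v :=
    stf_add _ _ _ _
  have h2 : stf (fun l => f l - g l) u v = 0 :=
    stf_zero _ _ _ fun l hl => by rw [h l hl, sub_self]
  rw [h2, add_zero] at h1
  rw [← h1]
  congr 1
  funext l
  abel

theorem sum_map (l : List ℕ) : (l.map (· + 1)).sum = wt l := by
  induction l with
  | nil => rfl
  | cons c l ih => rw [List.map_cons, List.sum_cons, ih, wt_cons]

/-- the relation of depth one, evaluated by `φ` -/
theorem rel (n : ℕ) (φ : List Bool → ℤ) (hK : KD n φ) (i a : ℕ) (l : List ℕ)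
    (hn : i + 1 + wt ((a + 1) :: l) = n) :
    shs φ (bw [i]) (bw ((a + 1) :: l)) = stf (fun l => φ (bw l)) [i] ((a + 1) :: l) := by
  have hidx : Idx1 (((a + 1) :: l).map (· + 1)) := by
    intro k hk
    obtain ⟨c, _, rfl⟩ := List.mem_map.1 hk
    omega
  have hr : shuffle (wd (word [i + 1])) (wd (word (((a + 1) :: l).map (· + 1)))) -
      stuffle [i + 1] (((a + 1) :: l).map (· + 1)) ∈ DS1 n := by
    refine ⟨i + 1, ((a + 1) :: l).map (· + 1), by omega, ⟨hidx, ?_⟩, ?_, rfl⟩
    · intro k hk
      simp only [List.map_cons, List.head?_cons, Option.mem_def, Option.some.injEq] at hk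
      omega
    · rw [sum_map, hn]
  have h3 := hK.ds1 _ hr
  have e0 : word [i + 1] = bw [i] := word_map [i]
  have e1 : shuffle (wd (word [i + 1])) (wd (word (((a + 1) :: l).map (· + 1)))) =
      sh (bw [i]) (bw ((a + 1) :: l)) := by
    rw [Pass2.shuffle_wd, word_map, e0]
  have e2 : stuffle [i + 1] (((a + 1) :: l).map (· + 1)) =
      stf (fun l => wd (bw l)) [i] ((a + 1) :: l) := stuffle_eq [i] _
  rw [lin_eq, e1, e2, map_sub] at h3
  have h4 := map_sh (linL φ).toAddMonoidHom (bw [i]) (bw ((a + 1) :: l))
  have h5 := stf_map (linL φ).toAddMonoidHom (fun l => wd (bw l)) [i] ((a + 1) :: l)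
  simp only [LinearMap.toAddMonoidHom_coe, linL_wd] at h4 h5
  rw [h4, h5] at h3
  have h6 := shs_map (Int.castAddHom ℚ) φ (bw [i]) (bw ((a + 1) :: l))
  have h7 := stf_map (Int.castAddHom ℚ) (fun l => φ (bw l)) [i] ((a + 1) :: l)
  simp only [Int.coe_castAddHom] at h6 h7
  rw [← h6, ← h7, sub_eq_zero] at h3
  exact_mod_cast h3

theorem key (n : ℕ) (φ : List Bool → ℤ) (hK : KD n φ) (i a : ℕ) (l : List ℕ)
    (hn : i + 1 + wt ((a + 1) :: l) = n) :
    stf (fun l => ext φ (bw l)) [i] ((a + 1) :: l) = 0 := by
  have h := rel n φ hK i a l hn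
  rcases i with _ | i
  · have h1 := Pass1.ext_true_sh φ (bw ((a + 1) :: l))
    have e0 : bw [0] = [true] := rfl
    rw [e0, bw_succ, shs_cons_cons, shs_nil_left, stf_cons_cons, stf_nil_left, stf_nil_left] at h
    rw [bw_succ, shs_cons_cons, shs_nil_left] at h1
    rw [stf_cons_cons, stf_nil_left, stf_nil_left]
    simp only [Pass1.ext_false] at h1
    simp only [ext_bw]
    have e1 : bw (0 :: (a + 1) :: l) = true :: false :: bw (a :: l) := by
      rw [← bw_succ]
      rfl
    rw [e1] at h ⊢
    linarith
  · have hp := hK.prod (i + 1 + 1) (wt ((a + 1) :: l)) (by omega) (by rw [wt_cons]; omega) hn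
      (wd (bw [i + 1])) (Submodule.subset_span ⟨_, adm_bw i [], by
        rw [bw_length, wt_cons, wt_nil], rfl⟩)
      (wd (bw ((a + 1) :: l))) (Submodule.subset_span ⟨_, adm_bw a l, bw_length _, rfl⟩)
    rw [Pass2.shuffle_wd, Pass1.lin_sh] at hp
    have hp' : shs φ (bw [i + 1]) (bw ((a + 1) :: l)) = 0 := by exact_mod_cast hp
    rw [hp'] at h
    rw [stf_cons_cons] at h ⊢
    simp only [ext_bw]
    exact h.symm

end MP154526.Hof.JJM

namespace MP154526.Hof

open Finset MP154526.Bound MP154526.Top MP154526.Top.Pass2

theorem specJJ (hCex : SpecCex) (hJs : SpecJs) : SpecJJ := by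
  intro n φ hn hK i b
  obtain ⟨a, l, hl⟩ := JJM.exists_bw' b
  rw [hl, hJs]
  by_cases hw : i + 1 + wt ((a + 1) :: l) = n
  · have e0 : stf (fun m => cn n φ (bw m)) [i] ((a + 1) :: l) =
        stf (fun m => ((ext φ (bw m) : ℤ) : ℚ)) [i] ((a + 1) :: l) := by
      refine JJM.stf_congr_wt _ _ _ _ fun m hm => ?_
      have hm' : (bw m).length = n := by
        rw [bw_length, hm, ← hw, wt_cons i, wt_nil]
      simp only [cn]
      rw [if_pos hm', (hCex n φ hn hK).2 (bw m) (endY_bw m)]
    have e1 := stf_map (Int.castAddHom ℚ) (fun l => ext φ (bw l)) [i] ((a + 1) :: l)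
    simp only [Int.coe_castAddHom] at e1
    rw [e0, ← e1, JJM.key n φ hK i a l hw, Int.cast_zero]
  · refine stf_zero _ _ _ fun m hm => ?_
    have hm' : (bw m).length ≠ n := by
      rw [bw_length, hm, wt_cons i, wt_nil]
      omega
    simp only [cn]
    rw [if_neg hm']

end MP154526.Hof
end

section
/-!
# `J_i w = z_{i+1} * w` on `ℌ¹`
-/
set_option autoImplicit false

namespace MP154526.Hof.JSM

open Finset MP154526.Bound MP154526.Top MP154526.Hof

theorem ze_repl (i n : ℕ) : ∀ (f : List Bool → ℚ) (w : List Bool),
    ze i f (List.replicate n false ++ w) = ze i (fun v => f (List.replicate n false ++ v)) w := by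
  induction n with
  | zero => intro f w; rfl
  | succ n ih =>
    intro f w
    rw [List.replicate_succ, List.cons_append, ze, ih]
    rfl

theorem ze_block (i n : ℕ) (f : List Bool → ℚ) (u : List Bool) :
    ze i f (List.replicate n false ++ true :: u) =
      f (List.replicate (i + n + 1) false ++ true :: u) +
      f (List.replicate n false ++ true :: (List.replicate i false ++ true :: u)) +
      ze i (fun v => f (List.replicate n false ++ true :: v)) u := by
  rw [ze_repl]
  simp only [ze, xy]
  congr 3
  rw [show i + n + 1 = n + (1 + i) by omega, List.replicate_add, List.replicate_add]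
  simp

end MP154526.Hof.JSM

namespace MP154526.Hof

open Finset MP154526.Bound MP154526.Top MP154526.Top.Pass2

theorem specJs : SpecJs := by
  intro i f w
  induction w generalizing f with
  | nil => simp [bw, jj, ze, xy, stf]
  | cons n v ih =>
    have h := ih (fun v => f (List.replicate n false ++ true :: v))
    simp only [jj, xy] at h
    rw [stf]
    simp only [jj, xy, bw, JSM.ze_block, stf]
    rw [← h]
    ring

end MP154526.Hof
end

section
/-!
# Module OPA: operator identities, part A
-/
set_option autoImplicit false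

namespace MP154526.Hof

namespace OPAM

theorem ob (w : List Bool) : ∀ f : List Bool → ℚ,
    dd f w - db f w = f (w ++ [false]) + f (w ++ [true]) - (f (false :: w) + f (true :: w)) := by
  induction w with
  | nil => intro f; simp [dd, db]
  | cons b w ih =>
    intro f
    have h := ih fun v => f (b :: v)
    cases b <;> simp only [dd, db, sg, List.cons_append] at h ⊢ <;> norm_num at h ⊢ <;> linarith

theorem oc (w : List Bool) : ∀ f : List Bool → ℚ, dd (db f) w = db (dd f) w := by
  induction w with
  | nil => intro f; simp [dd, db]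
  | cons b w ih =>
    intro f
    simp only [dd, db]
    rw [dd_add, dd_mul, db_add, db_mul, ih]
    ring

theorem oz (w : List Bool) : ∀ f : List Bool → ℚ, zin (dd f) w = dd (zin f) w - d2 f w := by
  induction w with
  | nil => intro f; simp [dd, d2, zin, ins, sg]
  | cons b w ih =>
    intro f
    have h := ih fun v => f (b :: v)
    have e1 : dd (zin fun v => f (b :: v)) w =
        dd (ins false fun v => f (b :: v)) w + dd (ins true fun v => f (b :: v)) w := by
      rw [← dd_add]
      rfl
    rw [e1] at h
    have e2 : dd (zin f) (b :: w) = dd (ins false f) (b :: w) + dd (ins true f) (b :: w) := by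
      rw [← dd_add]
      rfl
    rw [e2]
    simp only [zin, dd, d2, ins] at h ⊢
    rw [ins_add, ins_add, ins_mul, ins_mul, dd_add, dd_add]
    have e3 : sg false = 1 := rfl
    have e4 : sg true = -1 := rfl
    rw [e3, e4]
    linarith

theorem o2 (w : List Bool) : ∀ f : List Bool → ℚ, d2 (dd f) w = dd (d2 f) w := by
  induction w with
  | nil => intro f; simp [dd, d2]
  | cons b w ih =>
    intro f
    have e3 : sg false = 1 := rfl
    have e4 : sg true = -1 := rfl
    simp only [dd, d2, e3, e4]
    rw [d2_add, d2_mul, dd_add, dd_mul, dd_add, ih]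
    ring

theorem dd_app (b : Bool) (w : List Bool) : ∀ f : List Bool → ℚ,
    dd f (w ++ [b]) = dd (fun v => f (v ++ [b])) w + sg b * f (w ++ [false, true]) := by
  induction w with
  | nil => intro f; simp [dd]
  | cons c w ih =>
    intro f
    simp only [List.cons_append, dd]
    rw [ih]
    ring

theorem ins_app (a b : Bool) (w : List Bool) : ∀ f : List Bool → ℚ,
    ins a f (w ++ [b]) = ins a (fun v => f (v ++ [b])) w + f (w ++ [b, a]) := by
  induction w with
  | nil => intro f; simp [ins]
  | cons c w ih =>
    intro f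
    simp only [List.cons_append, ins]
    rw [ih]
    ring

theorem orv (w : List Bool) : ∀ f : List Bool → ℚ,
    db f w = dd (fun v => f v.reverse) w.reverse := by
  induction w with
  | nil => intro f; simp [dd, db]
  | cons b w ih =>
    intro f
    rw [List.reverse_cons, dd_app, db, ih]
    simp [add_comm]

theorem orr (a : Bool) (w : List Bool) : ∀ f : List Bool → ℚ,
    ins a f w = ins a (fun v => f v.reverse) w.reverse := by
  induction w with
  | nil => intro f; simp [ins]
  | cons b w ih =>
    intro f
    rw [List.reverse_cons, ins_app, ins, ih]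
    simp [add_comm]

end OPAM

theorem specOpA : SpecOpA where
  ob f w := OPAM.ob w f
  oc f w := OPAM.oc w f
  oz f w := OPAM.oz w f
  o2 f w := OPAM.o2 w f
  orv f w := OPAM.orv w f
  orr a f w := OPAM.orr a w f

end MP154526.Hof
end

section
/-!
# Module OPB: operator identities B
-/
set_option autoImplicit false

namespace MP154526.Hof

open Finset MP154526.Bound MP154526.Top

namespace OPBM

theorem xy_zero (w : List Bool) : xy 0 w = true :: w := rfl

theorem xy_succ (i : ℕ) (w : List Bool) : xy (i + 1) w = false :: xy i w := rfl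

theorem xy_one (w : List Bool) : xy 1 w = false :: true :: w := rfl

theorem sg_false : sg false = 1 := rfl

theorem sg_true : sg true = -1 := rfl

/-- `f(x ⧢ x^i y w)` -/
theorem ins_xy (i : ℕ) (f : List Bool → ℚ) (w : List Bool) :
    ins false f (xy i w) = ((i : ℚ) + 1) * f (xy (i + 1) w) + ins false (fun v => f (xy i v)) w := by
  induction i generalizing f with
  | zero =>
    rw [xy_zero, ins, xy_one]
    simp only [xy_zero]
    push_cast
    ring
  | succ i ih =>
    rw [xy_succ i w, ins, ih]
    simp only [xy_succ]
    push_cast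
    ring

theorem ox (f : List Bool → ℚ) (w : List Bool) :
    ins false (dd f) w = dd (ins false f) w + jj 1 f w := by
  induction w generalizing f with
  | nil => simp [ins, dd, jj, ze, sg, xy_one]
  | cons b w ih =>
    have h := ih (fun v => f (b :: v))
    have h1 : ins false (fun v => dd f (b :: v)) w =
        sg b * ins false (fun v => f (false :: true :: v)) w +
          ins false (dd (fun v => f (b :: v))) w := by
      simp only [dd]
      rw [ins_add, ins_mul]
    have h2 : dd (fun v => ins false f (b :: v)) w =
        dd (fun v => f (false :: b :: v)) w + dd (ins false (fun v => f (b :: v))) w := by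
      simp only [ins]
      rw [dd_add]
    have e1 : ins false (dd f) (b :: w) =
        dd f (false :: b :: w) + ins false (fun v => dd f (b :: v)) w := rfl
    have e2 : dd (ins false f) (b :: w) = sg b * ins false f (false :: true :: w) +
        dd (fun v => ins false f (b :: v)) w := rfl
    rw [e1, e2, h1, h2]
    cases b
    · simp only [ins, dd, jj, ze, sg_false, sg_true, xy_one] at h ⊢
      linear_combination h
    · simp only [ins, dd, jj, ze, sg_false, sg_true, xy_one] at h ⊢
      linear_combination h

theorem oy (f : List Bool → ℚ) (w : List Bool) : dd f w = ins true f w - jj 0 f w := by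
  induction w generalizing f with
  | nil => simp [ins, dd, jj, ze, xy_zero]
  | cons b w ih =>
    have h := ih (fun v => f (b :: v))
    cases b
    · simp only [ins, dd, jj, ze, sg_false, sg_true, xy_zero] at h ⊢
      linear_combination h
    · simp only [ins, dd, jj, ze, sg_false, sg_true, xy_zero] at h ⊢
      linear_combination h

theorem ze_comm (f : List Bool → ℚ) (w : List Bool) : ze 1 (ze 0 f) w = ze 0 (ze 1 f) w := by
  induction w generalizing f with
  | nil => rfl
  | cons b w ih =>
    have h := ih (fun v => f (b :: v))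
    cases b
    · simp only [ze] at h ⊢
      exact h
    · have h1 : ze 1 (fun v => ze 0 f (true :: v)) w =
          ze 1 (fun v => f (false :: true :: v)) w + ze 1 (fun v => f (true :: true :: v)) w +
            ze 1 (ze 0 (fun v => f (true :: v))) w := by
        simp only [ze, xy_zero]
        rw [ze_add, ze_add]
      have h2 : ze 0 (fun v => ze 1 f (true :: v)) w =
          ze 0 (fun v => f (false :: false :: true :: v)) w +
            ze 0 (fun v => f (true :: false :: true :: v)) w +
            ze 0 (ze 1 (fun v => f (true :: v))) w := by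
        simp only [ze, xy_one]
        rw [ze_add, ze_add]
      have e1 : ze 1 (ze 0 f) (true :: w) = ze 0 f (false :: xy 1 w) + ze 0 f (true :: xy 1 w) +
          ze 1 (fun v => ze 0 f (true :: v)) w := rfl
      have e2 : ze 0 (ze 1 f) (true :: w) = ze 1 f (false :: xy 0 w) + ze 1 f (true :: xy 0 w) +
          ze 0 (fun v => ze 1 f (true :: v)) w := rfl
      rw [e1, e2, h1, h2]
      simp only [ze, xy_zero, xy_one] at h ⊢
      linear_combination h

theorem oj (f : List Bool → ℚ) (w : List Bool) : jj 1 (jj 0 f) w = jj 0 (jj 1 f) w := by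
  have h1 : ze 1 (jj 0 f) w = ze 1 (fun v => f (true :: v)) w + ze 1 (ze 0 f) w := by
    have : jj 0 f = fun v => f (true :: v) + ze 0 f v := rfl
    rw [this, ze_add]
  have h2 : ze 0 (jj 1 f) w = ze 0 (fun v => f (false :: true :: v)) w + ze 0 (ze 1 f) w := by
    have : jj 1 f = fun v => f (false :: true :: v) + ze 1 f v := rfl
    rw [this, ze_add]
  have h3 := ze_comm f w
  have e1 : jj 1 (jj 0 f) w = jj 0 f (xy 1 w) + ze 1 (jj 0 f) w := rfl
  have e2 : jj 0 (jj 1 f) w = jj 1 f (xy 0 w) + ze 0 (jj 1 f) w := rfl
  rw [e1, e2, h1, h2]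
  simp only [jj, ze, xy_zero, xy_one] at h3 ⊢
  linear_combination h3

theorem ok_ze (i : ℕ) (f : List Bool → ℚ) (w : List Bool) :
    ins false (ze i f) w = ze i (ins false f) w - ((i : ℚ) + 1) * ze (i + 1) f w := by
  induction w generalizing f with
  | nil => simp [ins, ze]
  | cons b w ih =>
    have h := ih (fun v => f (b :: v))
    cases b
    · have h1 : ins false (fun v => ze i f (false :: v)) w =
          ins false (ze i (fun v => f (false :: v))) w := by
        simp only [ze]
      have h2 : ze i (fun v => ins false f (false :: v)) w =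
          ze i (fun v => f (false :: false :: v)) w +
            ze i (ins false (fun v => f (false :: v))) w := by
        simp only [ins]
        rw [ze_add]
      have e1 : ins false (ze i f) (false :: w) =
          ze i f (false :: false :: w) + ins false (fun v => ze i f (false :: v)) w := rfl
      have e2 : ze i (ins false f) (false :: w) = ze i (fun v => ins false f (false :: v)) w := rfl
      rw [e1, e2, h1, h2]
      simp only [ze]
      linear_combination h
    · have h1 : ins false (fun v => ze i f (true :: v)) w =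
          ins false (fun v => f (false :: xy i v)) w + ins false (fun v => f (true :: xy i v)) w +
            ins false (ze i (fun v => f (true :: v))) w := by
        simp only [ze]
        rw [ins_add, ins_add]
      have h2 : ze i (fun v => ins false f (true :: v)) w =
          ze i (fun v => f (false :: true :: v)) w +
            ze i (ins false (fun v => f (true :: v))) w := by
        simp only [ins]
        rw [ze_add]
      have h3 := ins_xy i (fun v => f (false :: v)) w
      have h4 := ins_xy i (fun v => f (true :: v)) w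
      have e1 : ins false (ze i f) (true :: w) =
          ze i f (false :: true :: w) + ins false (fun v => ze i f (true :: v)) w := rfl
      have e2 : ze i (ins false f) (true :: w) = ins false f (false :: xy i w) +
          ins false f (true :: xy i w) + ze i (fun v => ins false f (true :: v)) w := rfl
      rw [e1, e2, h1, h2]
      simp only [ze, ins, h3, h4]
      linear_combination h

theorem ok (i : ℕ) (f : List Bool → ℚ) (w : List Bool) :
    ins false (jj i f) w = jj i (ins false f) w - ((i : ℚ) + 1) * jj (i + 1) f w := by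
  have h1 : ins false (jj i f) w = ins false (fun v => f (xy i v)) w + ins false (ze i f) w := by
    have : jj i f = fun v => f (xy i v) + ze i f v := rfl
    rw [this, ins_add]
  have h2 := ok_ze i f w
  have h3 := ins_xy i f w
  rw [h1, jj, jj, h3]
  linear_combination h2

end OPBM

theorem specOpB : SpecOpB := ⟨OPBM.ox, OPBM.oy, OPBM.oj, OPBM.ok⟩

end MP154526.Hof
end

section
/-!
# PP: the extension kills shuffles and half squares (from the products only)
-/
set_option autoImplicit false

namespace MP154526.Hof

open Finset MP154526.Bound MP154526.Top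

namespace PPM

open MP154526.Top.Pass1

/-- the extension kills shuffles -/
theorem ext_sh (n : ℕ) (φ : List Bool → ℤ) (hK : KD n φ) (u v : List Bool) (hu : u ≠ [])
    (hv : v ≠ []) (hEu : EndY u) (hEv : EndY v) (hn : u.length + v.length = n) :
    shs (ext φ) u v = 0 := by
  refine reduce φ v u.length ?_ u hu rfl hEu
  intro u' hu' hE'
  rw [shs_comm]
  refine reduce φ (false :: u') v.length ?_ v hv rfl hEv
  intro v' hv' hE''
  rw [shs_comm]
  have h1 := hK.prod (u'.length + 1) (v'.length + 1) (by omega) (by omega) (by omega)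
    (wd (false :: u')) (wd_mem u' hE') (wd (false :: v')) (wd_mem v' hE'')
  rw [shuffle_wd, lin_sh] at h1
  have h2 : shs φ (false :: u') (false :: v') = 0 := by exact_mod_cast h1
  rw [shs_cons_cons] at h2 ⊢
  have h3 : (fun l => ext φ (false :: l)) = fun l => φ (false :: l) := by
    funext l
    exact ext_false φ l
  rw [h3]
  exact h2

/-- the extension kills half squares -/
theorem ext_half (n : ℕ) (φ : List Bool → ℤ) (hK : KD n φ) (a : Bool) (u : List Bool)
    (hE : EndY (a :: u)) (hn : 2 * (u.length + 1) = n) :
    shs (fun l => ext φ (a :: l)) u (a :: u) = 0 := by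
  have h1 := ext_sh n φ hK (a :: u) (a :: u) (by simp) (by simp) hE hE
    (by simp only [List.length_cons]; omega)
  rw [shs_cons_cons, shs_comm _ (a :: u) u] at h1
  omega

end PPM

/-- PP -/
theorem specPP : SpecPP := by
  intro n φ _ hK
  constructor
  · intro u v hu hv hEu hEv hn
    rw [Pass1.cast_shs, PPM.ext_sh n φ hK u v hu hv hEu hEv hn]
    simp
  · intro a u hE hn
    rw [Pass1.cast_shs (fun l => ext φ (a :: l)), PPM.ext_half n φ hK a u hE hn]
    simp

end MP154526.Hof
end

section
/-!
# RS: the raising operators on lists of exponents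
-/
set_option autoImplicit false

namespace MP154526.Hof

open Finset MP154526.Bound MP154526.Top

namespace RSM

theorem rs_add (p : ℕ → ℚ) (r : ℕ) (f g : List ℕ → ℚ) (K : List ℕ) :
    rs p r (fun L => f L + g L) K = rs p r f K + rs p r g K := by
  induction K generalizing f g with
  | nil => simp [rs]
  | cons k K ih => simp only [rs]; rw [ih]; ring

theorem rs_mul (p : ℕ → ℚ) (r : ℕ) (c : ℚ) (f : List ℕ → ℚ) (K : List ℕ) :
    rs p r (fun L => c * f L) K = c * rs p r f K := by
  induction K generalizing f with
  | nil => simp [rs]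
  | cons k K ih => simp only [rs]; rw [ih]; ring

theorem rs_neg (p : ℕ → ℚ) (r : ℕ) (f : List ℕ → ℚ) (K : List ℕ) :
    rs p r (fun L => -f L) K = -rs p r f K := by
  have := rs_mul p r (-1) f K
  simpa using this

theorem rs_sub (p : ℕ → ℚ) (r : ℕ) (f g : List ℕ → ℚ) (K : List ℕ) :
    rs p r (fun L => f L - g L) K = rs p r f K - rs p r g K := by
  have := rs_add p r f (fun L => -g L) K
  rw [rs_neg] at this
  simpa [sub_eq_add_neg] using this

theorem rs_app (p : ℕ → ℚ) (r : ℕ) (f : List ℕ → ℚ) (K : List ℕ) (k : ℕ) :
    rs p r f (K ++ [k]) = rs p r (fun L => f (L ++ [k])) K + p k * f (K ++ [k + r]) := by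
  induction K generalizing f with
  | nil => simp [rs]
  | cons l K ih =>
    simp only [List.cons_append, rs]
    rw [ih]
    ring

theorem rs_rev (p : ℕ → ℚ) (r : ℕ) (f : List ℕ → ℚ) (K : List ℕ) :
    rs p r f K.reverse = rs p r (fun L => f L.reverse) K := by
  induction K generalizing f with
  | nil => simp [rs]
  | cons k K ih =>
    rw [List.reverse_cons, rs_app, ih]
    simp only [rs, List.reverse_cons]
    ring

theorem rs_comm (p : ℕ → ℚ) (r : ℕ) (q : ℕ → ℚ) (s : ℕ) (f : List ℕ → ℚ) (K : List ℕ) :
    rs p r (rs q s f) K - rs q s (rs p r f) K =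
      rs (fun k => p k * q (k + r) - q k * p (k + s)) (r + s) f K := by
  induction K generalizing f with
  | nil => simp [rs]
  | cons k K ih =>
    have e1 : rs p r (fun L => rs q s f (k :: L)) K =
        q k * rs p r (fun L => f ((k + s) :: L)) K +
          rs p r (rs q s (fun L => f (k :: L))) K := by
      have : (fun L => rs q s f (k :: L)) =
          fun L => q k * f ((k + s) :: L) + rs q s (fun M => f (k :: M)) L := rfl
      rw [this, rs_add, rs_mul]
    have e2 : rs q s (fun L => rs p r f (k :: L)) K =
        p k * rs q s (fun L => f ((k + r) :: L)) K +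
          rs q s (rs p r (fun L => f (k :: L))) K := by
      have : (fun L => rs p r f (k :: L)) =
          fun L => p k * f ((k + r) :: L) + rs p r (fun M => f (k :: M)) L := rfl
      rw [this, rs_add, rs_mul]
    have h := ih (fun L => f (k :: L))
    have a1 : rs p r (rs q s f) (k :: K) =
        p k * (q (k + r) * f ((k + r + s) :: K) + rs q s (fun L => f ((k + r) :: L)) K) +
          (q k * rs p r (fun L => f ((k + s) :: L)) K +
            rs p r (rs q s (fun L => f (k :: L))) K) := by
      rw [← e1]; rfl
    have a2 : rs q s (rs p r f) (k :: K) =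
        q k * (p (k + s) * f ((k + s + r) :: K) + rs p r (fun L => f ((k + s) :: L)) K) +
          (p k * rs q s (fun L => f ((k + r) :: L)) K +
            rs q s (rs p r (fun L => f (k :: L))) K) := by
      rw [← e2]; rfl
    have a3 : rs (fun k => p k * q (k + r) - q k * p (k + s)) (r + s) f (k :: K) =
        (p k * q (k + r) - q k * p (k + s)) * f ((k + (r + s)) :: K) +
          rs (fun k => p k * q (k + r) - q k * p (k + s)) (r + s) (fun L => f (k :: L)) K := rfl
    have c1 : k + r + s = k + (r + s) := by omega
    have c2 : k + s + r = k + (r + s) := by omega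
    rw [a1, a2, a3, ← h, c1, c2]
    ring

end RSM

theorem specRs : SpecRs where
  add := RSM.rs_add
  mul := RSM.rs_mul
  app := RSM.rs_app
  rev := RSM.rs_rev
  comm := RSM.rs_comm

end MP154526.Hof
end

section
/-!
# SPN: `ℌ⁰_n` is spanned by products, relations of depth one and expanded Lyndon words
-/
set_option autoImplicit false

namespace MP154526.Hof

open Finset MP154526.Bound MP154526.Top

open _root_.MP154526.Top.Span in
theorem specSpn (hPP : SpecPP) (hTT : SpecTT) (hDSH : SpecDsh) (hF : MP154526.Top.SpecF2)
    (hA : MP154526.Top.SpecAlg) : SpecSpn := by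
  classical
  intro n hn
  set S := Submodule.span ℚ {z | ∃ i j a b, 1 ≤ i ∧ 1 ≤ j ∧ i + j = n ∧ a ∈ H0 i ∧ b ∈ H0 j ∧
      z = shuffle a b} ⊔ Submodule.span ℚ (DS1 n) ⊔
    Submodule.span ℚ {z | ∃ w, IsLyn w ∧ (expand w).length = n ∧ z = wd (expand w)} with hS
  rw [H0, Submodule.span_le]
  rintro _ ⟨w₀, hw₀, hlen, rfl⟩
  by_contra hcon
  rcases hw₀ with rfl | ⟨u₀, rfl⟩
  · simp at hlen
    omega
  have hn2 : 2 ≤ n := by
    simp at hlen
    omega
  obtain ⟨f, hf0, hfS⟩ := Submodule.exists_le_ker_of_notMem hcon
  -- the finite set of admissible words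
  set T : Finset (List Bool) :=
    (List.finite_length_eq Bool n).toFinset.filter (fun w => Adm w) with hT
  have hmemT : ∀ w, w ∈ T ↔ w.length = n ∧ Adm w := by
    intro w
    simp [hT]
  obtain ⟨φ, κ, hκ, hφ, w₁, hw₁, hodd⟩ := primitive T (fun w => f (wd w)) (false :: u₀ ++ [true])
    ((hmemT _).2 ⟨hlen, Or.inr ⟨u₀, rfl⟩⟩) hf0
  have hlin : ∀ h ∈ H0 n, f h = κ * lin φ h := by
    intro h hh
    rw [lin_eq]
    refine Submodule.span_induction (p := fun h _ => f h = κ * linM φ h) ?_ ?_ ?_ ?_ hh
    · rintro _ ⟨w, hw, hl, rfl⟩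
      rw [linM_wd]
      exact hφ w ((hmemT w).2 ⟨hl, hw⟩)
    · simp
    · intro x y _ _ hx hy
      rw [map_add, map_add, hx, hy]
      ring
    · intro a x _ hx
      rw [map_smul, map_smul, hx, smul_eq_mul, smul_eq_mul]
      ring
  have hzero : ∀ h ∈ H0 n, h ∈ S → lin φ h = 0 := by
    intro h hh hS'
    have h3 := hfS hS'
    rw [LinearMap.mem_ker, hlin h hh] at h3
    rcases mul_eq_zero.1 h3 with h4 | h4
    · exact absurd h4 hκ
    · exact h4
  have hK : KD n φ := by
    constructor
    · intro i j hi hj hij a ha b hb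
      refine hzero _ (hij ▸ hA.h0 i j a ha b hb) ?_
      exact Submodule.mem_sup_left (Submodule.mem_sup_left
        (Submodule.subset_span ⟨i, j, a, b, hi, hj, hij, ha, hb, rfl⟩))
    · intro r hr
      refine hzero r (hDSH n r hr) ?_
      exact Submodule.mem_sup_left (Submodule.mem_sup_right (Submodule.subset_span hr))
  have hP1 := hPP n φ hn2 hK
  have hP2 := hTT n φ hn2 hK
  have hLyn : ∀ w, IsLyn w → (expand w).length = n → ((ext φ (expand w) : ℤ) : ZMod 2) = 0 := by
    intro w hw hwl
    have hform : ∃ v, expand w = false :: v ∧ Adm (expand w) := by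
      have hend : ∀ u : List Bool, u ≠ [] → ∃ v, expand u = false :: v ++ [true] := by
        intro u
        induction u with
        | nil => intro h; exact absurd rfl h
        | cons a u ih =>
          intro _
          by_cases hu : u = []
          · subst hu
            cases a
            · exact ⟨[], rfl⟩
            · exact ⟨[true], rfl⟩
          · obtain ⟨v, hv⟩ := ih hu
            cases a
            · exact ⟨true :: false :: v, by simp [expand, hv]⟩
            · exact ⟨true :: true :: false :: v, by simp [expand, hv]⟩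
      obtain ⟨v, hv⟩ := hend w hw.1
      exact ⟨v ++ [true], by simpa using hv, Or.inr ⟨v, hv⟩⟩
    obtain ⟨v, hv, hadm⟩ := hform
    have h5 : lin φ (wd (expand w)) = 0 := by
      refine hzero _ (Submodule.subset_span ⟨expand w, hadm, hwl, rfl⟩) ?_
      exact Submodule.mem_sup_right (Submodule.subset_span ⟨w, hw, hwl, rfl⟩)
    rw [lin_eq, linM_wd] at h5
    have h6 : φ (expand w) = 0 := by exact_mod_cast h5
    rw [hv, ext_false, ← hv, h6]
    simp
  have hall := hF n (fun w => ((ext φ w : ℤ) : ZMod 2)) hn2 hP1.1 hP1.2 hP2 hLyn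
  obtain ⟨hl₁, hadm₁⟩ := (hmemT w₁).1 hw₁
  rcases hadm₁ with rfl | ⟨u₁, rfl⟩
  · simp at hl₁
    omega
  have h7 := hall (false :: u₁ ++ [true]) (Or.inr ⟨false :: u₁, rfl⟩) hl₁
  simp only [List.cons_append, ext_false] at h7
  exact hodd ((ZMod.intCast_zmod_eq_zero_iff_dvd _ 2).1 (by simpa using h7))

end MP154526.Hof
end

section
/-!
# T1: Theorem 1
-/
set_option autoImplicit false

namespace MP154526.Hof

open Finset MP154526.Bound MP154526.Top

namespace T1M

theorem tz_zero_len (f : List Bool → ℚ) (w : List Bool)
    (hf : ∀ v, v.length = w.length → f v = 0) : tz f w = 0 := by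
  induction w generalizing f with
  | nil => exact hf [] rfl
  | cons b w ih =>
    cases b
    · rw [tz]
      exact ih _ fun v hv => hf _ (by simp [hv])
    · rw [tz]
      refine ih _ fun v hv => ?_
      rw [hf _ (by simp [hv]), hf _ (by simp [hv]), add_zero]

end T1M

/-- THEOREM 1 -/
theorem specT1 (h1 : SpecH1) (h2 : SpecH2) (h3 : SpecH3) (h4 : SpecH4) (hTr : SpecTr)
    (hTi : SpecTi) (hS : SpecSec) : SpecT1 := by
  intro n σ c hn hc
  have hR : Rel σ (GG c) :=
    ⟨h1 n σ c hc, (h2 n σ c hc).1, (h2 n σ c hc).2, h3 n σ c hc, h4 n σ c hc⟩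
  have hZ := hTr σ (GG c) hR
  have hG : ∀ u : List Bool, u.length ≠ n - 2 → GG c u = 0 := by
    intro u hu
    refine dd_zero_len c _ fun v hv => hc.hom v ?_
    simp only [List.length_cons] at hv
    omega
  have hF : ∀ w : List Bool, w.length ≠ n - 2 → tz (GG c) w = 0 := by
    intro w hw
    exact T1M.tz_zero_len _ _ fun v hv => hG v (by rw [hv]; exact hw)
  have h5 := hS (n - 2) σ (tz (GG c)) (by omega) hc.sq hF hZ
  have h6 := hTi (GG c) h5
  intro w hf ht
  cases w with
  | nil => simp at hf
  | cons b w =>
    cases b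
    · exact hc.dx w (by simpa using ht)
    · exact h6 w (by simpa using hf)

end MP154526.Hof
end

section
/-!
# TI: the inverse change of letters
-/
set_option autoImplicit false

namespace MP154526.Hof

namespace TIM

/-- the inverse change of letters `z = x + y` -/
def tzi : (List Bool → ℚ) → List Bool → ℚ
  | f, [] => f []
  | f, false :: w => tzi (fun v => f (false :: v)) w
  | f, true :: w => tzi (fun v => f (true :: v) - f (false :: v)) w

theorem tzi_zero (f : List Bool → ℚ) (w : List Bool) (hf : ∀ v, f v = 0) : tzi f w = 0 := by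
  induction w generalizing f with
  | nil => exact hf _
  | cons b w ih =>
    cases b
    · exact ih _ fun v => hf _
    · refine ih _ fun v => ?_
      rw [hf, hf, sub_zero]

theorem tzi_zero_of_mem (F : List Bool → ℚ) (w : List Bool) (hw : false ∈ w)
    (hF : ∀ v, false ∈ v → F v = 0) : tzi F w = 0 := by
  induction w generalizing F with
  | nil => simp at hw
  | cons b w ih =>
    cases b
    · exact tzi_zero (fun v => F (false :: v)) w fun v => hF (false :: v) List.mem_cons_self
    · have hw' : false ∈ w := by simpa using hw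
      refine ih _ hw' fun v hv => ?_
      rw [hF (true :: v) (List.mem_cons_of_mem _ hv), hF (false :: v) List.mem_cons_self, sub_zero]

theorem tzi_tz (G : List Bool → ℚ) (w : List Bool) : tzi (tz G) w = G w := by
  induction w generalizing G with
  | nil => rfl
  | cons b w ih =>
    cases b
    · exact ih fun v => G (false :: v)
    · rw [tzi]
      have h : (fun v => tz G (true :: v) - tz G (false :: v)) = tz (fun v => G (true :: v)) := by
        funext v
        rw [tz, tz, tz_add]
        ring
      rw [h]
      exact ih fun v => G (true :: v)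

end TIM

theorem specTi : SpecTi := by
  intro G hG w hw
  rw [← TIM.tzi_tz G w]
  exact TIM.tzi_zero_of_mem _ _ hw hG

end MP154526.Hof
end

section
/-!
# TT: condition (T) modulo 2
-/
set_option autoImplicit false

namespace MP154526.Hof

open Finset MP154526.Bound MP154526.Top MP154526.Top.Pass2

namespace TTM

theorem stf_congr_wt {M : Type} [AddCommGroup M] (f g : List ℕ → M) (u v : List ℕ)
    (h : ∀ l, wt l = wt u + wt v → f l = g l) : stf f u v = stf g u v := by
  have h1 : stf (fun l => g l + (f l - g l)) u v = stf g u v + stf (fun l => f l - g l) u v :=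
    stf_add _ _ _ _
  have h2 : stf (fun l => f l - g l) u v = 0 :=
    stf_zero _ _ _ fun l hl => by rw [h l hl, sub_self]
  rw [h2, add_zero] at h1
  rw [← h1]
  congr 1
  funext l
  abel

end TTM

theorem specTT (hZK : SpecZK) (hNt : SpecNt) (hJs : SpecJs) (hCex : SpecCex) : SpecTT := by
  intro n φ hn hK j w hj hw hl
  have hwt : j + wt w = n := by
    unfold wt; omega
  have hr : wt (List.replicate j 0) = j := by simp [wt]
  have h1 := (hZK n φ hn hK).1
  have h2 := (hZK n φ hn hK).2
  have h3 := hNt n (fun l => cn n φ (bw l))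
    (fun w hw _ => by rw [← hJs]; exact h1 w hw)
    (fun h4 i w hw _ => by rw [← hJs]; exact h2 h4 i w hw) j w hj hw hwt
  have h4 : stf (fun l => ((ext φ (bw l) : ℤ) : ℚ)) (List.replicate j 0) w = 0 := by
    rw [← h3]
    refine TTM.stf_congr_wt _ _ _ _ fun l hl => ?_
    rw [hr, hwt] at hl
    simp only [cn]
    rw [if_pos (by rw [bw_length, hl]), (hCex n φ hn hK).2 (bw l) (endY_bw l)]
  have h5 := stf_map (Int.castAddHom ℚ) (fun l => ext φ (bw l)) (List.replicate j 0) w
  simp only [Int.coe_castAddHom] at h5
  rw [h4] at h5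
  have h6 : stf (fun l => ext φ (bw l)) (List.replicate j 0) w = 0 := by exact_mod_cast h5
  have h7 := stf_map (Int.castAddHom (ZMod 2)) (fun l => ext φ (bw l)) (List.replicate j 0) w
  simp only [Int.coe_castAddHom] at h7
  rw [stz_eq, ← h7, h6, Int.cast_zero]

end MP154526.Hof
end
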