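import Pool.Agent.Lib.MP_154526_nt.Hof.Spec
import Pool.Agent.Lib.MP_154526_nt.Hof.TT
import Pool.Agent.Lib.MP_154526_nt.Hof.H4

section
/-!
# NT: Newton's identity for the stuffle powers of `y`
-/
set_option autoImplicit false

namespace MP154526.Hof.NTM

open MP154526.Top.Pass2

/-- `S(i, m) = ∑_a y^a z_{i+1} y^{m-a}` -/
def sI (i : ℕ) : ℕ → (List ℕ → ℚ) → ℚ
  | 0, f => f [i]
  | m + 1, f => f (i :: List.replicate (m + 1) 0) + sI i m (fun l => f (0 :: l))

theorem sI_zero (m : ℕ) (f : List ℕ → ℚ) :
    sI 0 m f = ((m : ℚ) + 1) * f (List.replicate (m + 1) 0) := by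
  induction m generalizing f with
  | zero => simp [sI]
  | succ m ih =>
    rw [sI, ih, ← List.replicate_succ]
    push_cast
    ring

theorem stf_sI_zero (i : ℕ) (f : List ℕ → ℚ) :
    stf f [i] (List.replicate 0 0) = sI i 0 f := by
  simp [sI]

theorem stf_sI_succ (i m : ℕ) (f : List ℕ → ℚ) :
    stf f [i] (List.replicate (m + 1) 0) = sI i (m + 1) f + sI (i + 1) m f := by
  induction m generalizing f with
  | zero =>
    rw [List.replicate_succ, stf_cons_cons, stf_nil_left, stf_nil_left, stf_sI_zero]
    simp only [sI]
    simp
  | succ m ih =>
    rw [List.replicate_succ, stf_cons_cons, stf_nil_left, stf_nil_left, ih]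
    have e1 : sI i (m + 1 + 1) f = f (i :: List.replicate (m + 1 + 1) 0) +
        sI i (m + 1) (fun l => f (0 :: l)) := rfl
    have e2 : sI (i + 1) (m + 1) f = f ((i + 1) :: List.replicate (m + 1) 0) +
        sI (i + 1) m (fun l => f (0 :: l)) := rfl
    rw [e1, e2, ← List.replicate_succ]
    simp only [add_zero]
    ring

theorem sI_vanish (j : ℕ) (F : List ℕ → ℚ)
    (h : ∀ i m, i + m + 1 = j → stf F [i] (List.replicate m 0) = 0) :
    ∀ m i, i + m + 1 = j → sI i m F = 0 := by
  intro m
  induction m with
  | zero =>
    intro i hi
    rw [← stf_sI_zero]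
    exact h i 0 hi
  | succ m ih =>
    intro i hi
    have h1 := h i (m + 1) hi
    rw [stf_sI_succ, ih (i + 1) (by omega), add_zero] at h1
    exact h1

theorem stf_zero_nz (g : List ℕ → ℚ) (u v : List ℕ) (hv : ∃ a ∈ v, a ≠ 0)
    (h : ∀ l, (∃ a ∈ l, a ≠ 0) → wt l = wt u + wt v → g l = 0) : stf g u v = 0 := by
  induction u, v using stf_induct generalizing g with
  | h0 W =>
    rw [stf_nil_left]
    exact h W hv (by simp)
  | h1 a σ => simp at hv
  | h2 a σ c W ha hb hc =>
    rw [stf_cons_cons]
    have e1 : stf (fun l => g (a :: l)) σ (c :: W) = 0 := by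
      refine ha _ hv fun l ⟨x, hx, hx0⟩ hl => h _ ⟨x, List.mem_cons_of_mem _ hx, hx0⟩ ?_
      simp only [wt_cons] at hl ⊢
      omega
    have e3 : stf (fun l => g ((a + c + 1) :: l)) σ W = 0 := by
      refine stf_zero _ _ _ fun l hl => h _ ⟨a + c + 1, List.mem_cons_self, by omega⟩ ?_
      simp only [wt_cons] at hl ⊢
      omega
    have e2 : stf (fun l => g (c :: l)) (a :: σ) W = 0 := by
      by_cases hc0 : c = 0
      · obtain ⟨x, hx, hx0⟩ := hv
        have hxW : x ∈ W := by
          rcases List.mem_cons.1 hx with h' | h'
          · exact absurd (h'.trans hc0) hx0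
          · exact h'
        refine hb _ ⟨x, hxW, hx0⟩ fun l ⟨y, hy, hy0⟩ hl =>
          h _ ⟨y, List.mem_cons_of_mem _ hy, hy0⟩ ?_
        simp only [wt_cons] at hl ⊢
        omega
      · refine stf_zero _ _ _ fun l hl => h _ ⟨c, List.mem_cons_self, hc0⟩ ?_
        simp only [wt_cons] at hl ⊢
        omega
    rw [e1, e2, e3]
    simp

theorem wt_ge_two (w : List ℕ) (hw : ∃ a ∈ w, a ≠ 0) : 2 ≤ wt w := by
  induction w with
  | nil => simp at hw
  | cons c w ih =>
    obtain ⟨x, hx, hx0⟩ := hw
    rw [wt_cons]
    rcases List.mem_cons.1 hx with h' | h'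
    · omega
    · have := ih ⟨x, h', hx0⟩
      omega

end MP154526.Hof.NTM

namespace MP154526.Hof

open MP154526.Top.Pass2 NTM

theorem specNt : SpecNt := by
  intro n f h0 h1 j w hj hw hn
  have hr : ∀ m, wt (List.replicate m 0) = m := fun m => by simp [wt]
  have key : ∀ i m, i + m + 1 = j →
      stf (fun l => stf f l w) [i] (List.replicate m 0) = 0 := by
    intro i m him
    rw [stf_assoc']
    refine stf_zero_nz _ _ _ hw fun l hl hwt => ?_
    rw [hr] at hwt
    rcases i with _ | i
    · exact h0 l hl (by omega)
    · have h2 := wt_ge_two w hw
      refine h1 (by omega) i l ?_ (by omega)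
      rintro rfl
      simp at hl
  obtain ⟨j, rfl⟩ : ∃ j', j = j' + 1 := ⟨j - 1, by omega⟩
  have h3 := sI_vanish (j + 1) _ key j 0 (by omega)
  rw [sI_zero] at h3
  have h4 : ((j : ℚ) + 1) ≠ 0 := by positivity
  rcases mul_eq_zero.1 h3 with h | h
  · exact absurd h h4
  · exact h

end MP154526.Hof
end

section
/-!
# SEC: sectors (induction on the number of letters `z`)
-/
set_option autoImplicit false

namespace MP154526.Hof.SECM

open MP154526.Bound MP154526.Top MP154526.Hof

theorem dp_zero_of {P : List Bool → Prop} (f : List Bool → ℚ) (w : List Bool)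
    (hf : ∀ v, P v → f v = 0) (hP : ∀ u v, w = u ++ false :: v → P (u ++ false :: true :: v)) :
    dp f w = 0 := by
  induction w generalizing f P with
  | nil => rfl
  | cons b w ih =>
    have key : dp (fun v => f (b :: v)) w = 0 := by
      refine ih (P := fun v => P (b :: v)) (fun v => f (b :: v)) (fun v hv => hf _ hv) ?_
      intro u v h
      exact hP (b :: u) v (by rw [h]; rfl)
    cases b
    · rw [dp, key, hf (false :: true :: w) (hP [] w rfl), add_zero]
    · rw [dp, key]

theorem ddz_eq_dp {P : List Bool → Prop} (f : List Bool → ℚ) (w : List Bool)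
    (hf : ∀ v, P v → f v = 0) (hP : ∀ u v, w = u ++ false :: v → P (u ++ false :: false :: v)) :
    ddz f w = dp f w := by
  induction w generalizing f P with
  | nil => rfl
  | cons b w ih =>
    have key : ddz (fun v => f (b :: v)) w = dp (fun v => f (b :: v)) w := by
      refine ih (P := fun v => P (b :: v)) (fun v => f (b :: v)) (fun v hv => hf _ hv) ?_
      intro u v h
      exact hP (b :: u) v (by rw [h]; rfl)
    cases b
    · rw [ddz, dp, key, hf (false :: false :: w) (hP [] w rfl), sub_zero]
    · rw [ddz, dp, key]

theorem dp_neg (f : List Bool → ℚ) (w : List Bool) : dp (fun v => -f v) w = -dp f w := by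
  have := dp_mul (-1) f w
  simpa using this

theorem dp_sub (f g : List Bool → ℚ) (w : List Bool) :
    dp (fun v => f v - g v) w = dp f w - dp g w := by
  have := dp_add f (fun v => -g v) w
  rw [dp_neg] at this
  simpa [sub_eq_add_neg] using this

theorem dp_congr (f g : List Bool → ℚ) (w : List Bool)
    (h : ∀ v : List Bool, v.length = w.length + 1 → v.count true = w.count true + 1 → f v = g v) :
    dp f w = dp g w := by
  have h1 := dp_zero_of (P := fun v => v.length = w.length + 1 ∧ v.count true = w.count true + 1)
    (fun v => f v - g v) w (fun v hv => by rw [h v hv.1 hv.2, sub_self]) (by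
      intro u v hw
      subst hw
      constructor
      · simp
        omega
      · simp [List.count_append, add_assoc])
  rw [dp_sub] at h1
  linarith

theorem ins_congr (a : Bool) (f g : List Bool → ℚ) (w : List Bool)
    (h : ∀ v : List Bool, v.length = w.length + 1 →
      v.count true = w.count true + (if a then 1 else 0) → f v = g v) :
    ins a f w = ins a g w := by
  have h1 := ins_zero_of (P := fun v => v.length = w.length + 1 ∧
      v.count true = w.count true + (if a then 1 else 0)) a
    (fun v => f v - g v) w (fun v hv => by rw [h v hv.1 hv.2, sub_self]) (by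
      intro u v hw
      subst hw
      constructor
      · simp
        omega
      · cases a <;> simp [List.count_append, add_assoc])
  rw [ins_sub] at h1
  linarith

theorem dp_zero (f : List Bool → ℚ) (w : List Bool)
    (h : ∀ v : List Bool, v.length = w.length + 1 → v.count true = w.count true + 1 → f v = 0) :
    dp f w = 0 := by
  refine dp_zero_of (P := fun v => v.length = w.length + 1 ∧ v.count true = w.count true + 1)
    f w (fun v hv => h v hv.1 hv.2) (by
      intro u v hw
      subst hw
      constructor
      · simp
        omega
      · simp [List.count_append, add_assoc])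

theorem ins_zero (a : Bool) (f : List Bool → ℚ) (w : List Bool)
    (h : ∀ v : List Bool, v.length = w.length + 1 →
      v.count true = w.count true + (if a then 1 else 0) → f v = 0) :
    ins a f w = 0 := by
  refine ins_zero_of (P := fun v => v.length = w.length + 1 ∧
      v.count true = w.count true + (if a then 1 else 0)) a
    f w (fun v hv => h v hv.1 hv.2) (by
      intro u v hw
      subst hw
      constructor
      · simp
        omega
      · cases a <;> simp [List.count_append, add_assoc])

/-- the value on powers of `x` -/
theorem ins_rep (f : List Bool → ℚ) (k : ℕ) :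
    ins false f (List.replicate k false) = ((k : ℚ) + 1) * f (List.replicate (k + 1) false) := by
  induction k generalizing f with
  | zero => simp [ins]
  | succ k ih =>
    rw [List.replicate_succ, ins, ih]
    rw [← List.replicate_succ, ← List.replicate_succ]
    push_cast
    ring

theorem eq_rep {w : List Bool} (h : w.count true = 0) : w = List.replicate w.length false := by
  rw [List.eq_replicate_iff]
  refine ⟨rfl, fun b hb => ?_⟩
  rw [List.count_eq_zero] at h
  cases b
  · rfl
  · exact absurd hb h

theorem count_lt {w : List Bool} (h : false ∈ w) : w.count true < w.length := by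
  have h1 : w.count true + w.count false = w.length := by
    induction w with
    | nil => simp
    | cons b w ih =>
      rcases List.mem_cons.mp h with h2 | h2
      · subst h2
        by_cases h3 : false ∈ w
        · have := ih h3
          simp
          omega
        · have h4 : w.count false = 0 := List.count_eq_zero.mpr h3
          have h5 : w.count true = w.length := by
            rw [List.count_eq_length]
            intro b hb
            cases b
            · exact absurd hb h3
            · rfl
          simp [h4, h5]
      · have := ih h2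
        cases b <;> simp <;> omega
  have h2 : 0 < w.count false := List.count_pos_iff.mpr h
  omega

theorem mem_of_lt {w : List Bool} (h : w.count true < w.length) : false ∈ w := by
  by_contra h3
  have h5 : w.count true = w.length := by
    rw [List.count_eq_length]
    intro b hb
    cases b
    · exact absurd hb h3
    · rfl
  omega

/-- the part of `F` in one sector -/
def Fj (m j : ℕ) (F : List Bool → ℚ) (w : List Bool) : ℚ :=
  if w.length = m ∧ w.count true = j then F w else 0

theorem Fj_pos {m j : ℕ} {F : List Bool → ℚ} {w : List Bool} (h1 : w.length = m)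
    (h2 : w.count true = j) : Fj m j F w = F w := if_pos ⟨h1, h2⟩

theorem Fj_neg {m j : ℕ} {F : List Bool → ℚ} {w : List Bool}
    (h : ¬ (w.length = m ∧ w.count true = j)) : Fj m j F w = 0 := if_neg h

theorem dp_Fj {m j : ℕ} {F : List Bool → ℚ}
    (hI : ∀ w : List Bool, false ∈ w → w.count true = j → F w = 0) (w : List Bool)
    (h1 : w.length + 1 = m) (h2 : w.count true = j) : dp (Fj m (j + 1) F) w = ddz F w := by
  have h3 : dp (Fj m (j + 1) F) w = dp F w :=
    dp_congr _ _ w (fun v hv hc => Fj_pos (by omega) (by omega))
  rw [h3]
  symm
  refine ddz_eq_dp (P := fun v => false ∈ v ∧ v.count true = j) F w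
    (fun v hv => hI v hv.1 hv.2) ?_
  intro u v hw
  subst hw
  refine ⟨by simp, ?_⟩
  rw [← h2]
  simp [List.count_append]

theorem dp_Fj' {m j : ℕ} {F : List Bool → ℚ} (w : List Bool)
    (h : ¬ (w.length + 1 = m ∧ w.count true = j)) : dp (Fj m (j + 1) F) w = 0 :=
  dp_zero _ w (fun v hv hc => Fj_neg (fun h1 => h ⟨by omega, by omega⟩))

theorem ins_Fj {m j : ℕ} {F : List Bool → ℚ} (a : Bool) (w : List Bool) (h1 : w.length + 1 = m)
    (h2 : w.count true + (if a then 1 else 0) = j) : ins a (Fj m j F) w = ins a F w :=
  ins_congr a _ _ w (fun v hv hc => Fj_pos (by omega) (by omega))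

theorem ins_Fj' {m j : ℕ} {F : List Bool → ℚ} (a : Bool) (w : List Bool)
    (h : ¬ (w.length + 1 = m ∧ w.count true + (if a then 1 else 0) = j)) :
    ins a (Fj m j F) w = 0 :=
  ins_zero a _ w (fun v hv hc => Fj_neg (fun h1 => h ⟨by omega, by omega⟩))

theorem Mp_Fj {m j : ℕ} {F : List Bool → ℚ}
    (hI : ∀ w : List Bool, false ∈ w → w.count true = j → F w = 0) (w : List Bool)
    (h1 : w.length = m) (h2 : w.count true = j + 1) : Mp (Fj m (j + 1) F) w = Mz F w := by
  rcases w with _ | ⟨b, u⟩
  · rfl
  · cases b
    · rw [Mp, Mz, Fj_pos h1 h2]
    · have h3 : u.count true = j := by simpa using h2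
      have h4 : u.length + 1 = m := by simpa using h1
      rw [Mp, Mz, Fj_pos h1 h2, Fj_pos (by simpa using h1) (by simp [List.count_append, h3]),
        dp_Fj hI u h4 h3]

theorem Mp_Fj' {m j : ℕ} {F : List Bool → ℚ} (w : List Bool)
    (h : ¬ (w.length = m ∧ w.count true = j + 1)) : Mp (Fj m (j + 1) F) w = 0 := by
  rcases w with _ | ⟨b, u⟩
  · rfl
  · cases b
    · rw [Mp, Fj_neg h]
    · rw [Mp, Fj_neg h, Fj_neg, dp_Fj']
      · simp
      · intro h1
        exact h ⟨by simpa using h1.1, by simpa using h1.2⟩
      · intro h1
        refine h ⟨by simpa using h1.1, ?_⟩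
        have h2 := h1.2
        simp [List.count_append] at h2
        simp [h2]

theorem Vp_Fj {m j : ℕ} {F : List Bool → ℚ}
    (hI : ∀ w : List Bool, false ∈ w → w.count true = j → F w = 0) (w : List Bool)
    (h1 : w.length = m) (h2 : w.count true = j + 1) : Vp (Fj m (j + 1) F) w = Vz F w := by
  rcases w with _ | ⟨b, u⟩
  · rfl
  · cases b
    · rfl
    · have h3 : u.count true = j := by simpa using h2
      have h4 : u.length + 1 = m := by simpa using h1
      rw [Vp, Vz, Fj_pos (by simpa using h1) (by simp [List.count_append, h3]),
        dp_Fj hI u h4 h3, ins_Fj true u h4 (by simp [h3])]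

theorem Vp_Fj' {m j : ℕ} {F : List Bool → ℚ} (w : List Bool)
    (h : ¬ (w.length = m ∧ w.count true = j + 1)) : Vp (Fj m (j + 1) F) w = 0 := by
  rcases w with _ | ⟨b, u⟩
  · rfl
  · cases b
    · rfl
    · rw [Vp, Fj_neg, dp_Fj', ins_Fj']
      · simp
      · intro h1
        exact h ⟨by simpa using h1.1, by simpa using h1.2⟩
      · intro h1
        exact h ⟨by simpa using h1.1, by simpa using h1.2⟩
      · intro h1
        refine h ⟨by simpa using h1.1, ?_⟩
        have h2 := h1.2
        simp [List.count_append] at h2
        simp [h2]

end MP154526.Hof.SECM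

namespace MP154526.Hof

open SECM

/-- SEC (from HOM). -/
theorem specSec (hHOM : SpecHom) : SpecSec := by
  intro m σ F hm hσ hF hR
  suffices H : ∀ j : ℕ, ∀ w : List Bool, false ∈ w → w.count true = j → F w = 0 from
    fun w hw => H _ w hw rfl
  intro j
  induction j with
  | zero =>
    intro w hw hc
    by_cases hl : w.length = m
    · obtain ⟨k, rfl⟩ : ∃ k, m = k + 2 := ⟨m - 2, by omega⟩
      rw [eq_rep hc, hl]
      have h1 := hR.k2a (List.replicate k false)
      rw [← List.replicate_succ, ins_rep] at h1
      rcases mul_eq_zero.mp h1 with h2 | h2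
      · exfalso
        have h3 : (0 : ℚ) ≤ ((k + 1 : ℕ) : ℚ) := Nat.cast_nonneg _
        linarith
      · exact h2
    · exact hF w hl
  | succ j ih =>
    intro w hw hc
    by_cases hl : w.length = m
    · have hjm : j + 1 < m := by
        have := count_lt hw
        omega
      have hP : RelP σ (Fj m (j + 1) F) := by
        refine ⟨?_, ?_, ?_, ?_, ?_, ?_⟩
        · intro v hv
          have h1 : v.length = m ∧ v.count true = j + 1 := by
            by_contra h2
            exact hv (Fj_neg h2)
          refine ⟨mem_of_lt (by omega), ?_⟩
          rw [← List.count_pos_iff]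
          omega
        · intro b
          by_cases h : (false :: b).length + 1 = m ∧ (false :: b).count true = j
          · rw [dp_Fj ih _ h.1 h.2, hR.k1]
          · exact dp_Fj' _ h
        · intro b
          by_cases h : (false :: b).length + 1 = m ∧
              (false :: b).count true + (if false then 1 else 0) = j + 1
          · rw [ins_Fj false _ h.1 h.2, hR.k2a]
          · exact ins_Fj' false _ h
        · intro b
          by_cases h : (true :: false :: b).length + 1 = m ∧
              (true :: false :: b).count true + (if false then 1 else 0) = j + 1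
          · rw [ins_Fj false _ h.1 h.2, hR.k2b]
          · exact ins_Fj' false _ h
        · intro v
          by_cases h : v.length = m ∧ v.count true = j + 1
          · rw [Mp_Fj ih v h.1 h.2, Mp_Fj ih v.reverse (by simpa using h.1) (by simpa using h.2),
              hR.k3]
          · rw [Mp_Fj' v h, Mp_Fj' v.reverse (by simpa using h), mul_zero]
        · intro v
          by_cases h : v.length = m ∧ v.count true = j + 1
          · rw [Vp_Fj ih v h.1 h.2, Vp_Fj ih v.reverse (by simpa using h.1) (by simpa using h.2),
              hR.k4]
          · rw [Vp_Fj' v h, Vp_Fj' v.reverse (by simpa using h), mul_zero]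
      have h1 := hHOM σ _ hσ hP w
      rwa [Fj_pos hl hc] at h1
    · exact hF w hl

end MP154526.Hof
end

section
/-!
# Module TR: change of letters, `y = z - x`
-/
set_option autoImplicit false

namespace MP154526.Hof

open Finset MP154526.Bound MP154526.Top

namespace TRM

theorem tz_false (f : List Bool → ℚ) (w : List Bool) :
    tz f (false :: w) = tz (fun v => f (false :: v)) w := rfl

theorem tz_true (f : List Bool → ℚ) (w : List Bool) :
    tz f (true :: w) = tz (fun v => f (false :: v)) w + tz (fun v => f (true :: v)) w :=
  tz_add _ _ w

/-- `tz` of a function that vanishes on words of the right length -/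
theorem tz_zero_len (f : List Bool → ℚ) (w : List Bool)
    (hf : ∀ v, v.length = w.length → f v = 0) : tz f w = 0 := by
  induction w generalizing f with
  | nil => exact hf [] rfl
  | cons b w ih =>
    cases b
    · exact ih _ fun v hv => hf _ (by simp [hv])
    · rw [tz_true, ih _ fun v hv => hf _ (by simp [hv]), ih _ fun v hv => hf _ (by simp [hv]),
        add_zero]

theorem tz_congr (f g : List Bool → ℚ) (w : List Bool)
    (h : ∀ v, v.length = w.length → f v = g v) : tz f w = tz g w := by
  have h1 : tz (fun v => f v + (-1) * g v) w = 0 := by
    apply tz_zero_len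
    intro v hv
    rw [h v hv]
    ring
  rw [tz_add, tz_mul] at h1
  linarith

theorem tz_append (f : List Bool → ℚ) (u v : List Bool) :
    tz f (u ++ v) = tz (fun a => tz (fun b => f (a ++ b)) v) u := by
  induction u generalizing f with
  | nil => rfl
  | cons b u ih =>
    cases b
    · rw [List.cons_append, tz_false, ih, tz_false]
      rfl
    · rw [List.cons_append, tz_true, ih, ih, tz_true]
      rfl

theorem tz_snoc_false (f : List Bool → ℚ) (w : List Bool) :
    tz f (w ++ [false]) = tz (fun v => f (v ++ [false])) w := by
  rw [tz_append]
  rfl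

theorem tz_snoc_true (f : List Bool → ℚ) (w : List Bool) :
    tz f (w ++ [true]) = tz (fun v => f (v ++ [false]) + f (v ++ [true])) w := by
  rw [tz_append]
  rfl

/-- reversal -/
theorem tz_rev (f : List Bool → ℚ) (w : List Bool) :
    tz f w.reverse = tz (fun v => f v.reverse) w := by
  induction w generalizing f with
  | nil => rfl
  | cons b w ih =>
    cases b
    · rw [List.reverse_cons, tz_snoc_false, ih, tz_false]
      simp only [List.reverse_cons]
    · rw [List.reverse_cons, tz_snoc_true, ih, tz_true, ← tz_add]
      simp only [List.reverse_cons]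

/-- `∂` -/
theorem tz_dd (f : List Bool → ℚ) (w : List Bool) : ddz (tz f) w = tz (dd f) w := by
  induction w generalizing f with
  | nil => rfl
  | cons b w ih =>
    cases b
    · have h := ih (fun v => f (false :: v))
      have e1 : ddz (tz f) (false :: w) = tz f (false :: true :: w) - tz f (false :: false :: w) +
          ddz (tz (fun v => f (false :: v))) w := rfl
      have e2 : tz (dd f) (false :: w) =
          tz (fun v => sg false * f (false :: true :: v) + dd (fun v => f (false :: v)) v) w := rfl
      rw [e1, e2, tz_add, tz_mul, h, tz_false, tz_false, tz_true, tz_false]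
      have e3 : sg false = 1 := rfl
      rw [e3]
      have e4 : tz (fun v => dd (fun v => f (false :: v)) v) w =
        tz (dd (fun v => f (false :: v))) w := rfl
      rw [e4]
      ring
    · have h0 := ih (fun v => f (false :: v))
      have h1 := ih (fun v => f (true :: v))
      have e1 : ddz (tz f) (true :: w) = ddz (fun v => tz f (true :: v)) w := rfl
      have e2 : (fun v => tz f (true :: v)) =
          fun v => tz (fun v => f (false :: v)) v + tz (fun v => f (true :: v)) v := by
        funext v
        exact tz_true f v
      have e3 : ddz (fun v => tz (fun v => f (false :: v)) v) w =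
        ddz (tz (fun v => f (false :: v))) w := rfl
      have e4 : ddz (fun v => tz (fun v => f (true :: v)) v) w =
        ddz (tz (fun v => f (true :: v))) w := rfl
      rw [e1, e2, ddz_add, e3, e4, h0, h1, tz_true]
      have e5 : tz (fun v => dd f (false :: v)) w = tz (fun v => f (false :: true :: v)) w +
          tz (dd (fun v => f (false :: v))) w := by
        have : (fun v => dd f (false :: v)) =
            fun v => sg false * f (false :: true :: v) + dd (fun v => f (false :: v)) v := rfl
        rw [this, tz_add, tz_mul]
        have e3 : sg false = 1 := rfl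
        rw [e3, one_mul]
      have e6 : tz (fun v => dd f (true :: v)) w = -tz (fun v => f (false :: true :: v)) w +
          tz (dd (fun v => f (true :: v))) w := by
        have : (fun v => dd f (true :: v)) =
            fun v => sg true * f (false :: true :: v) + dd (fun v => f (true :: v)) v := rfl
        rw [this, tz_add, tz_mul]
        have e3 : sg true = -1 := rfl
        rw [e3]
        ring
      rw [e5, e6]
      ring

/-- `x ⧢` -/
theorem tz_insF (f : List Bool → ℚ) (w : List Bool) :
    ins false (tz f) w = tz (ins false f) w := by
  induction w generalizing f with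
  | nil => rfl
  | cons b w ih =>
    cases b
    · have h := ih (fun v => f (false :: v))
      have e1 : ins false (tz f) (false :: w) = tz (fun v => f (false :: false :: v)) w +
          ins false (tz (fun v => f (false :: v))) w := rfl
      have e2 : tz (ins false f) (false :: w) = tz (fun v => f (false :: false :: v) +
          ins false (fun v => f (false :: v)) v) w := rfl
      rw [e1, e2, tz_add, h]
    · have h0 := ih (fun v => f (false :: v))
      have h1 := ih (fun v => f (true :: v))
      have e1 : ins false (tz f) (true :: w) = tz (fun v => f (false :: v)) (true :: w) +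
          ins false (fun v => tz f (true :: v)) w := rfl
      have e2 : (fun v => tz f (true :: v)) =
          fun v => tz (fun v => f (false :: v)) v + tz (fun v => f (true :: v)) v := by
        funext v
        exact tz_true f v
      have e3 : ins false (fun v => tz (fun v => f (false :: v)) v) w =
        ins false (tz (fun v => f (false :: v))) w := rfl
      have e4 : ins false (fun v => tz (fun v => f (true :: v)) v) w =
        ins false (tz (fun v => f (true :: v))) w := rfl
      have e5 : tz (fun v => ins false f (false :: v)) w = tz (fun v => f (false :: false :: v)) w +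
          tz (ins false (fun v => f (false :: v))) w := by
        have : (fun v => ins false f (false :: v)) =
            fun v => f (false :: false :: v) + ins false (fun v => f (false :: v)) v := rfl
        rw [this, tz_add]
      have e6 : tz (fun v => ins false f (true :: v)) w = tz (fun v => f (false :: true :: v)) w +
          tz (ins false (fun v => f (true :: v))) w := by
        have : (fun v => ins false f (true :: v)) =
            fun v => f (false :: true :: v) + ins false (fun v => f (true :: v)) v := rfl
        rw [this, tz_add]
      rw [e1, e2, ins_add, e3, e4, h0, h1, tz_true, tz_true, e5, e6]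
      ring

/-- `z ⧢` -/
theorem tz_insT (f : List Bool → ℚ) (w : List Bool) :
    ins true (tz f) w = tz (zin f) w := by
  induction w generalizing f with
  | nil => rfl
  | cons b w ih =>
    have key : ∀ c : Bool, tz (fun v => zin f (c :: v)) w =
        tz (fun v => f (false :: c :: v)) w + tz (fun v => f (true :: c :: v)) w +
          tz (zin (fun v => f (c :: v))) w := by
      intro c
      have : (fun v => zin f (c :: v)) = fun v => (f (false :: c :: v) + f (true :: c :: v)) +
          zin (fun v => f (c :: v)) v := by
        funext v
        simp only [zin, ins]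
        ring
      rw [this, tz_add, tz_add]
    cases b
    · have h := ih (fun v => f (false :: v))
      have e1 : ins true (tz f) (false :: w) = tz f (true :: false :: w) +
          ins true (tz (fun v => f (false :: v))) w := rfl
      rw [e1, h, tz_false, key, tz_true, tz_false, tz_false]
    · have h0 := ih (fun v => f (false :: v))
      have h1 := ih (fun v => f (true :: v))
      have e1 : ins true (tz f) (true :: w) = tz f (true :: true :: w) +
          ins true (fun v => tz f (true :: v)) w := rfl
      have e2 : (fun v => tz f (true :: v)) =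
          fun v => tz (fun v => f (false :: v)) v + tz (fun v => f (true :: v)) v := by
        funext v
        exact tz_true f v
      have e3 : ins true (fun v => tz (fun v => f (false :: v)) v) w =
        ins true (tz (fun v => f (false :: v))) w := rfl
      have e4 : ins true (fun v => tz (fun v => f (true :: v)) v) w =
        ins true (tz (fun v => f (true :: v))) w := rfl
      rw [e1, e2, ins_add, e3, e4, h0, h1, tz_true (zin f), key, key, tz_true, tz_true, tz_true]
      ring

theorem tz_M (G : List Bool → ℚ) (w : List Bool) : Mz (tz G) w = tz (Mw G) w := by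
  cases w with
  | nil => rfl
  | cons b u =>
    cases b
    · rfl
    · have e1 : Mz (tz G) (true :: u) = tz G (true :: u) - tz G (u ++ [true]) + ddz (tz G) u := rfl
      have e2 : tz (fun v => Mw G (true :: v)) u = tz (fun v => G (true :: v)) u -
          tz (fun v => G (v ++ [false]) + G (v ++ [true])) u + tz (dd G) u := by
        have : (fun v => Mw G (true :: v)) = fun v => (G (true :: v) +
            (-1) * (G (v ++ [false]) + G (v ++ [true]))) + dd G v := by
          funext v
          simp only [Mw]
          ring
        rw [this, tz_add, tz_add, tz_mul]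
        ring
      rw [e1, tz_true (Mw G), e2, tz_dd, tz_snoc_true, tz_true]
      have e3 : tz (fun v => Mw G (false :: v)) u = tz (fun v => G (false :: v)) u := rfl
      rw [e3]
      ring

theorem tz_V (G : List Bool → ℚ) (w : List Bool) : Vz (tz G) w = tz (Vw G) w := by
  cases w with
  | nil => rfl
  | cons b u =>
    cases b
    · have e3 : tz (Vw G) (false :: u) = tz (fun v => Vw G (false :: v)) u := rfl
      have e4 : tz (fun v => Vw G (false :: v)) u = 0 := tz_zero_len _ _ fun v _ => rfl
      rw [e3, e4]
      rfl
    · have e1 : Vz (tz G) (true :: u) = 3 * tz G (u ++ [true]) + ins true (tz G) u -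
        2 * ddz (tz G) u := rfl
      have e2 : tz (fun v => Vw G (true :: v)) u =
          3 * tz (fun v => G (v ++ [false]) + G (v ++ [true])) u + tz (zin G) u -
            2 * tz (dd G) u := by
        have : (fun v => Vw G (true :: v)) = fun v => (3 * (G (v ++ [false]) + G (v ++ [true])) +
            zin G v) + (-2) * dd G v := by
          funext v
          simp only [Vw]
          ring
        rw [this, tz_add, tz_add, tz_mul, tz_mul]
        ring
      have e3 : tz (fun v => Vw G (false :: v)) u = 0 := tz_zero_len _ _ fun v _ => rfl
      rw [e1, tz_true (Vw G), e2, e3, tz_dd, tz_snoc_true, tz_insT, zero_add]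

end TRM

open TRM in
theorem specTr : SpecTr := by
  intro σ G h
  constructor
  · intro b
    rw [tz_dd, tz_false]
    exact tz_zero_len _ _ fun v _ => h.h1 v
  · intro b
    rw [tz_insF, tz_false]
    exact tz_zero_len _ _ fun v _ => h.h2a v
  · intro b
    rw [tz_insF, tz_true, tz_false, tz_false]
    rw [tz_zero_len (fun v => ins false G (true :: false :: v)) b fun v _ => h.h2b v,
      tz_zero_len (fun v => ins false G (false :: false :: v)) b fun v _ => h.h2a _, add_zero]
  · intro w
    rw [tz_M, tz_M, tz_rev, ← tz_mul]
    congr 1
    funext v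
    exact h.h3 v
  · intro w
    rw [tz_V, tz_V, tz_rev, ← tz_mul]
    congr 1
    funext v
    exact h.h4 v

end MP154526.Hof
end

section
/-!
# XK: `c(∂(xw)) = 0` if `w` contains `y`
-/
set_option autoImplicit false

namespace MP154526.Hof

open Finset MP154526.Bound MP154526.Top

namespace XKaux

theorem ins_app (f : List Bool → ℚ) (u v : List Bool)
    (hf : ∀ u₁ u₂, u₂ ≠ [] → u = u₁ ++ u₂ → f (u₁ ++ false :: (u₂ ++ v)) = 0) :
    ins false f (u ++ v) = ins false (fun t => f (u ++ t)) v := by
  induction u generalizing f with
  | nil => rfl
  | cons b u ih =>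
    have h0 := hf [] (b :: u) (by simp) rfl
    simp only [List.nil_append, List.cons_append] at h0
    rw [List.cons_append, ins, h0, zero_add]
    exact ih (fun t => f (b :: t)) (fun u₁ u₂ h1 h2 => hf (b :: u₁) u₂ h1 (by rw [h2]; rfl))

theorem ins_rep (f : List Bool → ℚ) (k : ℕ) :
    ins false f (List.replicate k false) = ((k : ℚ) + 1) * f (List.replicate (k + 1) false) := by
  induction k generalizing f with
  | zero => simp [ins]
  | succ k ih =>
    rw [List.replicate_succ, ins, ih]
    simp only [List.replicate_succ]
    push_cast
    ring

theorem key (hB : SpecOpB) (c : List Bool → ℚ) (hx : ∀ w, ins false c w = 0)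
    (hJ : ∀ i b, jj i c (false :: b ++ [true]) = 0) (k : ℕ) :
    ∀ i b, jj i c (false :: b ++ [true] ++ List.replicate k false) = 0 := by
  induction k with
  | zero => intro i b; simpa using hJ i b
  | succ k ih =>
    intro i b
    have h1 := hB.ok i c (false :: b ++ [true] ++ List.replicate k false)
    have h2 : (ins false c) = fun v => (0 : ℚ) * c v := by
      funext v
      rw [hx v, zero_mul]
    rw [h2, jj_mul, zero_mul, ih (i + 1) b, mul_zero, sub_zero] at h1
    have h3 := ins_app (jj i c) (false :: b ++ [true]) (List.replicate k false) (by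
      intro u₁ u₂ hne h
      -- the word with `x` inserted is again of the form `false :: b' ++ [true]`
      obtain ⟨u₃, rfl⟩ : ∃ u₃, u₂ = u₃ ++ [true] := by
        rcases List.eq_nil_or_concat u₂ with h' | ⟨L, e, h'⟩
        · exact absurd h' hne
        · rw [h', List.concat_eq_append, ← List.append_assoc] at h
          have := List.append_inj' h rfl
          simp only [List.cons.injEq, and_true] at this
          exact ⟨L, by rw [h', List.concat_eq_append, ← this.2]⟩
      cases u₁ with
      | nil =>
        have := ih i u₃
        simpa using this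
      | cons e u₁ =>
        have he : e = false := by
          simp only [List.cons_append, List.cons.injEq] at h
          exact h.1.symm
        subst he
        have := ih i (u₁ ++ false :: u₃)
        simpa using this)
    rw [h3, ins_rep] at h1
    have hk : ((k : ℚ) + 1) ≠ 0 := by positivity
    exact (mul_eq_zero.mp h1).resolve_left hk

theorem decomp (w : List Bool) (hw : true ∈ w) :
    ∃ b k, w = b ++ [true] ++ List.replicate k false := by
  induction w with
  | nil => simp at hw
  | cons a w ih =>
    by_cases h : true ∈ w
    · obtain ⟨b, k, hb⟩ := ih h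
      exact ⟨a :: b, k, by rw [hb]; simp⟩
    · have ha : a = true := by
        rcases List.mem_cons.mp hw with h' | h'
        · exact h'.symm
        · exact absurd h' h
      refine ⟨[], w.length, ?_⟩
      have hrep : w = List.replicate w.length false := by
        rw [List.eq_replicate_iff]
        refine ⟨rfl, fun b hb => ?_⟩
        cases b
        · rfl
        · exact absurd hb h
      rw [ha, List.nil_append, List.singleton_append, ← hrep]

end XKaux

theorem specXK (hB : SpecOpB) : SpecXK := by
  intro c hx hy hJ w hw
  obtain ⟨b, k, rfl⟩ := XKaux.decomp w hw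
  have h := XKaux.key hB c hx hJ k 0 b
  rw [hB.oy, hy, zero_sub, neg_eq_zero]
  simpa using h

end MP154526.Hof
end

section
/-!
# ZK: `c(z_k * w) = 0`
-/
set_option autoImplicit false

namespace MP154526.Hof

open Finset MP154526.Bound MP154526.Top

namespace ZKM

theorem jj_zero_fun (i : ℕ) (f : List Bool → ℚ) (w : List Bool) (hf : ∀ v, f v = 0) :
    jj i f w = 0 := by
  rw [jj, hf, zero_add]
  exact ze_zero_of (P := fun _ => True) i f w (fun v _ => hf v) (fun _ _ _ _ => trivial)

theorem true_mem_bw {w : List ℕ} (h : w ≠ []) : true ∈ bw w := by
  cases w with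
  | nil => exact absurd rfl h
  | cons a l => simp [bw]

theorem false_mem_bw {w : List ℕ} (h : ∃ a ∈ w, a ≠ 0) : false ∈ bw w := by
  induction w with
  | nil => obtain ⟨a, ha, -⟩ := h; simp at ha
  | cons b l ih =>
    by_cases hb : b = 0
    · obtain ⟨a, ha, ha0⟩ := h
      rcases List.mem_cons.1 ha with rfl | ha
      · exact absurd hb ha0
      · have := ih ⟨a, ha, ha0⟩
        simp [bw, this]
    · have : false ∈ List.replicate b false := List.mem_replicate.2 ⟨hb, rfl⟩
      simp [bw, this]

theorem bw_length (w : List ℕ) : (bw w).length = w.sum + w.length := by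
  induction w with
  | nil => rfl
  | cons a l ih => simp [bw, ih]; omega

theorem bw_short {w : List ℕ} (h : ∃ a ∈ w, a ≠ 0) (hl : (bw w).length ≤ 2) :
    bw w = false :: [] ++ [true] := by
  rw [bw_length] at hl
  match w, h, hl with
  | [], h, _ => obtain ⟨a, ha, -⟩ := h; simp at ha
  | [a], h, hl =>
    obtain ⟨b, hb, hb0⟩ := h
    have e : b = a := by simpa using hb
    subst e
    have : b = 1 := by simp at hl; omega
    subst this
    rfl
  | a :: b :: l, h, hl =>
    exfalso
    obtain ⟨d, hd, hd0⟩ := h
    have h1 : d ≤ (a :: b :: l).sum := List.single_le_sum (by intro x _; exact Nat.zero_le x) d hd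
    have h2 : 2 ≤ (a :: b :: l).length := by simp
    omega

end ZKM

open ZKM

theorem specZK (hH : SpecHyp) (hT : SpecT1) (hB : SpecOpB) (hJ : SpecJJ) : SpecZK := by
  intro n φ hn hφ
  have hc := hH n φ hn hφ
  have hy : ∀ v, jj 0 (cn n φ) v = -dd (cn n φ) v := by
    intro v
    have h := hB.oy (cn n φ) v
    rw [hc.hy v] at h
    linarith
  have h0 : 4 ≤ n → ∀ v, false ∈ v → true ∈ v → jj 0 (cn n φ) v = 0 := by
    intro h4 v h1 h2
    rw [hy, hT n _ _ h4 hc v h1 h2, neg_zero]
  refine ⟨?_, ?_⟩
  · intro w hw
    have hw' : w ≠ [] := by
      rintro rfl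
      obtain ⟨a, ha, -⟩ := hw
      simp at ha
    by_cases h4 : 4 ≤ n
    · exact h0 h4 _ (false_mem_bw hw) (true_mem_bw hw')
    · by_cases hl : (bw w).length + 1 = n
      · rw [bw_short hw (by omega)]
        exact hJ n φ hn hφ 0 []
      · refine jj_zero_len 0 _ _ (fun v hv => hc.hom v ?_)
        omega
  · intro h4
    have key : ∀ i : ℕ, (∀ v, false ∈ v → true ∈ v → jj i (cn n φ) v = 0) →
        ∀ v, true ∈ v → jj (i + 1) (cn n φ) v = 0 := by
      intro i hi v hv
      have h := hB.ok i (cn n φ) v
      have e1 : ins false (jj i (cn n φ)) v = 0 := by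
        refine ins_zero_of (P := fun u => false ∈ u ∧ true ∈ u) false _ v
          (fun u hu => hi u hu.1 hu.2) ?_
        intro u u' huu
        refine ⟨by simp, ?_⟩
        rw [huu, List.mem_append] at hv
        rcases hv with hv | hv <;> simp [hv]
      have e2 : jj i (ins false (cn n φ)) v = 0 := jj_zero_fun i _ v hc.hx
      rw [e1, e2] at h
      have hi0 : ((i : ℚ) + 1) ≠ 0 := by positivity
      have h' : ((i : ℚ) + 1) * jj (i + 1) (cn n φ) v = 0 := by linarith
      rcases mul_eq_zero.1 h' with h' | h'
      · exact absurd h' hi0
      · exact h'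
    have all : ∀ i : ℕ, ∀ v, true ∈ v → jj (i + 1) (cn n φ) v = 0 := by
      intro i
      induction i with
      | zero => exact key 0 (h0 h4)
      | succ i ih => exact key (i + 1) (fun v _ hv => ih v hv)
    intro i w hw
    exact all i _ (true_mem_bw hw)

end MP154526.Hof
end

section
/-!
# Hoffman's conjecture: assembly
-/
set_option autoImplicit false

namespace MP154526.Hof

open MP154526.Bound MP154526.Top

theorem asmHA : SpecHA := specHA specRs

theorem asmHB : SpecHB := specHB asmHA

theorem asmHC : SpecHC := specHC specRs asmHA asmHB

theorem asmHD : SpecHD := specHD asmHA asmHC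

theorem asmHE : SpecHE := specHE asmHD

theorem asmBr : SpecBr := specBr specBrA specBrB

theorem asmHom : SpecHom := specHom asmBr asmHE specBrA

theorem asmSec : SpecSec := specSec asmHom

theorem asmH1 : SpecH1 := specH1 specOpA

theorem asmH2 : SpecH2 := specH2 specOpA specOpB asmH1

theorem asmH3 : SpecH3 := specH3 specOpA

theorem asmH4 : SpecH4 := specH4 specOpA asmH3

theorem asmT1 : SpecT1 := specT1 asmH1 asmH2 asmH3 asmH4 specTr specTi asmSec

theorem asmJJ : SpecJJ := specJJ specCex specJs

theorem asmXK : SpecXK := specXK specOpB

theorem asmHyp : SpecHyp := specHyp specCex specAnt asmJJ asmXK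

theorem asmZK : SpecZK := specZK asmHyp asmT1 specOpB asmJJ

theorem asmTT : SpecTT := specTT asmZK specNt specJs specCex

theorem asmSpn : SpecSpn := specSpn specPP asmTT specDsh MP154526.Top.asmF2 specAlg

theorem asmFni : SpecFni := specFni asmSpn

/-- the ideal generated by the relations `z_k ⧢ w - z_k * w` -/
theorem asmEnd : SpecEnd := specEnd specDsh asmFni

end MP154526.Hof
end
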