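import Pool.Agent.Lib.MP_154526_nt.Top.Plan

/-!
# Hoffman's relation and the double shuffle relations with a factor of depth one: definitions

Words in `x, y`: `List Bool`, `false = x`, `true = y`; `z = x + y`.
A polynomial identity `f(T w) = …` for an operator `T` on `ℚ⟨x,y⟩` is written with a functional
`f : List Bool → ℚ`: the definitions below are the functions `w ↦ f(T w)`.
-/

set_option autoImplicit false

namespace MP154526.Hof

open Finset MP154526.Bound MP154526.Top

/-! ### the relations and the ideal -/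

/-- the relations `z_k ⧢ w₀ - z_k * w₀`, `k ≥ 1`, `w₀` a word of `ℌ⁰`, of weight `p`
(`k ≥ 2`: finite double shuffle relations with a factor of depth one; `k = 1`: Hoffman's relation) -/
def DS1 (p : ℕ) : Set H :=
  {r | ∃ (k : ℕ) (w₀ : List ℕ), 1 ≤ k ∧ Idx0 w₀ ∧ k + w₀.sum = p ∧
    r = shuffle (wd (word [k])) (wd (word w₀)) - stuffle [k] w₀}

/-- the weight `p` part of the ideal of `(ℌ⁰, ⧢)` generated by these relations -/
noncomputable def I (p : ℕ) : Submodule ℚ H :=
  Submodule.span ℚ {z | ∃ q r h, q ≤ p ∧ r ∈ DS1 q ∧ h ∈ H0 (p - q) ∧ z = shuffle r h}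

/-! ### operators on words in `x, y` -/

/-- `f(a ⧢ w)` for a letter `a` -/
def ins (a : Bool) : (List Bool → ℚ) → List Bool → ℚ
  | f, [] => f [a]
  | f, b :: w => f (a :: b :: w) + ins a (fun v => f (b :: v)) w

/-- `1` for `x`, `-1` for `y` -/
def sg (b : Bool) : ℚ := if b then -1 else 1

/-- `f(∂ w)`, derivation `∂ x = xy`, `∂ y = -xy` -/
def dd : (List Bool → ℚ) → List Bool → ℚ
  | _, [] => 0
  | f, b :: w => sg b * f (false :: true :: w) + dd (fun v => f (b :: v)) w

/-- `f(∂' w)`, derivation `∂' x = yx`, `∂' y = -yx` (`∂'` = reversal of `∂`) -/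
def db : (List Bool → ℚ) → List Bool → ℚ
  | _, [] => 0
  | f, b :: w => sg b * f (true :: false :: w) + db (fun v => f (b :: v)) w

/-- `f(∂₂ w)`, derivation `∂₂ x = xzy`, `∂₂ y = -xzy` -/
def d2 : (List Bool → ℚ) → List Bool → ℚ
  | _, [] => 0
  | f, b :: w => sg b * (f (false :: false :: true :: w) + f (false :: true :: true :: w)) +
      d2 (fun v => f (b :: v)) w

/-- the word `x^i y` -/
def xy (i : ℕ) (w : List Bool) : List Bool := List.replicate i false ++ true :: w

/-- `f(ζ_i w)`, derivation `ζ_i x = 0`, `ζ_i y = z x^i y` (index shifted by 1) -/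
def ze (i : ℕ) : (List Bool → ℚ) → List Bool → ℚ
  | _, [] => 0
  | f, false :: w => ze i (fun v => f (false :: v)) w
  | f, true :: w => f (false :: xy i w) + f (true :: xy i w) + ze i (fun v => f (true :: v)) w

/-- `f(J_i w)`, `J_i w = x^i y w + ζ_i w`; on words of `ℌ¹`: `J_i w = z_{i+1} * w` -/
def jj (i : ℕ) (f : List Bool → ℚ) (w : List Bool) : ℚ := f (xy i w) + ze i f w

/-- `f(z ⧢ w)` -/
def zin (f : List Bool → ℚ) (w : List Bool) : ℚ := ins false f w + ins true f w

/-! ### the hypotheses of Theorem 1 -/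

/-- `c` lives in length `n`, kills `x ⧢`, `y ⧢`, is `σ`-symmetric, and `c ∘ ∂` vanishes on the words
`x w` containing `y` -/
structure Hyp (n : ℕ) (σ : ℚ) (c : List Bool → ℚ) : Prop where
  sq : σ * σ = 1
  hom : ∀ w, w.length ≠ n → c w = 0
  hx : ∀ w, ins false c w = 0
  hy : ∀ w, ins true c w = 0
  rev : ∀ w, c w.reverse = σ * c w
  dx : ∀ w, true ∈ w → dd c (false :: w) = 0

/-- `G(u) = c(∂(y u))` -/
def GG (c : List Bool → ℚ) (u : List Bool) : ℚ := dd c (true :: u)

/-- `M(xw) = G(xw)`, `M(yu) = G(yu) - G(uz) + G(∂u)` -/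
def Mw (G : List Bool → ℚ) : List Bool → ℚ
  | [] => 0
  | false :: w => G (false :: w)
  | true :: u => G (true :: u) - (G (u ++ [false]) + G (u ++ [true])) + dd G u

/-- `V(xw) = 0`, `V(yu) = 3 G(uz) + G(z ⧢ u) - 2 G(∂u)` -/
def Vw (G : List Bool → ℚ) : List Bool → ℚ
  | [] => 0
  | false :: _ => 0
  | true :: u => 3 * (G (u ++ [false]) + G (u ++ [true])) + zin G u - 2 * dd G u

/-- the relations (h1)-(h4) -/
structure Rel (σ : ℚ) (G : List Bool → ℚ) : Prop where
  h1 : ∀ b, dd G (false :: b) = 0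
  h2a : ∀ b, ins false G (false :: b) = 0
  h2b : ∀ b, ins false G (true :: false :: b) = 0
  h3 : ∀ w, Mw G w.reverse = σ * Mw G w
  h4 : ∀ w, Vw G w.reverse = σ * Vw G w

/-! ### words in the letters `x, z` (`false = x`, `true = z`) -/

/-- the value of `f` on a word in the letters `x, z` -/
def tz : (List Bool → ℚ) → List Bool → ℚ
  | f, [] => f []
  | f, false :: w => tz (fun v => f (false :: v)) w
  | f, true :: w => tz (fun v => f (false :: v) + f (true :: v)) w

/-- `f(∂ w)`, letters `x, z`: `∂ x = xz - xx`, `∂ z = 0` -/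
def ddz : (List Bool → ℚ) → List Bool → ℚ
  | _, [] => 0
  | f, false :: w => f (false :: true :: w) - f (false :: false :: w) +
      ddz (fun v => f (false :: v)) w
  | f, true :: w => ddz (fun v => f (true :: v)) w

/-- `M` in the letters `x, z` -/
def Mz (F : List Bool → ℚ) : List Bool → ℚ
  | [] => 0
  | false :: w => F (false :: w)
  | true :: u => F (true :: u) - F (u ++ [true]) + ddz F u

/-- `V` in the letters `x, z` -/
def Vz (F : List Bool → ℚ) : List Bool → ℚ
  | [] => 0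
  | false :: _ => 0
  | true :: u => 3 * F (u ++ [true]) + ins true F u - 2 * ddz F u

/-- the relations in the letters `x, z` -/
structure RelZ (σ : ℚ) (F : List Bool → ℚ) : Prop where
  k1 : ∀ b, ddz F (false :: b) = 0
  k2a : ∀ b, ins false F (false :: b) = 0
  k2b : ∀ b, ins false F (true :: false :: b) = 0
  k3 : ∀ w, Mz F w.reverse = σ * Mz F w
  k4 : ∀ w, Vz F w.reverse = σ * Vz F w

/-- `f(∂⁺ w)`, letters `x, z`: `∂⁺ x = xz`, `∂⁺ z = 0` -/
def dp : (List Bool → ℚ) → List Bool → ℚ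
  | _, [] => 0
  | f, false :: w => f (false :: true :: w) + dp (fun v => f (false :: v)) w
  | f, true :: w => dp (fun v => f (true :: v)) w

/-- `M` with `∂⁺` -/
def Mp (F : List Bool → ℚ) : List Bool → ℚ
  | [] => 0
  | false :: w => F (false :: w)
  | true :: u => F (true :: u) - F (u ++ [true]) + dp F u

/-- `V` with `∂⁺` -/
def Vp (F : List Bool → ℚ) : List Bool → ℚ
  | [] => 0
  | false :: _ => 0
  | true :: u => 3 * F (u ++ [true]) + ins true F u - 2 * dp F u

/-- the relations in one sector (fixed number of `z`) -/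
structure RelP (σ : ℚ) (F : List Bool → ℚ) : Prop where
  supp : ∀ w, F w ≠ 0 → false ∈ w ∧ true ∈ w
  k1 : ∀ b, dp F (false :: b) = 0
  k2a : ∀ b, ins false F (false :: b) = 0
  k2b : ∀ b, ins false F (true :: false :: b) = 0
  k3 : ∀ w, Mp F w.reverse = σ * Mp F w
  k4 : ∀ w, Vp F w.reverse = σ * Vp F w

/-! ### exponents: the word `z^a x z^{k_1} x ⋯ x z^b` is `(a, b, [k_1, …])` -/

/-- `z^{k_1} x z^{k_2} x ⋯ z^{k_r} x` -/
def core : List ℕ → List Bool
  | [] => []
  | k :: K => List.replicate k true ++ false :: core K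

/-- the word `z^a x z^{k_1} x ⋯ z^{k_r} x z^b` -/
def zw (a b : ℕ) (K : List ℕ) : List Bool :=
  List.replicate a true ++ false :: (core K ++ List.replicate b true)

/-- `∑_l p(k_l) f(K with k_l replaced by k_l + r)` -/
def rs (p : ℕ → ℚ) (r : ℕ) : (List ℕ → ℚ) → List ℕ → ℚ
  | _, [] => 0
  | f, k :: K => p k * f ((k + r) :: K) + rs p r (fun L => f (k :: L)) K

/-- `D'`: one `z` more in one block -/
def D1 : (List ℕ → ℚ) → List ℕ → ℚ := rs (fun _ => 1) 1

/-- `∂'`: `z ⧢` inside the blocks -/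
def E1 : (List ℕ → ℚ) → List ℕ → ℚ := rs (fun k => (k : ℚ) + 1) 1

/-- `Q_2'` -/
def Q2 : (List ℕ → ℚ) → List ℕ → ℚ := rs (fun _ => 1) 2

/-- `Q_3'` -/
def Q3 : (List ℕ → ℚ) → List ℕ → ℚ := rs (fun _ => 1) 3

/-- `x` inserted inside one block `z^k` -/
def sp : (List ℕ → ℚ) → List ℕ → ℚ
  | _, [] => 0
  | f, k :: K => ∑ p ∈ range (k + 1), f (p :: (k - p) :: K) + sp (fun L => f (k :: L)) K

/-- `f(x ⧢ s)` for the word `s = x z^{k_1} x ⋯ x` -/
def xs (f : List ℕ → ℚ) (K : List ℕ) : ℚ := f (0 :: K) + sp f K + f (K ++ [0])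

/-- `M` in exponents -/
def MM (G : ℕ → ℕ → List ℕ → ℚ) : ℕ → ℕ → List ℕ → ℚ
  | 0, b, K => G 0 b K
  | a + 1, b, K => G (a + 1) b K + D1 (G a b) K

/-- `V` in exponents -/
def VV (G : ℕ → ℕ → List ℕ → ℚ) (a b : ℕ) (K : List ℕ) : ℚ :=
  ((a : ℚ) + 1) * G (a + 1) b K + ((b : ℚ) + 2) * G a (b + 1) K + E1 (G a b) K -
    2 * D1 (G a b) K

/-- the relations in exponents -/
structure Heart (σ : ℚ) (G : ℕ → ℕ → List ℕ → ℚ) : Prop where
  supp : ∀ K, (∀ k ∈ K, k = 0) → G 0 0 K = 0
  g1 : ∀ b K, G 0 (b + 1) K = -D1 (G 0 b) K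
  g3 : ∀ a b K, MM G a b K = σ * MM G b a K.reverse
  g4a : ∀ a K, VV G a 0 K = 0
  g4b : ∀ a b K, VV G a (b + 1) K = σ * VV G b (a + 1) K.reverse
  gA : ∀ K, xs (G 0 0) K = 0
  gB : ∀ K, xs (G 0 1) K + G 0 0 (K ++ [1]) = 0
  gC : ∀ K, G 0 0 (1 :: K) + xs (G 1 0) K = 0

/-! ### the extension to all words -/

/-- reversal and exchange of `x` and `y` -/
def th (w : List Bool) : List Bool := w.reverse.map (!·)

/-- the extension of a functional on `ℌ⁰` to all words: `ext` on the left, then on the right -/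
def cex (φ : List Bool → ℤ) (w : List Bool) : ℤ := ext (fun v => ext φ (th v)) (th w)

/-- the hypotheses on an integral functional in weight `n` -/
structure KD (n : ℕ) (φ : List Bool → ℤ) : Prop where
  prod : ∀ i j, 1 ≤ i → 1 ≤ j → i + j = n → ∀ a ∈ H0 i, ∀ b ∈ H0 j, lin φ (shuffle a b) = 0
  ds1 : ∀ r ∈ DS1 n, lin φ r = 0

/-- the part of `cex φ` in length `n`, with values in `ℚ` -/
def cn (n : ℕ) (φ : List Bool → ℤ) (w : List Bool) : ℚ := if w.length = n then (cex φ w : ℚ) else 0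

end MP154526.Hof
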