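import Pool.Agent.Lib.MP_154526_nt.Hof.Defs
import Pool.Agent.Lib.MP_154526_nt.Top.Stf

/-!
# Hoffman's conjecture: exact statements of all modules, with proofs

THEOREM.  For every weight `p` the weight `p` part `I p` of the ideal of `(ℌ⁰, ⧢)` generated by
`z_k ⧢ w - z_k * w` (`k ≥ 1`, `w` a word of `ℌ⁰`) is the span of all regularised double shuffle
elements of weight `p`.

An operator `T` on words appears through `f ↦ (w ↦ f(T w))`; so `f(S(T w))` is `T (S f) w`.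
-/

set_option autoImplicit false

namespace MP154526.Hof

open Finset MP154526.Bound MP154526.Top MP154526.Top.Pass2

/-! ## Part A: operators on words in `x, y` -/

/-- OPA.  All by induction on `w` (for all `f`), with linearity of the operators in `f`.
`ob`: `∂w - ∂'w = wz - zw` (both sides are derivations; `xy - yx = xz - zx`).
`oc`: `∂∂' = ∂'∂` (`∂' = ∂ - [·, z]`, `∂z = 0`; or directly).
`oz`: `∂(z ⧢ w) = z ⧢ ∂w - ∂₂w` (`z` inserted outside of the two letters of `∂p`).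
`o2`: `∂∂₂ = ∂₂∂` (check on a letter).
`orv`: `∂'` is the reversal of `∂` (use `dd f (w ++ [b]) = dd (fun v => f (v ++ [b])) w +
sg b * f (w ++ [x, y])` and the same for `db`).
`orr`: reversal of `a ⧢ w`. -/
structure SpecOpA : Prop where
  ob : ∀ (f : List Bool → ℚ) (w : List Bool),
    dd f w - db f w = f (w ++ [false]) + f (w ++ [true]) - (f (false :: w) + f (true :: w))
  oc : ∀ (f : List Bool → ℚ) (w : List Bool), dd (db f) w = db (dd f) w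
  oz : ∀ (f : List Bool → ℚ) (w : List Bool), zin (dd f) w = dd (zin f) w - d2 f w
  o2 : ∀ (f : List Bool → ℚ) (w : List Bool), d2 (dd f) w = dd (d2 f) w
  orv : ∀ (f : List Bool → ℚ) (w : List Bool), db f w = dd (fun v => f v.reverse) w.reverse
  orr : ∀ (a : Bool) (f : List Bool → ℚ) (w : List Bool),
    ins a f w = ins a (fun v => f v.reverse) w.reverse

/-- OPB.  All by induction on `w`, for all `f`.
`ox`: `∂(x ⧢ w) = x ⧢ ∂w + J_2 w`.  `oy`: `∂w = y ⧢ w - J_1 w`.  `oj`: `J_1 J_2 = J_2 J_1`.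
`ok`: `J_k (x ⧢ w) = x ⧢ J_k w - k J_{k+1} w` (index `i = k - 1`). -/
structure SpecOpB : Prop where
  ox : ∀ (f : List Bool → ℚ) (w : List Bool),
    ins false (dd f) w = dd (ins false f) w + jj 1 f w
  oy : ∀ (f : List Bool → ℚ) (w : List Bool), dd f w = ins true f w - jj 0 f w
  oj : ∀ (f : List Bool → ℚ) (w : List Bool), jj 1 (jj 0 f) w = jj 0 (jj 1 f) w
  ok : ∀ (i : ℕ) (f : List Bool → ℚ) (w : List Bool),
    ins false (jj i f) w = jj i (ins false f) w - ((i : ℚ) + 1) * jj (i + 1) f w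

/-! ## Part B: the relations (h1)-(h4)

`g(w) = c(∂w) = dd c w`; `g(x w) = 0` if `w` contains `y`; `G(u) = g(y u)`. -/

/-- (h1) `G(∂(xb)) = 0`.  `c` kills `z ⧢`, so by `oz`: `c(∂₂v) = -g(z ⧢ v)`.  Take `v = ∂(xb)`:
`c(∂₂∂(xb)) = c(∂∂₂(xb)) = g(∂₂(xb)) = 0` (all words start with `x` and contain `y`).  And
`g(z ⧢ v) = g(z v) + (words starting with x, containing y)`, as the words of `v = ∂(xb)` start
with `x` and contain `y`; `g(z v) = G(v) + g(x v) = G(v)`. -/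
def SpecH1 : Prop :=
  ∀ (n : ℕ) (σ : ℚ) (c : List Bool → ℚ), Hyp n σ c → ∀ b, dd (GG c) (false :: b) = 0

/-- (h2).  Put `K(v) = c(J_2 v) = g(x ⧢ v)` (by `ox`, `c` kills `x ⧢`); `K(v) = 0` if `v` starts
with `x` and contains `y`.  By `oy`, `c(J_1 v) = -g(v)` (`c` kills `y ⧢`).
(a) `b` starting with `x`: `K(J_1 b) = c(J_1 J_2 b) = -g(J_2 b) = 0` (`oj`; the words of `J_2 b`
start with `x`, contain `y`).  `J_1 b = y b + ζ_1 b`, `K(ζ_1 b) = 0`.  So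
`0 = K(y b) = g(x y b) + g(y (x ⧢ b)) = G(x ⧢ b)`.
(b) `b` starting with `x`: by (h1), (a), `ox` applied to `G`: `G(J_2 b) = G(∂(x ⧢ b)) - G(x ⧢ ∂b)
= 0`.  `K(J_1 (y b)) = -g(J_2 (y b))`, `J_2 (y b) = xyyb + zxyb + y ζ_2 b`, so
`g(J_2 (y b)) = G(x y b + ζ_2 b) = G(J_2 b) = 0`.  `J_1 (y b) = y y b + z y b + y ζ_1 b`,
`K(x y b) = 0`, `K(y ζ_1 b) = 0` by (a) (`K(y b') = G(x ⧢ b')` for `b'` starting with `x`).
So `2 K(y y b) = 0` and `K(y y b) = g(x y y b) + g(y (x ⧢ y b)) = G(x ⧢ y b)`. -/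
def SpecH2 : Prop :=
  ∀ (n : ℕ) (σ : ℚ) (c : List Bool → ℚ), Hyp n σ c →
    (∀ b, ins false (GG c) (false :: b) = 0) ∧ ∀ b, ins false (GG c) (true :: false :: b) = 0

/-- (h3).  `M(w) = c(∂∂'w) = db (dd c) w` is `σ`-symmetric (`oc`, `orv`, `c` is `σ`-symmetric).
`M(xw) = g(yxw) + g(x ∂'w) = G(xw)`.
`M(yu) = -g(yxu) + g(y ∂'u) = -G(xu) + G(∂'u) = -G(xu) + G(∂u) - G(uz) + G(zu)` (`ob`). -/
def SpecH3 : Prop :=
  ∀ (n : ℕ) (σ : ℚ) (c : List Bool → ℚ), Hyp n σ c → ∀ w, Mw (GG c) w.reverse = σ * Mw (GG c) w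

/-- (h4).  `E(w) = c(wz) - c(∂w) = c(zw) - c(∂'w)` (`ob`) is `σ`-symmetric, and so is
`w ↦ E(z ⧢ w)`.  As `c` kills `z ⧢ (wz)`: `c((z ⧢ w) z) = -c(wzz)`, so
`E(z ⧢ w) = -c(wzz) - g(z ⧢ w) = -E(wz) - g(wz) - g(z ⧢ w)`.
`E(w̃ z) = σ E(z w)` (`~` = reversal) and `E(wz) - E(zw) = c(z∂w) - c((∂'w) z) = g(zw) - σ g(z w̃)`
(`E(wz) = c(zwz) - c(∂'w z)`, `E(zw) = c(zwz) - c(z ∂w)`).
Hence `Q(w) = g(zw) + g(wz) + g(z ⧢ w)` is `σ`-symmetric.  Values: `Q(yu) = 2G(yu) + G(uz) +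
G(z ⧢ u)`, `Q(xw') = 2G(xw')` if `w'` contains `y`, `Q(x^k) = 2G(x^k) + (k + 3) g(x^{k+1})`
(`k ≥ 1`).  Correction: `Q'(w) = Q(w) - (k + 3) g(x^{k+1})` if `w = x^k`; it is `σ`-symmetric: clear
if `σ = 1` (the word `x^k` is symmetric); if `σ = -1`, then `Q(x^k) = 0` and, by (h3),
`G(x^k) = M(x^k) = 0`, so `g(x^{k+1}) = 0`.  Finally `V = Q' - 2M`. -/
def SpecH4 : Prop :=
  ∀ (n : ℕ) (σ : ℚ) (c : List Bool → ℚ), Hyp n σ c → ∀ w, Vw (GG c) w.reverse = σ * Vw (GG c) w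

/-- TR.  Change of letters, `y = z - x`.  Lemmas, all by induction on `w` for all `G`:
`ddz (tz G) w = tz (dd G) w`, `ins false (tz G) w = tz (ins false G) w`,
`ins true (tz G) w = tz (zin G) w`, `tz G w.reverse = tz (fun v => G v.reverse) w`,
`tz G (w ++ [true]) = tz (fun v => G (v ++ [false]) + G (v ++ [true])) w`, additivity of `tz`, and
`tz f w = 0` if `f` vanishes on all words of the length of `w`.
`Mz (tz G) w = tz (Mw G) w`, `Vz (tz G) w = tz (Vw G) w`. -/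
def SpecTr : Prop := ∀ (σ : ℚ) (G : List Bool → ℚ), Rel σ G → RelZ σ (tz G)

/-- TI.  Inverse change of letters: `tzi` with `tzi f (true :: w) = tzi (fun v => f (true :: v) -
f (false :: v)) w`; `tzi (tz G) w = G w`, and `tzi F w = 0` if `w` contains `false` and `F` vanishes
on the words containing `false`. -/
def SpecTi : Prop :=
  ∀ G : List Bool → ℚ, (∀ w, false ∈ w → tz G w = 0) → ∀ w, false ∈ w → G w = 0

/-! ## Part C: the heart (exponents), `Γ = G 0 0` -/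

/-- RS.  All by induction on `K`.  `comm`: only the two operations in the same block differ. -/
structure SpecRs : Prop where
  add : ∀ (p : ℕ → ℚ) (r : ℕ) (f g : List ℕ → ℚ) (K : List ℕ),
    rs p r (fun L => f L + g L) K = rs p r f K + rs p r g K
  mul : ∀ (p : ℕ → ℚ) (r : ℕ) (c : ℚ) (f : List ℕ → ℚ) (K : List ℕ),
    rs p r (fun L => c * f L) K = c * rs p r f K
  app : ∀ (p : ℕ → ℚ) (r : ℕ) (f : List ℕ → ℚ) (K : List ℕ) (k : ℕ),
    rs p r f (K ++ [k]) = rs p r (fun L => f (L ++ [k])) K + p k * f (K ++ [k + r])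
  rev : ∀ (p : ℕ → ℚ) (r : ℕ) (f : List ℕ → ℚ) (K : List ℕ),
    rs p r f K.reverse = rs p r (fun L => f L.reverse) K
  comm : ∀ (p : ℕ → ℚ) (r : ℕ) (q : ℕ → ℚ) (s : ℕ) (f : List ℕ → ℚ) (K : List ℕ),
    rs p r (rs q s f) K - rs q s (rs p r f) K =
      rs (fun k => p k * q (k + r) - q k * p (k + s)) (r + s) f K

/-- HA (from RS).  As functionals (`ΓD' = D1 Γ` etc.).  `comm` gives `D1 (E1 f) - E1 (D1 f) = Q2 f`,
`Q2 (E1 f) - E1 (Q2 f) = 2 Q3 f` (check signs), and `D1, Q2, Q3` commute.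
`Γ(K.reverse) = σΓ(K)` (g3, a = b = 0).
`G 0 b = (-1)^b D1^b Γ` (g1), `G 1 0 = -2 D1 Γ`, `G 2 0 = 3 D1² Γ`, `G 3 0 = -4 D1³ Γ` (g3).
`VV 0 0 = 0`: `E1 Γ = 6 D1 Γ`.  `VV 1 0 = 0`: `G 1 1 = D1²Γ - Q2 Γ`.  `VV 2 0 = 0`:
`G 2 1 = 3 D1 Q2 Γ`.  g3 for `(2,1)`: `G 1 2 = 2 D1 Q2 Γ`.  Then `VV 0 2 = 0` identically, so g4b
(`a = 0, b = 1`) gives `VV 1 1 = 0`, and `VV 1 1 = 4 D1³Γ + 6 D1 Q2 Γ + 2 Q3 Γ`. -/
def SpecHA : Prop :=
  ∀ (σ : ℚ) (G : ℕ → ℕ → List ℕ → ℚ), σ * σ = 1 → Heart σ G →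
    (∀ K, G 0 0 K.reverse = σ * G 0 0 K) ∧ (∀ K, E1 (G 0 0) K = 6 * D1 (G 0 0) K) ∧
      ∀ K, 2 * D1 (D1 (D1 (G 0 0))) K + 3 * Q2 (D1 (G 0 0)) K + Q3 (G 0 0) K = 0

/-- HB (from HA).  `G 0 1 = -D1 Γ` (g1), `G 1 0 = -2 D1 Γ` (g3).  gB: `xs (D1 Γ) K = Γ(K ++ [1])`;
gC: `Γ(1 :: K) = 2 xs (D1 Γ) K = 2 Γ(K ++ [1])`.  With the reversal also
`Γ(K ++ [1]) = 2 Γ(1 :: K)` (for all `K`), so `Γ(K ++ [1]) = 4 Γ(K ++ [1])`. -/
def SpecHB : Prop :=
  ∀ (σ : ℚ) (G : ℕ → ℕ → List ℕ → ℚ), σ * σ = 1 → Heart σ G → ∀ K, G 0 0 (K ++ [1]) = 0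

/-- HC (from RS, HA, HB).  Induction on `k ≥ 1`: `Γ(K ++ [k]) = 0` for all `K`.  `k = 1`: HB.
`E1 Γ = 6 D1 Γ` at `K ++ [k]`, `k ≥ 1` (`app`): `(k + 1) Γ(K ++ [k+1]) = 6 Γ(K ++ [k+1])`, so
`Γ(K ++ [k+1]) = 0` unless `k = 5`.  For `k + 1 = 6`: the third relation of HA at `K ++ [3]`: the
terms with last entry `3, 4, 5` vanish, there remains `(2 + 3 + 1) Γ(K ++ [6]) = 0`. -/
def SpecHC : Prop :=
  ∀ (σ : ℚ) (G : ℕ → ℕ → List ℕ → ℚ), σ * σ = 1 → Heart σ G → ∀ K k, G 0 0 (K ++ [k + 1]) = 0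

/-- HD (from HA, HC).  By reversal `Γ((k+1) :: K) = 0`.  Induction on `p`:
`Γ(0^p ++ (k+1) :: K) = 0` for all `k, K`: gA at `0^p ++ (k+1) :: K` reads
`(p + 2) Γ(0^{p+1} ++ (k+1) :: K) + (terms 0^p ++ (k'+1) :: K', zero) = 0`.  Lists with all entries
`0`: `supp`. -/
def SpecHD : Prop :=
  ∀ (σ : ℚ) (G : ℕ → ℕ → List ℕ → ℚ), σ * σ = 1 → Heart σ G → ∀ K, G 0 0 K = 0

/-- HE (from HD).  `P(q)`: `G a b = 0` if `a ≤ q` or `b ≤ q`.  `P(0)`: `G 0 b = 0` by g1 and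
induction; `G (b+1) 0 + D1 (G b 0) = MM (b+1) 0 = σ MM 0 (b+1) (rev) = σ G 0 (b+1) (rev) = 0`.
`P(q) ⟹ P(q+1)`: `VV a q = (q + 2) G a (q+1)` (other terms have second index `q`); if `q = 0` it
is `0` by g4a; if `q ≥ 1` it is `σ VV (q-1) (a+1) (rev)`, whose terms have first index `q` or
`q - 1`, so `0`.  Hence `G a (q+1) = 0` for all `a`; then g3: `G (q+1) a = MM (q+1) a =
σ MM a (q+1) (rev) = 0`. -/
def SpecHE : Prop :=
  ∀ (σ : ℚ) (G : ℕ → ℕ → List ℕ → ℚ), σ * σ = 1 → Heart σ G → ∀ a b K, G a b K = 0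

/-! ## Part D: from words in `x, z` to exponents; sectors -/

/-- BRA.  `dp f (x core K z^b) = D1 (fun L => f (zw 0 b L)) K + f (zw 0 (b+1) K)` (induction on `K`
for all `f`), `dp f (z^a v) = dp (fun u => f (z^a u)) v`; `ins true f (zw a b K) =
(a+1) f(zw (a+1) b K) + (b+1) f(zw a (b+1) K) + E1 (fun L => f (zw a b L)) K`;
`(zw a b K).reverse = zw b a K.reverse`. -/
structure SpecBrA : Prop where
  dpz : ∀ (f : List Bool → ℚ) (a b : ℕ) (K : List ℕ),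
    dp f (zw a b K) = D1 (fun L => f (zw a b L)) K + f (zw a (b + 1) K)
  inz : ∀ (f : List Bool → ℚ) (a b : ℕ) (K : List ℕ),
    ins true f (zw a b K) = ((a : ℚ) + 1) * f (zw (a + 1) b K) + ((b : ℚ) + 1) * f (zw a (b + 1) K) +
      E1 (fun L => f (zw a b L)) K
  rev : ∀ (a b : ℕ) (K : List ℕ), (zw a b K).reverse = zw b a K.reverse
  snoc : ∀ (a b : ℕ) (K : List ℕ), zw a b K ++ [true] = zw a (b + 1) K
  cons : ∀ (a b : ℕ) (K : List ℕ), true :: zw a b K = zw (a + 1) b K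
  /-- every word containing `x` is a `zw a b K` -/
  ex : ∀ w : List Bool, false ∈ w → ∃ a b K, w = zw a b K

/-- BRB.  `x ⧢` in exponents: `ins false f (core K) = sp (fun L => f (core L)) K +
f (core (K ++ [0]))` (induction on `K` for all `f`), then add the leading `x`; with one trailing `z`
there is the additional word `core (K ++ [1])`. -/
structure SpecBrB : Prop where
  x0 : ∀ (f : List Bool → ℚ) (K : List ℕ),
    ins false f (zw 0 0 K) = xs (fun L => f (zw 0 0 L)) K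
  x1 : ∀ (f : List Bool → ℚ) (K : List ℕ),
    ins false f (zw 0 1 K) = xs (fun L => f (zw 0 1 L)) K + f (zw 0 0 (K ++ [1]))
  x2 : ∀ (f : List Bool → ℚ) (K : List ℕ),
    ins false f (zw 1 0 K) = f (zw 0 0 (1 :: K)) + xs (fun L => f (zw 1 0 L)) K

/-- BR (from BRA, BRB).  `supp`: `zw 0 0 K` does not contain `z` if all entries are `0`.
`g1`: k1 at `zw 0 b K`.  `MM a b K = Mp F (zw a b K)`, `VV a b K = Vp F (z zw a b K)`; k3, k4 with
`rev`; `g4a`: the reversal of `z zw a 0 K` starts with `x`.  `gA, gB, gC`: k2a, k2a, k2b. -/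
def SpecBr : Prop :=
  ∀ (σ : ℚ) (F : List Bool → ℚ), σ * σ = 1 → RelP σ F → Heart σ (fun a b K => F (zw a b K))

/-- HOM (from BR, HE, BRA). -/
def SpecHom : Prop := ∀ (σ : ℚ) (F : List Bool → ℚ), σ * σ = 1 → RelP σ F → ∀ w, F w = 0

/-- SEC (from HOM).  Strong induction on the number `j` of letters `z`: `F w = 0` for all `w` of
length `m` containing `x` with `j` letters `z`.  `j = 0`: k2a at `x^{m-1}` (`m ≥ 2`):
`m F(x^m) = 0`.  `1 ≤ j < m`: `F_j w = F w` if `w` has `j` letters `z` and length `m`, else `0`.  It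
satisfies `RelP`: `∂ = ∂⁺ - ∂⁻` with `∂⁻ x = xx`, the words of `∂⁻ w` have as many `z` as `w` (and
contain `x`), so `ddz F w = dp F_j w` if `w` has `j - 1` letters `z` and length `m - 1` (by the
induction hypothesis), and `dp F_j w = 0` for the other `w`. -/
def SpecSec : Prop :=
  ∀ (m : ℕ) (σ : ℚ) (F : List Bool → ℚ), 2 ≤ m → σ * σ = 1 → (∀ w, w.length ≠ m → F w = 0) →
    RelZ σ F → ∀ w, false ∈ w → F w = 0

/-- T1 (THEOREM 1; from H1, H2, H3, H4, TR, TI, SEC).  `m = n - 2`; `GG c` lives in length `m`. -/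
def SpecT1 : Prop :=
  ∀ (n : ℕ) (σ : ℚ) (c : List Bool → ℚ), 4 ≤ n → Hyp n σ c → ∀ w, false ∈ w → true ∈ w →
    dd c w = 0

/-! ## Part E: from functionals on `ℌ⁰` to Theorem 1 -/

/-- CEX.  The extension kills all products and extends `ext φ`.  First step: `ext φ` kills
`u ⧢ v` for nonempty words of `ℌ¹` (proof of `Pass1.ext_sh`, which uses only `prod`).  Second step:
`Φ(v) = ext φ (th v)`; `th` is compatible with shuffles (`Red.shs_reverse`, letterwise map) and maps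
words starting with `x` to words ending with `y`, so `Φ` kills `u ⧢ v` for `u, v` starting with
`x`; `ext Φ` kills all `u ⧢ v` (the same proof as `Pass1.ext_sh` without the condition `EndY`).
`cex φ w = ext Φ (th w)`; if `w` ends with `y`, then `th w` starts with `x` and
`ext Φ (th w) = Φ (th w) = ext φ w`. -/
def SpecCex : Prop :=
  ∀ (n : ℕ) (φ : List Bool → ℤ), 2 ≤ n → KD n φ →
    (∀ u v : List Bool, u ≠ [] → v ≠ [] → u.length + v.length = n → shs (cex φ) u v = 0) ∧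
      ∀ w, EndY w → cex φ w = ext φ w

/-- ANT.  The antipode: a functional killing products satisfies `f(w̃) = (-1)^{n-1} f(w)`.
`∑_{w = u v} (-1)^{|u|} ũ ⧢ v = 0` (adapt `Low/Anti.lean`, which does it modulo 2). -/
def SpecAnt : Prop :=
  ∀ (n : ℕ) (f : List Bool → ℤ), 1 ≤ n →
    (∀ u v : List Bool, u ≠ [] → v ≠ [] → u.length + v.length = n → shs f u v = 0) →
    ∀ w : List Bool, w.length = n → f w.reverse = (-1) ^ (n + 1) * f w

/-- JS.  `J_i w = z_{i+1} * w` on `ℌ¹`.  Induction on `w` for all `f`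
(`ze i f (x^a y v) = f (x^a y x^i y v) + f (x^{a+i+1} y v) + ze i (…) v`). -/
def SpecJs : Prop :=
  ∀ (i : ℕ) (f : List Bool → ℚ) (w : List ℕ), jj i f (bw w) = stf (fun l => f (bw l)) [i] w

/-- JJ (from CEX, JS).  `c(z_{i+1} * b) = 0` for `b` a nonempty word of `ℌ⁰`.  Only
`i + 1 + |b| = n` matters.  `DS1 n` contains `r = z_{i+1} ⧢ b - z_{i+1} * b`.  `i ≥ 1`: `z_{i+1} ⧢ b`
is a product, so `φ(z_{i+1} * b) = 0`, and `cex φ = φ` on words starting with `x` and ending with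
`y`.  `i = 0`: `lin φ r = 0`; in `y ⧢ b - y * b` the word `y b` cancels, all other words start with
`x`; so `ext φ (y ⧢ b) - ext φ (y * b) = lin φ r = 0`, and `ext φ (y ⧢ b) = 0` (`Pass1.ext_true_sh`).
Use `Pass2.stuffle_eq`, `Pass2.map_sh`, `Pass1.lin_sh`. -/
def SpecJJ : Prop :=
  ∀ (n : ℕ) (φ : List Bool → ℤ), 2 ≤ n → KD n φ → ∀ (i : ℕ) (b : List Bool),
    jj i (cn n φ) (false :: b ++ [true]) = 0

/-- XK (from OPB).  If `c` kills `x ⧢`, `y ⧢` and all `c(J_i b)`, `b` a nonempty word of `ℌ⁰`, then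
`c(J_i (x w)) = 0` for all `i` and all `w` containing `y`.  `x w = b x^k`, `b ∈ ℌ⁰`; induction on `k`
(all `i`, `b`): `x ⧢ (b x^{k-1}) = k b x^k + (words b' x^{k-1}, b' ∈ ℌ⁰)` and, by `ok`,
`c(J_i (x ⧢ b x^{k-1})) = -(i+1) c(J_{i+1} (b x^{k-1})) = 0`.  Finally `c(∂(xw)) = -c(J_0 (xw))`
by `oy`. -/
def SpecXK : Prop :=
  ∀ c : List Bool → ℚ, (∀ w, ins false c w = 0) → (∀ w, ins true c w = 0) →
    (∀ i b, jj i c (false :: b ++ [true]) = 0) → ∀ w, true ∈ w → dd c (false :: w) = 0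

/-- HYP (from CEX, ANT, JJ, XK). `ins a (cn n φ) w = shs (cex φ) [a] w` if `|w| + 1 = n`, else
`0`. -/
def SpecHyp : Prop :=
  ∀ (n : ℕ) (φ : List Bool → ℤ), 2 ≤ n → KD n φ → Hyp n ((-1) ^ (n + 1)) (cn n φ)

/-- ZK (from HYP, T1, OPB, JJ).  `c(y * w) = 0` for words `w` of `ℌ¹` which are not a power of `y`.
`n ≥ 4`: T1 and `oy`.  `n ≤ 3`: such `w` has length `≤ 2`, so `w = xy` and JJ applies (or the
lengths do not match and `cn n φ` vanishes).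
`c(z_{i+2} * w) = 0` for nonempty `w` if `n ≥ 4`: `ok` gives
`(i+1) J_{i+1} w = x ⧢ J_i w - J_i (x ⧢ w)` under `c`, and `x ⧢ w` has only words containing `x` and
`y`; induction on `i`. -/
def SpecZK : Prop :=
  ∀ (n : ℕ) (φ : List Bool → ℤ), 2 ≤ n → KD n φ →
    (∀ w : List ℕ, (∃ a ∈ w, a ≠ 0) → jj 0 (cn n φ) (bw w) = 0) ∧
      (4 ≤ n → ∀ (i : ℕ) (w : List ℕ), w ≠ [] → jj (i + 1) (cn n φ) (bw w) = 0)

/-- NT (Newton).  `j y^j = ∑_{i<j} (-1)^i z_{i+1} * y^{j-1-i}`: with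
`S(i, m) = ∑_a y^a z_{i+1} y^{m-a}` one has `z_{i+1} * y^m = S(i, m) + S(i+1, m-1)` (`i ≥ 1`),
`y * y^m = (m+1) y^{m+1} + S(1, m-1)`; the sum telescopes.  Then
`j f(y^j * w) = ∑ (-1)^i f(z_{i+1} * (y^{j-1-i} * w))` (`stf_assoc'`), and all words of
`y^{j-1-i} * w` have a nonzero exponent and weight `n - i - 1`.  For `n ≤ 3` only `j = 1` occurs. -/
def SpecNt : Prop :=
  ∀ (n : ℕ) (f : List ℕ → ℚ),
    (∀ w : List ℕ, (∃ a ∈ w, a ≠ 0) → 1 + wt w = n → stf f [0] w = 0) →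
    (4 ≤ n → ∀ (i : ℕ) (w : List ℕ), w ≠ [] → i + 2 + wt w = n → stf f [i + 1] w = 0) →
    ∀ (j : ℕ) (w : List ℕ), 1 ≤ j → (∃ a ∈ w, a ≠ 0) → j + wt w = n →
      stf f (List.replicate j 0) w = 0

/-- TT (from ZK, NT, JS, CEX): the condition (T) of the existing bound, modulo 2.  `stz_eq`,
`stf_map` along `ℤ → ℚ`, `ℤ → ZMod 2`; `cn n φ = cex φ = ext φ` on words of `ℌ¹` of length `n`. -/
def SpecTT : Prop :=
  ∀ (n : ℕ) (φ : List Bool → ℤ), 2 ≤ n → KD n φ → IsT n (fun w => (ext φ w : ZMod 2))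

/-- PP (copy of `specPass1` with `KD` instead of `Kills`; only `prod` is used). -/
def SpecPP : Prop :=
  ∀ (n : ℕ) (φ : List Bool → ℤ), 2 ≤ n → KD n φ →
    IsSh n (fun w => (ext φ w : ZMod 2)) ∧ IsHalf n (fun w => (ext φ w : ZMod 2))

/-! ## Part F: spanning and counting -/

/-- DSH: the relations lie in `ℌ⁰`. -/
def SpecDsh : Prop := ∀ p, ∀ r ∈ DS1 p, r ∈ H0 p

/-- SPN (from `asmF2`, PP, TT, DSH; copy of `Top/Span.lean` with `DS1` instead of `RDS`). -/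
def SpecSpn : Prop :=
  ∀ n, 1 ≤ n → H0 n ≤
    Submodule.span ℚ {z | ∃ i j a b, 1 ≤ i ∧ 1 ≤ j ∧ i + j = n ∧ a ∈ H0 i ∧ b ∈ H0 j ∧
      z = shuffle a b} ⊔ Submodule.span ℚ (DS1 n) ⊔
    Submodule.span ℚ {z | ∃ w, IsLyn w ∧ (expand w).length = n ∧ z = wd (expand w)}

/-- FNI (from SPN; copy of `Top/Fin.lean` with `I` instead of `J`). -/
def SpecFni : Prop := ∀ p, Module.finrank ℚ (H0 p ⧸ (I p).comap (H0 p).subtype) ≤ D p

/-- END (from FNI).  `I p ≤ J p = span (RDS p)` (`Low.ideal_eq_span`; `DS1 ⊆ RDS` as elements of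
`ℌ⁰` are their own regularisation), both in `H0 p`, and the codimension of `span (RDS p)` is `D p`
(`Low.asmStatement`), that of `I p` is at most `D p`. -/
def SpecEnd : Prop := ∀ p, I p = Submodule.span ℚ (RDS p)

end MP154526.Hof
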